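import Mathlib

/-!
Uniform measure on the subsets of a finite set: Harris inequality, independence, restriction.
-/

namespace Pool.Agent.H95.Perc

open Finset

set_option linter.unusedSectionVars false
set_option linter.deprecated false

variable {α : Type*} [DecidableEq α]

open Classical in
/-- probability that a uniformly random subset of `E` satisfies `A` -/
noncomputable def pr (E : Finset α) (A : Finset α → Prop) : ℝ :=
  ((E.powerset.filter A).card : ℝ) / 2 ^ E.card

lemma pr_empty (A : Finset α → Prop) [Decidable (A ∅)] : pr ∅ A = if A ∅ then 1 else 0 := by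
  classical
  unfold pr
  rw [powerset_empty, filter_singleton]
  split_ifs <;> simp

lemma pr_insert {e : α} {E : Finset α} (he : e ∉ E) (A : Finset α → Prop) :
    pr (insert e E) A = (pr E A + pr E (fun ω => A (insert e ω))) / 2 := by
  classical
  unfold pr
  have h1 : ((insert e E).powerset.filter A).card
      = (E.powerset.filter A).card + (E.powerset.filter (fun ω => A (insert e ω))).card := by
    rw [powerset_insert, filter_union, card_union_of_disjoint, filter_image]
    · congr 1
      apply card_image_of_injOn
      intro x hx y hy hxy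
      simp only [coe_filter, mem_powerset, Set.mem_setOf_eq] at hx hy
      have hx' : e ∉ x := fun h => he (hx.1 h)
      have hy' : e ∉ y := fun h => he (hy.1 h)
      rw [← erase_insert hx', ← erase_insert hy']
      exact congrArg (fun z => z.erase e) hxy
    · rw [disjoint_left]
      intro x hx hx2
      simp only [mem_filter, mem_powerset, mem_image] at hx hx2
      obtain ⟨⟨y, _, rfl⟩, _⟩ := hx2
      exact he (hx.1 (mem_insert_self _ _))
  rw [h1, card_insert_of_notMem he]
  push_cast
  rw [pow_succ]
  field_simp

lemma pr_congr {E : Finset α} {A B : Finset α → Prop} (h : ∀ ω ⊆ E, A ω ↔ B ω) : pr E A = pr E B := by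
  classical
  unfold pr
  congr 2
  congr 1
  apply filter_congr
  intro ω hω
  exact h ω (mem_powerset.mp hω)

lemma pr_mono {E : Finset α} {A B : Finset α → Prop} (h : ∀ ω ⊆ E, A ω → B ω) : pr E A ≤ pr E B := by
  classical
  unfold pr
  apply div_le_div_of_nonneg_right _ (by positivity)
  exact_mod_cast card_le_card (by
    intro ω hω
    rw [mem_filter] at hω ⊢
    exact ⟨hω.1, h ω (mem_powerset.mp hω.1) hω.2⟩)

lemma pr_nonneg (E : Finset α) (A : Finset α → Prop) : 0 ≤ pr E A := by unfold pr; positivity

lemma pr_true (E : Finset α) : pr E (fun _ => True) = 1 := by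
  classical
  unfold pr
  simp [card_powerset]

lemma pr_le_one (E : Finset α) (A : Finset α → Prop) : pr E A ≤ 1 := by
  rw [← pr_true E]
  exact pr_mono (fun _ _ _ => trivial)

lemma pr_false (E : Finset α) : pr E (fun _ => False) = 0 := by
  classical
  unfold pr
  simp

lemma pr_or_add_and (E : Finset α) (A B : Finset α → Prop) :
    pr E (fun ω => A ω ∨ B ω) + pr E (fun ω => A ω ∧ B ω) = pr E A + pr E B := by
  classical
  unfold pr
  rw [← add_div, ← add_div]
  congr 1
  have := card_union_add_card_inter (E.powerset.filter A) (E.powerset.filter B)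
  rw [← filter_or, ← filter_and] at this
  have h2 : ((#(filter (fun ω => A ω ∨ B ω) E.powerset) : ℕ) : ℝ)
      + (#(filter (fun ω => A ω ∧ B ω) E.powerset) : ℕ)
      = (#(filter A E.powerset) : ℕ) + (#(filter B E.powerset) : ℕ) := by
    exact_mod_cast this
  convert h2

lemma pr_or_le (E : Finset α) (A B : Finset α → Prop) :
    pr E (fun ω => A ω ∨ B ω) ≤ pr E A + pr E B := by
  have := pr_or_add_and E A B
  have := pr_nonneg E (fun ω => A ω ∧ B ω)
  linarith

lemma pr_compl (E : Finset α) (A : Finset α → Prop) : pr E (fun ω => ¬ A ω) = 1 - pr E A := by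
  have h := pr_or_add_and E A (fun ω => ¬ A ω)
  have h1 : pr E (fun ω => A ω ∨ ¬ A ω) = 1 := by
    rw [← pr_true E]; exact pr_congr (fun ω _ => by tauto)
  have h2 : pr E (fun ω => A ω ∧ ¬ A ω) = 0 := by
    rw [← pr_false E]; exact pr_congr (fun ω _ => by tauto)
  linarith

/-- increasing events -/
def Inc (A : Finset α → Prop) : Prop := ∀ ω ω', ω ⊆ ω' → A ω → A ω'

lemma Inc.insert {A : Finset α → Prop} (h : Inc A) (e : α) : Inc (fun ω => A (insert e ω)) :=
  fun _ _ hs ha => h _ _ (insert_subset_insert e hs) ha

lemma Inc.and {A B : Finset α → Prop} (hA : Inc A) (hB : Inc B) : Inc (fun ω => A ω ∧ B ω) :=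
  fun _ _ hs h => ⟨hA _ _ hs h.1, hB _ _ hs h.2⟩

/-- Harris inequality -/
theorem harris {A B : Finset α → Prop} (hA : Inc A) (hB : Inc B) (E : Finset α) :
    pr E A * pr E B ≤ pr E (fun ω => A ω ∧ B ω) := by
  classical
  induction E using Finset.induction_on generalizing A B with
  | empty =>
    rw [pr_empty, pr_empty, pr_empty]
    by_cases h1 : A ∅ <;> by_cases h2 : B ∅ <;> simp [h1, h2]
  | insert e E he ih =>
    rw [pr_insert he, pr_insert he, pr_insert he]
    have i0 := ih hA hB
    have i1 := ih (hA.insert e) (hB.insert e)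
    have m1 : pr E A ≤ pr E (fun ω => A (insert e ω)) :=
      pr_mono (fun ω _ h => hA _ _ (subset_insert e ω) h)
    have m2 : pr E B ≤ pr E (fun ω => B (insert e ω)) :=
      pr_mono (fun ω _ h => hB _ _ (subset_insert e ω) h)
    nlinarith [mul_nonneg (sub_nonneg.mpr m1) (sub_nonneg.mpr m2)]

/-- `A` does not depend on the status of `e` -/
def Ins (A : Finset α → Prop) (e : α) : Prop := ∀ ω, A (insert e ω) ↔ A ω

lemma Ins.insert {A : Finset α → Prop} {e e' : α} (h : Ins A e) : Ins (fun ω => A (insert e' ω)) e := by
  intro ω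
  have := h (Insert.insert e' ω)
  rw [Finset.insert_comm] at this
  exact this

theorem indep {A B : Finset α → Prop} (E : Finset α) (h : ∀ e ∈ E, Ins A e ∨ Ins B e) :
    pr E (fun ω => A ω ∧ B ω) = pr E A * pr E B := by
  classical
  induction E using Finset.induction_on generalizing A B with
  | empty =>
    rw [pr_empty, pr_empty, pr_empty]
    by_cases h1 : A ∅ <;> by_cases h2 : B ∅ <;> simp [h1, h2]
  | insert e E he ih =>
    rw [pr_insert he, pr_insert he, pr_insert he]
    rcases h e (mem_insert_self _ _) with hh | hh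
    · have e1 : pr E (fun ω => A (insert e ω)) = pr E A := pr_congr (fun ω _ => hh ω)
      have e2 : pr E (fun ω => A (insert e ω) ∧ B (insert e ω))
          = pr E (fun ω => A ω ∧ B (insert e ω)) := pr_congr (fun ω _ => by rw [hh ω])
      rw [e2, e1, ih (fun e' he' => h e' (mem_insert_of_mem he')),
        ih (B := fun ω => B (insert e ω))
          (fun e' he' => (h e' (mem_insert_of_mem he')).imp id (fun k => k.insert))]
      ring
    · have e1 : pr E (fun ω => B (insert e ω)) = pr E B := pr_congr (fun ω _ => hh ω)
      have e2 : pr E (fun ω => A (insert e ω) ∧ B (insert e ω))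
          = pr E (fun ω => A (insert e ω) ∧ B ω) := pr_congr (fun ω _ => by rw [hh ω])
      rw [e2, e1, ih (fun e' he' => h e' (mem_insert_of_mem he')),
        ih (A := fun ω => A (insert e ω))
          (fun e' he' => (h e' (mem_insert_of_mem he')).imp (fun k => k.insert) id)]
      ring

/-- `A` only depends on `ω ∩ S` -/
def Dep (S : Finset α) (A : Finset α → Prop) : Prop := ∀ ω, A ω ↔ A (ω ∩ S)

lemma Dep.ins {S : Finset α} {A : Finset α → Prop} (h : Dep S A) {e : α} (he : e ∉ S) : Ins A e := by
  intro ω
  rw [h (insert e ω), h ω, insert_inter_of_notMem he]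

lemma Dep.mono {S S' : Finset α} {A : Finset α → Prop} (h : Dep S A) (hs : S ⊆ S') : Dep S' A := by
  intro ω
  rw [h ω, h (ω ∩ S'), inter_assoc, inter_eq_right.mpr hs]

lemma Dep.and {S : Finset α} {A B : Finset α → Prop} (hA : Dep S A) (hB : Dep S B) :
    Dep S (fun ω => A ω ∧ B ω) := fun ω => and_congr (hA ω) (hB ω)

lemma pr_restrict_aux {A : Finset α → Prop} {E : Finset α} (F : Finset α) (hF : Disjoint F E)
    (h : ∀ e ∈ F, Ins A e) : pr (F ∪ E) A = pr E A := by
  classical
  induction F using Finset.induction_on with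
  | empty => simp
  | insert e F he ih =>
    rw [disjoint_insert_left] at hF
    rw [insert_union, pr_insert (by
      rw [mem_union, not_or]; exact ⟨he, hF.1⟩)]
    have e1 : pr (F ∪ E) (fun ω => A (insert e ω)) = pr (F ∪ E) A :=
      pr_congr (fun ω _ => h e (mem_insert_self _ _) ω)
    rw [e1, ih hF.2 (fun e' he' => h e' (mem_insert_of_mem he'))]
    ring

lemma pr_restrict {A : Finset α → Prop} {S E : Finset α} (hSE : S ⊆ E) (h : Dep S A) :
    pr E A = pr S A := by
  have : E = (E \ S) ∪ S := (sdiff_union_of_subset hSE).symm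
  rw [this]
  exact pr_restrict_aux _ disjoint_sdiff_self_left (fun e he => h.ins (mem_sdiff.mp he).2)

lemma indep_dep {A B : Finset α → Prop} {S T E : Finset α} (hA : Dep S A) (hB : Dep T B)
    (hST : Disjoint S T) : pr E (fun ω => A ω ∧ B ω) = pr E A * pr E B := by
  apply indep
  intro e _
  by_cases he : e ∈ S
  · exact Or.inr (hB.ins (disjoint_left.mp hST he))
  · exact Or.inl (hA.ins he)

lemma pr_image {β : Type*} [DecidableEq β] {g : α → β} (hg : Function.Injective g) (E : Finset α)
    (A : Finset β → Prop) : pr (E.image g) A = pr E (fun ω => A (ω.image g)) := by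
  classical
  induction E using Finset.induction_on generalizing A with
  | empty =>
    rw [image_empty, pr_empty, pr_empty]
    by_cases h : A ∅
    · rw [if_pos h, if_pos (by simpa using h)]
    · rw [if_neg h, if_neg (by simpa using h)]
  | insert e E he ih =>
    have he' : g e ∉ E.image g := by
      intro h; rw [mem_image] at h
      obtain ⟨x, hx, hxe⟩ := h
      exact he (hg hxe ▸ hx)
    rw [image_insert, pr_insert he', pr_insert he, ih, ih]
    congr 2
    apply pr_congr
    intro ω _
    rw [image_insert]

/-- complement configurations have the same law -/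
lemma pr_flip (E : Finset α) (A : Finset α → Prop) : pr E A = pr E (fun ω => A (E \ ω)) := by
  classical
  unfold pr
  congr 2
  apply card_bij (fun ω _ => E \ ω)
  · intro ω hω
    rw [mem_filter, mem_powerset] at hω ⊢
    refine ⟨sdiff_subset, ?_⟩
    rw [Finset.sdiff_sdiff_eq_self hω.1]
    exact hω.2
  · intro ω hω ω' hω' h
    rw [mem_filter, mem_powerset] at hω hω'
    rw [← Finset.sdiff_sdiff_eq_self hω.1, ← Finset.sdiff_sdiff_eq_self hω'.1, h]
  · intro ω hω
    rw [mem_filter, mem_powerset] at hω
    refine ⟨E \ ω, ?_, Finset.sdiff_sdiff_eq_self hω.1⟩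
    rw [mem_filter, mem_powerset]
    exact ⟨sdiff_subset, hω.2⟩

/-- total probability -/
lemma pr_partition {β : Type*} [DecidableEq β] (E : Finset α) (A : Finset α → Prop)
    (U : Finset α → β) (B : Finset β) (hU : ∀ ω ⊆ E, A ω → U ω ∈ B) :
    pr E A = ∑ u ∈ B, pr E (fun ω => A ω ∧ U ω = u) := by
  classical
  unfold pr
  rw [← sum_div]
  congr 1
  have := card_eq_sum_card_fiberwise (f := U) (s := E.powerset.filter A) (t := B) (by
    intro ω hω
    simp only [coe_filter, mem_powerset, Set.mem_setOf_eq] at hω
    exact hU ω hω.1 hω.2)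
  rw [this]
  push_cast
  apply sum_congr rfl
  intro u _
  rw [filter_filter]
  congr!

end Pool.Agent.H95.Perc
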