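import Mathlib
import Pool.Agent.H95.Perc.Prob
import Pool.Agent.H95.SumRule.Weight

/-!
Connections inside finite vertex sets of the square lattice.
-/

namespace Pool.Agent.H95.Perc

open Finset Pool.Agent.H95.SumRule

set_option linter.unusedSectionVars false

lemma mem_edgesIn' {V : Finset (ℤ × ℤ)} {x y : ℤ × ℤ} :
    s(x, y) ∈ edgesIn V ↔ x ∈ V ∧ y ∈ V ∧ Z2.Adj x y := by
  constructor
  · exact edgesIn_adj
  · rintro ⟨hx, hy, h⟩
    have h' : IsUnit2 (y - x) := h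
    obtain ⟨d, hd⟩ : ∃ d : Dir, y = x + d.vec := by
      obtain ⟨a, b⟩ := x
      obtain ⟨c, e⟩ := y
      simp only [IsUnit2, Prod.fst_sub, Prod.snd_sub] at h'
      rcases h' with h' | h' | h' | h'
      · exact ⟨Dir.E, by ext <;> simp [Dir.vec] <;> omega⟩
      · exact ⟨Dir.N, by ext <;> simp [Dir.vec] <;> omega⟩
      · exact ⟨Dir.W, by ext <;> simp [Dir.vec] <;> omega⟩
      · exact ⟨Dir.S, by ext <;> simp [Dir.vec] <;> omega⟩
    subst hd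
    exact head_mem_edgesIn (c := (x, d)).mpr ⟨hx, hy⟩

lemma edgesIn_mono {V V' : Finset (ℤ × ℤ)} (h : V ⊆ V') : edgesIn V ⊆ edgesIn V' := by
  intro e
  induction e with
  | _ x y =>
    rw [mem_edgesIn', mem_edgesIn']
    rintro ⟨h1, h2, h3⟩
    exact ⟨h h1, h h2, h3⟩

/-- `x` and `y` are connected by open edges inside `V` -/
def conn (V : Finset (ℤ × ℤ)) (ω : Finset (Sym2 (ℤ × ℤ))) (x y : ℤ × ℤ) : Prop :=
  (openGraph (ω ∩ edgesIn V)).Reachable x y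

lemma conn_refl (V : Finset (ℤ × ℤ)) (ω : Finset (Sym2 (ℤ × ℤ))) (x : ℤ × ℤ) : conn V ω x x :=
  SimpleGraph.Reachable.refl _

lemma conn.symm {V : Finset (ℤ × ℤ)} {ω : Finset (Sym2 (ℤ × ℤ))} {x y : ℤ × ℤ}
    (h : conn V ω x y) : conn V ω y x := SimpleGraph.Reachable.symm h

lemma conn.trans {V : Finset (ℤ × ℤ)} {ω : Finset (Sym2 (ℤ × ℤ))} {x y z : ℤ × ℤ}
    (h : conn V ω x y) (h' : conn V ω y z) : conn V ω x z := SimpleGraph.Reachable.trans h h'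

lemma conn.mono {V V' : Finset (ℤ × ℤ)} {ω ω' : Finset (Sym2 (ℤ × ℤ))} {x y : ℤ × ℤ}
    (h : conn V ω x y) (hV : V ⊆ V') (hω : ω ⊆ ω') : conn V' ω' x y :=
  SimpleGraph.Reachable.mono (openGraph_mono (inter_subset_inter hω (edgesIn_mono hV))) h

lemma conn.mem {V : Finset (ℤ × ℤ)} {ω : Finset (Sym2 (ℤ × ℤ))} {x y : ℤ × ℤ}
    (h : conn V ω x y) (hx : x ∈ V) : y ∈ V := reach_mem inter_subset_right hx h

lemma conn_step {V : Finset (ℤ × ℤ)} {ω : Finset (Sym2 (ℤ × ℤ))} {x y : ℤ × ℤ}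
    (hx : x ∈ V) (hy : y ∈ V) (hadj : Z2.Adj x y) (h : s(x, y) ∈ ω) : conn V ω x y := by
  apply SimpleGraph.Adj.reachable
  rw [openGraph_adj, mem_inter]
  exact ⟨⟨h, mem_edgesIn'.mpr ⟨hx, hy, hadj⟩⟩, hadj.ne⟩

lemma inc_conn (V : Finset (ℤ × ℤ)) (x y : ℤ × ℤ) : Inc (fun ω => conn V ω x y) :=
  fun _ _ hs h => h.mono (Subset.refl _) hs

lemma dep_conn (V : Finset (ℤ × ℤ)) (x y : ℤ × ℤ) : Dep (edgesIn V) (fun ω => conn V ω x y) := by
  intro ω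
  simp only [conn]
  rw [inter_assoc, inter_self]

/-- connection between two sets inside `V` -/
def link (V : Finset (ℤ × ℤ)) (A B : ℤ × ℤ → Prop) (ω : Finset (Sym2 (ℤ × ℤ))) : Prop :=
  ∃ a b, a ∈ V ∧ b ∈ V ∧ A a ∧ B b ∧ conn V ω a b

lemma inc_link (V : Finset (ℤ × ℤ)) (A B : ℤ × ℤ → Prop) : Inc (link V A B) := by
  rintro ω ω' hs ⟨a, b, ha, hb, hA, hB, hc⟩
  exact ⟨a, b, ha, hb, hA, hB, hc.mono (Subset.refl _) hs⟩

lemma dep_link (V : Finset (ℤ × ℤ)) (A B : ℤ × ℤ → Prop) : Dep (edgesIn V) (link V A B) := by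
  intro ω
  simp only [link]
  constructor
  · rintro ⟨a, b, ha, hb, hA, hB, hc⟩
    exact ⟨a, b, ha, hb, hA, hB, (dep_conn V a b ω).mp hc⟩
  · rintro ⟨a, b, ha, hb, hA, hB, hc⟩
    exact ⟨a, b, ha, hb, hA, hB, (dep_conn V a b ω).mpr hc⟩

lemma link.mono {V V' : Finset (ℤ × ℤ)} {A A' B B' : ℤ × ℤ → Prop} {ω : Finset (Sym2 (ℤ × ℤ))}
    (h : link V A B ω) (hV : V ⊆ V') (hA : ∀ a ∈ V, A a → A' a) (hB : ∀ a ∈ V, B a → B' a) :
    link V' A' B' ω := by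
  obtain ⟨a, b, ha, hb, h1, h2, hc⟩ := h
  exact ⟨a, b, hV ha, hV hb, hA a ha h1, hB b hb h2, hc.mono hV (Subset.refl _)⟩

/-- a connection gives a lattice walk inside `V` all of whose vertices are connected to the start,
and which only uses open edges -/
lemma conn.walk {V : Finset (ℤ × ℤ)} {ω : Finset (Sym2 (ℤ × ℤ))} {x y : ℤ × ℤ}
    (h : conn V ω x y) (hx : x ∈ V) : ∃ p : Z2.Walk x y, (∀ z ∈ p.support, z ∈ V) ∧
      (∀ z ∈ p.support, conn V ω x z) ∧ (∀ e ∈ p.edges, e ∈ ω ∩ edgesIn V) := by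
  obtain ⟨p⟩ := h
  have hle : openGraph (ω ∩ edgesIn V) ≤ Z2 := openGraph_le inter_subset_right
  refine ⟨p.mapLe hle, ?_, ?_, ?_⟩
  · intro z hz
    rw [SimpleGraph.Walk.support_mapLe_eq_support] at hz
    have hc : conn V ω x z := ⟨p.takeUntil z hz⟩
    exact hc.mem hx
  · intro z hz
    rw [SimpleGraph.Walk.support_mapLe_eq_support] at hz
    exact ⟨p.takeUntil z hz⟩
  · intro e he
    rw [SimpleGraph.Walk.edges_mapLe_eq_edges] at he
    have := p.edges_subset_edgeSet he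
    induction e with
    | _ a b =>
      rw [SimpleGraph.mem_edgeSet, openGraph_adj] at this
      exact this.1

/-- rectangles -/
noncomputable def rect (x0 x1 y0 y1 : ℤ) : Finset (ℤ × ℤ) := Icc x0 x1 ×ˢ Icc y0 y1

lemma mem_rect {x0 x1 y0 y1 : ℤ} {v : ℤ × ℤ} :
    v ∈ rect x0 x1 y0 y1 ↔ x0 ≤ v.1 ∧ v.1 ≤ x1 ∧ y0 ≤ v.2 ∧ v.2 ≤ y1 := by
  simp only [rect, mem_product, mem_Icc]; tauto

lemma rect_mono {x0 x1 y0 y1 x0' x1' y0' y1' : ℤ} (h1 : x0' ≤ x0) (h2 : x1 ≤ x1') (h3 : y0' ≤ y0)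
    (h4 : y1 ≤ y1') : rect x0 x1 y0 y1 ⊆ rect x0' x1' y0' y1' := by
  intro v; rw [mem_rect, mem_rect]; omega

/-- lattice automorphism -/
def IsAut (σ : (ℤ × ℤ) ≃ (ℤ × ℤ)) : Prop := ∀ u v, Z2.Adj (σ u) (σ v) ↔ Z2.Adj u v

/-- action on edge sets -/
def act (σ : (ℤ × ℤ) ≃ (ℤ × ℤ)) (ω : Finset (Sym2 (ℤ × ℤ))) : Finset (Sym2 (ℤ × ℤ)) :=
  ω.image (Sym2.map σ)

lemma mem_act {σ : (ℤ × ℤ) ≃ (ℤ × ℤ)} {ω : Finset (Sym2 (ℤ × ℤ))} {x y : ℤ × ℤ} :
    s(σ x, σ y) ∈ act σ ω ↔ s(x, y) ∈ ω := by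
  unfold act
  rw [mem_image]
  constructor
  · rintro ⟨e, he, h⟩
    have : Sym2.map σ e = Sym2.map σ s(x, y) := by rw [h]; rfl
    have := Sym2.map.injective σ.injective this
    rw [← this]; exact he
  · intro h
    exact ⟨_, h, rfl⟩

lemma edgesIn_image {σ : (ℤ × ℤ) ≃ (ℤ × ℤ)} (hσ : IsAut σ) (V : Finset (ℤ × ℤ)) :
    edgesIn (V.image σ) = act σ (edgesIn V) := by
  ext e
  induction e with
  | _ x y =>
    obtain ⟨a, rfl⟩ := σ.surjective x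
    obtain ⟨b, rfl⟩ := σ.surjective y
    rw [mem_act, mem_edgesIn', mem_edgesIn', hσ]
    simp

lemma conn_act {σ : (ℤ × ℤ) ≃ (ℤ × ℤ)} (hσ : IsAut σ) {V : Finset (ℤ × ℤ)}
    {ω : Finset (Sym2 (ℤ × ℤ))} {x y : ℤ × ℤ} :
    conn (V.image σ) (act σ ω) (σ x) (σ y) ↔ conn V ω x y := by
  unfold conn
  have h1 : act σ ω ∩ edgesIn (V.image σ) = act σ (ω ∩ edgesIn V) := by
    rw [edgesIn_image hσ]
    unfold act
    rw [image_inter _ _ (Sym2.map.injective σ.injective)]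
  rw [h1]
  set ω' := ω ∩ edgesIn V
  let e : openGraph ω' ≃g openGraph (act σ ω') :=
    { toEquiv := σ
      map_rel_iff' := by
        intro a b
        rw [openGraph_adj, openGraph_adj, mem_act]
        simp }
  exact SimpleGraph.Iso.reachable_iff (φ := e)

lemma link_act {σ : (ℤ × ℤ) ≃ (ℤ × ℤ)} (hσ : IsAut σ) {V : Finset (ℤ × ℤ)}
    {ω : Finset (Sym2 (ℤ × ℤ))} {A B : ℤ × ℤ → Prop} :
    link (V.image σ) A B (act σ ω) ↔ link V (fun v => A (σ v)) (fun v => B (σ v)) ω := by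
  constructor
  · rintro ⟨a, b, ha, hb, hA, hB, hc⟩
    obtain ⟨a', rfl⟩ := σ.surjective a
    obtain ⟨b', rfl⟩ := σ.surjective b
    refine ⟨a', b', by simpa using ha, by simpa using hb, hA, hB, (conn_act hσ).mp hc⟩
  · rintro ⟨a, b, ha, hb, hA, hB, hc⟩
    exact ⟨σ a, σ b, by simpa using ha, by simpa using hb, hA, hB, (conn_act hσ).mpr hc⟩

/-- probabilities are invariant under automorphisms -/
lemma pr_act {σ : (ℤ × ℤ) ≃ (ℤ × ℤ)} (hσ : IsAut σ) (V : Finset (ℤ × ℤ))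
    (A : Finset (Sym2 (ℤ × ℤ)) → Prop) :
    pr (edgesIn (V.image σ)) A = pr (edgesIn V) (fun ω => A (act σ ω)) := by
  rw [edgesIn_image hσ]
  exact pr_image (Sym2.map.injective σ.injective) _ _

/-- reflection in the vertical direction: `(x, y) ↦ (x, c - y)` -/
def reflY (c : ℤ) : (ℤ × ℤ) ≃ (ℤ × ℤ) where
  toFun v := (v.1, c - v.2)
  invFun v := (v.1, c - v.2)
  left_inv v := by simp
  right_inv v := by simp

/-- reflection in the horizontal direction: `(x, y) ↦ (c - x, y)` -/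
def reflX (c : ℤ) : (ℤ × ℤ) ≃ (ℤ × ℤ) where
  toFun v := (c - v.1, v.2)
  invFun v := (c - v.1, v.2)
  left_inv v := by simp
  right_inv v := by simp

/-- diagonal reflection -/
def diag : (ℤ × ℤ) ≃ (ℤ × ℤ) where
  toFun v := (v.2, v.1)
  invFun v := (v.2, v.1)
  left_inv v := by simp
  right_inv v := by simp

/-- translation -/
def trans (a b : ℤ) : (ℤ × ℤ) ≃ (ℤ × ℤ) where
  toFun v := (v.1 + a, v.2 + b)
  invFun v := (v.1 - a, v.2 - b)
  left_inv v := by simp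
  right_inv v := by simp

lemma isAut_reflY (c : ℤ) : IsAut (reflY c) := by
  intro u v; simp only [Z2, IsUnit2, reflY, Equiv.coe_fn_mk, Prod.fst_sub, Prod.snd_sub]; omega
lemma isAut_reflX (c : ℤ) : IsAut (reflX c) := by
  intro u v; simp only [Z2, IsUnit2, reflX, Equiv.coe_fn_mk, Prod.fst_sub, Prod.snd_sub]; omega
lemma isAut_diag : IsAut diag := by
  intro u v; simp only [Z2, IsUnit2, diag, Equiv.coe_fn_mk, Prod.fst_sub, Prod.snd_sub]; omega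
lemma isAut_trans (a b : ℤ) : IsAut (trans a b) := by
  intro u v; simp only [Z2, IsUnit2, trans, Equiv.coe_fn_mk, Prod.fst_sub, Prod.snd_sub]; omega

lemma mem_image_equiv {σ : (ℤ × ℤ) ≃ (ℤ × ℤ)} {V : Finset (ℤ × ℤ)} {v : ℤ × ℤ} :
    v ∈ V.image σ ↔ σ.symm v ∈ V := by
  rw [mem_image]
  constructor
  · rintro ⟨a, ha, rfl⟩; simpa using ha
  · intro h; exact ⟨_, h, by simp⟩

lemma rect_reflY (c x0 x1 y0 y1 : ℤ) :
    (rect x0 x1 y0 y1).image (reflY c) = rect x0 x1 (c - y1) (c - y0) := by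
  ext v; rw [mem_image_equiv, mem_rect, mem_rect]; simp only [reflY, Equiv.coe_fn_symm_mk]; omega
lemma rect_reflX (c x0 x1 y0 y1 : ℤ) :
    (rect x0 x1 y0 y1).image (reflX c) = rect (c - x1) (c - x0) y0 y1 := by
  ext v; rw [mem_image_equiv, mem_rect, mem_rect]; simp only [reflX, Equiv.coe_fn_symm_mk]; omega
lemma rect_diag (x0 x1 y0 y1 : ℤ) :
    (rect x0 x1 y0 y1).image diag = rect y0 y1 x0 x1 := by
  ext v; rw [mem_image_equiv, mem_rect, mem_rect]; simp only [diag, Equiv.coe_fn_symm_mk]; omega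
lemma rect_trans (a b x0 x1 y0 y1 : ℤ) :
    (rect x0 x1 y0 y1).image (trans a b) = rect (x0 + a) (x1 + a) (y0 + b) (y1 + b) := by
  ext v; rw [mem_image_equiv, mem_rect, mem_rect]; simp only [trans, Equiv.coe_fn_symm_mk]; omega

end Pool.Agent.H95.Perc
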