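import Mathlib
import Pool.Agent.H95.Perc.Conn

/-!
Crossing paths in a strip must share a vertex.
-/

namespace Pool.Agent.H95.Perc

open Finset Pool.Agent.H95.SumRule

/-- face `(i, j)` is incident to the vertex `v` -/
def Inci (f v : ℤ × ℤ) : Prop := v.1 - 1 ≤ f.1 ∧ f.1 ≤ v.1 ∧ v.2 - 1 ≤ f.2 ∧ f.2 ≤ v.2

lemma wsum_Xe_zero {s t : ℤ × ℤ} (P : Z2.Walk s t) {v : ℤ × ℤ} (hv : v ∉ P.support)
    {e : Sym2 (ℤ × ℤ)} (he : v ∈ e) : wsum (Xe e) P = 0 := by
  induction P with
  | nil => exact wsum_nil _ _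
  | cons hadj p ih =>
    rw [SimpleGraph.Walk.support_cons, List.mem_cons, not_or] at hv
    rw [wsum_cons, ih hv.2, add_zero, Xe, if_neg]
    rintro rfl
    rw [Sym2.mem_iff] at he
    rcases he with rfl | rfl
    · exact hv.1 rfl
    · exact hv.2 (SimpleGraph.Walk.start_mem_support _)

/-- vertical relation for an open walk -/
lemma horiz_rel_open (i j : ℤ) {s t : ℤ × ℤ} (p : Z2.Walk s t) (hs : s.2 ≠ j) (ht : t.2 ≠ j) :
    wsum (Hf i j) p + wsum (Hf i (j - 1)) p = wsum (Xe s((i, j), (i + 1, j))) p := by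
  have h1 := wsum_cut (fun a : ℤ × ℤ => if a.1 ≤ i ∧ a.2 = j then (1 : ZMod 2) else 0) p
  have h2 : wsum (fun a b => (Hf i j a b + Hf i (j - 1) a b) + Xe s((i, j), (i + 1, j)) a b) p
      = wsum (fun a b => (if a.1 ≤ i ∧ a.2 = j then (1 : ZMod 2) else 0)
        + (if b.1 ≤ i ∧ b.2 = j then 1 else 0)) p :=
    wsum_congr _ _ p (fun a b hab => Hf_horiz i j hab)
  rw [wsum_add, wsum_add, h1] at h2
  rw [if_neg (fun h => hs h.2), if_neg (fun h => ht h.2), add_zero] at h2
  exact CharTwo.add_eq_zero.mp h2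

section
variable {s t : ℤ × ℤ} (P : Z2.Walk s t) {y0 y1 : ℤ}

/-- around a vertex not on the walk, the height function is constant on the faces of the strip -/
lemma around (hs : s.2 = y0) (ht : t.2 = y1) {v : ℤ × ℤ} (hv : v ∉ P.support) {f g : ℤ × ℤ}
    (hf : Inci f v) (hg : Inci g v) (hf2 : y0 ≤ f.2) (hf3 : f.2 < y1) (hg2 : y0 ≤ g.2)
    (hg3 : g.2 < y1) : wsum (Hf f.1 f.2) P = wsum (Hf g.1 g.2) P := by
  obtain ⟨a, b⟩ := v
  -- horizontal moves
  have hz : ∀ j : ℤ, (b - 1 ≤ j ∧ j ≤ b) → wsum (Hf a j) P = wsum (Hf (a - 1) j) P := by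
    intro j hj
    have h1 := vert_rel a j P
    rw [wsum_Xe_zero P hv] at h1
    · exact CharTwo.add_eq_zero.mp h1
    · rw [Sym2.mem_iff]
      rcases (show j = b ∨ j = b - 1 by omega) with rfl | rfl
      · left; rfl
      · right; simp
  -- vertical moves
  have vt : ∀ i : ℤ, (a - 1 ≤ i ∧ i ≤ a) → y0 < b → b < y1 →
      wsum (Hf i b) P = wsum (Hf i (b - 1)) P := by
    intro i hi h1 h2
    have h3 := horiz_rel_open i b P (by omega) (by omega)
    rw [wsum_Xe_zero P hv] at h3
    · exact CharTwo.add_eq_zero.mp h3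
    · rw [Sym2.mem_iff]
      rcases (show i = a ∨ i = a - 1 by omega) with rfl | rfl
      · left; rfl
      · right; simp
  obtain ⟨f1, f2⟩ := f
  obtain ⟨g1, g2⟩ := g
  simp only [Inci] at hf hg
  simp only at hf2 hf3 hg2 hg3
  have key : ∀ i j : ℤ, a - 1 ≤ i → i ≤ a → b - 1 ≤ j → j ≤ b → wsum (Hf i j) P = wsum (Hf a j) P := by
    intro i j h1 h2 h3 h4
    rcases (show i = a ∨ i = a - 1 by omega) with rfl | rfl
    · rfl
    · exact (hz j ⟨h3, h4⟩).symm
  simp only
  rw [key f1 f2 hf.1 hf.2.1 hf.2.2.1 hf.2.2.2, key g1 g2 hg.1 hg.2.1 hg.2.2.1 hg.2.2.2]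
  rcases (show f2 = g2 ∨ (f2 = b ∧ g2 = b - 1) ∨ (f2 = b - 1 ∧ g2 = b) by omega) with h | h | h
  · rw [h]
  · rw [h.1, h.2]; exact vt a (by omega) (by omega) (by omega)
  · rw [h.1, h.2]; exact (vt a (by omega) (by omega) (by omega)).symm

/-- the height function is constant along a walk avoiding `P` -/
lemma cross_const (hs : s.2 = y0) (ht : t.2 = y1) (hy : y0 < y1) {s2 t2 : ℤ × ℤ}
    (Q : Z2.Walk s2 t2) (hrows : ∀ z ∈ Q.support, y0 ≤ z.2 ∧ z.2 ≤ y1)
    (hdisj : ∀ z ∈ Q.support, z ∉ P.support) {f g : ℤ × ℤ}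
    (hf : Inci f s2) (hg : Inci g t2) (hf2 : y0 ≤ f.2) (hf3 : f.2 < y1) (hg2 : y0 ≤ g.2)
    (hg3 : g.2 < y1) : wsum (Hf f.1 f.2) P = wsum (Hf g.1 g.2) P := by
  induction Q generalizing f with
  | nil => exact around P hs ht (hdisj _ (by simp)) hf hg hf2 hf3 hg2 hg3
  | cons hadj q ih =>
    rename_i a b c
    -- a common face of a and b in the strip
    obtain ⟨k, hk1, hk2, hk3, hk4⟩ : ∃ k : ℤ × ℤ, Inci k a ∧ Inci k b ∧ y0 ≤ k.2 ∧ k.2 < y1 := by
      have ra := hrows a (by simp)
      have rb := hrows b (by simp)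
      have h' : IsUnit2 (b - a) := hadj
      obtain ⟨a1, a2⟩ := a
      obtain ⟨b1, b2⟩ := b
      simp only [IsUnit2, Prod.fst_sub, Prod.snd_sub] at h'
      simp only at ra rb
      simp only [Inci]
      by_cases h1 : a2 = b2
      · by_cases h2 : a2 < y1
        · exact ⟨(min a1 b1, a2), by simp only; omega⟩
        · exact ⟨(min a1 b1, a2 - 1), by simp only; omega⟩
      · exact ⟨(a1, min a2 b2), by simp only; omega⟩
    have e1 := around P hs ht (hdisj a (by simp)) hf hk1 hf2 hf3 hk3 hk4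
    have e2 := ih (fun z hz => hrows z (by simp [hz])) (fun z hz => hdisj z (by simp [hz])) hk2 hg hk3 hk4
    exact e1.trans e2

lemma height_left {i j : ℤ} (h : ∀ z ∈ P.support, i < z.1) : wsum (Hf i j) P = 0 := by
  induction P with
  | nil => exact wsum_nil _ _
  | cons hadj p ih =>
    rename_i a b c
    rw [wsum_cons, ih (fun z hz => h z (by simp [hz])), add_zero, Hf, if_neg]
    have := h a (by simp)
    omega

lemma height_total {i j : ℤ} (h : ∀ z ∈ P.support, z.1 ≤ i) :
    wsum (Hf i j) P = (if s.2 ≤ j then 1 else 0) + (if t.2 ≤ j then 1 else 0) := by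
  rw [← wsum_cut (fun a : ℤ × ℤ => if a.2 ≤ j then (1 : ZMod 2) else 0) P]
  induction P with
  | nil => rw [wsum_nil, wsum_nil]
  | cons hadj p ih =>
    rename_i a b c
    rw [wsum_cons, wsum_cons, ih (fun z hz => h z (by simp [hz]))]
    congr 1
    have h1 := h a (by simp)
    have h' : IsUnit2 (b - a) := hadj
    obtain ⟨a1, a2⟩ := a
    obtain ⟨b1, b2⟩ := b
    simp only [IsUnit2, Prod.fst_sub, Prod.snd_sub] at h'
    simp only at h1
    simp only [Hf]
    have h2 : (1 : ZMod 2) + 1 = 0 := by decide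
    split_ifs <;> first | (exfalso; omega) | simp [h2]

end

/-- a bottom-top walk and a left-right walk in a rectangle share a vertex -/
theorem cross_BT_LR {x0 x1 y0 y1 : ℤ} (hy : y0 < y1) {s t s2 t2 : ℤ × ℤ} (P : Z2.Walk s t)
    (Q : Z2.Walk s2 t2) (hP : ∀ z ∈ P.support, z ∈ rect x0 x1 y0 y1)
    (hQ : ∀ z ∈ Q.support, z ∈ rect x0 x1 y0 y1)
    (hs : s.2 = y0) (ht : t.2 = y1) (hs2 : s2.1 = x0) (ht2 : t2.1 = x1) :
    ∃ z, z ∈ P.support ∧ z ∈ Q.support := by
  by_contra hcon
  push Not at hcon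
  have r1 := hQ s2 (by simp)
  have r2 := hQ t2 (by simp)
  rw [mem_rect] at r1 r2
  obtain ⟨j1, hj1⟩ : ∃ j, s2.2 - 1 ≤ j ∧ j ≤ s2.2 ∧ y0 ≤ j ∧ j < y1 := by
    by_cases h : s2.2 < y1
    · exact ⟨s2.2, by omega⟩
    · exact ⟨s2.2 - 1, by omega⟩
  obtain ⟨j2, hj2⟩ : ∃ j, t2.2 - 1 ≤ j ∧ j ≤ t2.2 ∧ y0 ≤ j ∧ j < y1 := by
    by_cases h : t2.2 < y1
    · exact ⟨t2.2, by omega⟩
    · exact ⟨t2.2 - 1, by omega⟩
  have := cross_const P hs ht hy Q (fun z hz => by have := hQ z hz; rw [mem_rect] at this; omega)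
    (fun z hz h => hcon z h hz) (f := (x0 - 1, j1)) (g := (x1, j2))
    (by simp only [Inci]; omega) (by simp only [Inci]; omega) (by simp only; omega)
    (by simp only; omega) (by simp only; omega) (by simp only; omega)
  simp only at this
  rw [height_left P (fun z hz => by have := hP z hz; rw [mem_rect] at this; omega),
    height_total P (fun z hz => by have := hP z hz; rw [mem_rect] at this; omega),
    if_pos (by omega), if_neg (by omega), add_zero] at this
  exact zero_ne_one this

/-- a walk from the bottom left corner to the top, and a walk from the bottom side to the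
left side, share a vertex -/
theorem cross_corner_bottom {x0 x1 y0 y1 : ℤ} (hy : y0 ≤ y1) {t s2 t2 : ℤ × ℤ}
    (P : Z2.Walk (x0, y0) t) (Q : Z2.Walk s2 t2) (hP : ∀ z ∈ P.support, z ∈ rect x0 x1 y0 y1)
    (hQ : ∀ z ∈ Q.support, z ∈ rect x0 x1 y0 y1)
    (ht : t.2 = y1) (hs2 : s2.2 = y0) (ht2 : t2.1 = x0) :
    ∃ z, z ∈ P.support ∧ z ∈ Q.support := by
  by_contra hcon
  push Not at hcon
  have r1 := hQ s2 (by simp)
  have r2 := hQ t2 (by simp)
  rw [mem_rect] at r1 r2
  obtain ⟨k, y⟩ := s2
  simp only at hs2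
  subst hs2
  have hk : x0 < k := by
    by_contra h
    have : k = x0 := by simp only at r1; omega
    subst this
    exact hcon _ (SimpleGraph.Walk.start_mem_support P) (SimpleGraph.Walk.start_mem_support Q)
  have adj1 : Z2.Adj (x0, y - 1) (x0, y) := by simp [Z2, IsUnit2]
  have adj2 : Z2.Adj (k, y - 1) (k, y) := by simp [Z2, IsUnit2]
  obtain ⟨j2, hj2⟩ : ∃ j, t2.2 - 1 ≤ j ∧ j ≤ t2.2 ∧ y - 1 ≤ j ∧ j < y1 := by
    by_cases h : t2.2 < y1
    · exact ⟨t2.2, by omega⟩
    · exact ⟨t2.2 - 1, by omega⟩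
  have := cross_const (SimpleGraph.Walk.cons adj1 P) (y0 := y - 1) (y1 := y1) rfl ht (by omega)
    (SimpleGraph.Walk.cons adj2 Q)
    (fun z hz => by
      rw [SimpleGraph.Walk.support_cons, List.mem_cons] at hz
      rcases hz with rfl | hz
      · simp only; omega
      · have := hQ z hz; rw [mem_rect] at this; omega)
    (fun z hz h => by
      rw [SimpleGraph.Walk.support_cons, List.mem_cons] at hz h
      rcases hz with rfl | hz
      · rcases h with h | h
        · rw [Prod.mk.injEq] at h; omega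
        · have := hP _ h; rw [mem_rect] at this; simp only at this; omega
      · rcases h with rfl | h
        · have := hQ _ hz; rw [mem_rect] at this; simp only at this; omega
        · exact hcon z h hz) (f := (k - 1, y - 1)) (g := (x0 - 1, j2))
    (by simp only [Inci]; omega) (by simp only [Inci]; omega) (by simp only; omega)
    (by simp only; omega) (by simp only; omega) (by simp only; omega)
  simp only at this
  rw [height_left (SimpleGraph.Walk.cons adj1 P) (i := x0 - 1) (fun z hz => by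
      rw [SimpleGraph.Walk.support_cons, List.mem_cons] at hz
      rcases hz with rfl | hz
      · simp only; omega
      · have := hP z hz; rw [mem_rect] at this; omega), wsum_cons] at this
  have h1 : Hf (k - 1) (y - 1) (x0, y - 1) (x0, y) = 1 := by
    rw [Hf, if_pos]
    refine ⟨rfl, by simp only; omega, Or.inl ⟨rfl, by simp only; omega⟩⟩
  have h2 : ∀ {s t : ℤ × ℤ} (P : Z2.Walk s t), (∀ z ∈ P.support, z ∈ rect x0 x1 y y1) →
      wsum (Hf (k - 1) (y - 1)) P = 0 := by
    intro s t P hP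
    induction P with
    | nil => exact wsum_nil _ _
    | cons hadj p ih =>
      rename_i a b c
      rw [wsum_cons, ih (fun z hz => hP z (by simp [hz])), add_zero, Hf, if_neg]
      have m1 := hP a (by simp)
      have m2 := hP b (by simp)
      rw [mem_rect] at m1 m2
      omega
  rw [h1, h2 P hP, add_zero] at this
  exact one_ne_zero this

/-- a walk from the bottom side to the top side ending at column `e`, and a walk from the top side
at a column at least `e` to the left side, share a vertex -/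
theorem cross_top_left {x0 x1 y0 y1 : ℤ} (hy : y0 ≤ y1) {s s2 t2 : ℤ × ℤ} {e : ℤ}
    (P : Z2.Walk s (e, y1)) (Q : Z2.Walk s2 t2) (hP : ∀ z ∈ P.support, z ∈ rect x0 x1 y0 y1)
    (hQ : ∀ z ∈ Q.support, z ∈ rect x0 x1 y0 y1)
    (hs : s.2 = y0) (hs2 : s2.2 = y1) (hs2' : e ≤ s2.1) (ht2 : t2.1 = x0) :
    ∃ z, z ∈ P.support ∧ z ∈ Q.support := by
  by_contra hcon
  push Not at hcon
  have r1 := hQ s2 (by simp)
  have r2 := hQ t2 (by simp)
  rw [mem_rect] at r1 r2
  obtain ⟨k, y⟩ := s2
  simp only at hs2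
  subst hs2
  have hk : e < k := by
    by_contra h
    have : k = e := by simp only at hs2'; omega
    subst this
    exact hcon _ (SimpleGraph.Walk.end_mem_support P) (SimpleGraph.Walk.start_mem_support Q)
  have adj1 : Z2.Adj (e, y) (e, y + 1) := by simp [Z2, IsUnit2]
  have adj2 : Z2.Adj (k, y + 1) (k, y) := by simp [Z2, IsUnit2]
  obtain ⟨j2, hj2⟩ : ∃ j, t2.2 - 1 ≤ j ∧ j ≤ t2.2 ∧ y0 ≤ j ∧ j < y + 1 := by
    exact ⟨t2.2, by omega⟩
  set P' := P.append (SimpleGraph.Walk.cons adj1 SimpleGraph.Walk.nil) with hP'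
  have supP' : ∀ z, z ∈ P'.support ↔ z ∈ P.support ∨ z = (e, y + 1) := by
    intro z
    rw [hP', SimpleGraph.Walk.mem_support_append_iff]
    simp only [SimpleGraph.Walk.support_cons, SimpleGraph.Walk.support_nil, List.mem_cons,
      List.not_mem_nil, or_false]
    constructor
    · rintro (h | h | h)
      · exact Or.inl h
      · rw [h]; exact Or.inl (SimpleGraph.Walk.end_mem_support P)
      · exact Or.inr h
    · rintro (h | h)
      · exact Or.inl h
      · exact Or.inr (Or.inr h)
  have := cross_const P' (y0 := y0) (y1 := y + 1) hs rfl (by omega)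
    (SimpleGraph.Walk.cons adj2 Q)
    (fun z hz => by
      rw [SimpleGraph.Walk.support_cons, List.mem_cons] at hz
      rcases hz with rfl | hz
      · simp only; omega
      · have := hQ z hz; rw [mem_rect] at this; omega)
    (fun z hz h => by
      rw [supP'] at h
      rw [SimpleGraph.Walk.support_cons, List.mem_cons] at hz
      rcases hz with rfl | hz
      · rcases h with h | h
        · have := hP _ h; rw [mem_rect] at this; simp only at this; omega
        · rw [Prod.mk.injEq] at h; omega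
      · rcases h with h | rfl
        · exact hcon z h hz
        · have := hQ _ hz; rw [mem_rect] at this; simp only at this; omega)
    (f := (k - 1, y)) (g := (x0 - 1, j2))
    (by simp only [Inci]; omega) (by simp only [Inci]; omega) (by simp only; omega)
    (by simp only; omega) (by simp only; omega) (by simp only; omega)
  simp only at this
  rw [height_left P' (i := x0 - 1) (fun z hz => by
      rw [supP'] at hz
      rcases hz with hz | rfl
      · have := hP z hz; rw [mem_rect] at this; omega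
      · have := hP _ (SimpleGraph.Walk.end_mem_support P); rw [mem_rect] at this
        simp only at this ⊢; omega), hP', wsum_append, wsum_cons, wsum_nil] at this
  have h1 : Hf (k - 1) y (e, y) (e, y + 1) = 1 := by
    rw [Hf, if_pos]
    refine ⟨rfl, by simp only; omega, Or.inl ⟨rfl, rfl⟩⟩
  have h2 : ∀ {s t : ℤ × ℤ} (P : Z2.Walk s t), (∀ z ∈ P.support, z ∈ rect x0 x1 y0 y) →
      wsum (Hf (k - 1) y) P = 0 := by
    intro s t P hP
    induction P with
    | nil => exact wsum_nil _ _
    | cons hadj p ih =>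
      rename_i a b c
      rw [wsum_cons, ih (fun z hz => hP z (by simp [hz])), add_zero, Hf, if_neg]
      have m1 := hP a (by simp)
      have m2 := hP b (by simp)
      rw [mem_rect] at m1 m2
      omega
  rw [h1, h2 P hP, add_zero, zero_add] at this
  exact one_ne_zero this

end Pool.Agent.H95.Perc
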