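import Mathlib
import Pool.Agent.H95.Perc.Cross

/-!
Separation: if the set `u` of faces of a strip contains the left column and not the right one,
the edges on the boundary of `u` contain a path from bottom to top.
-/

namespace Pool.Agent.H95.Perc

open Finset Pool.Agent.H95.SumRule

/-- edges inside the strip of rows `0..n` crossed when moving between faces of the strip -/
def allowed (n : ℤ) (c : Corner) : Prop :=
  (c.2 = Dir.N ∧ 0 ≤ c.1.2 ∧ c.1.2 < n) ∨ (c.2 = Dir.S ∧ 0 < c.1.2 ∧ c.1.2 ≤ n) ∨
  ((c.2 = Dir.E ∨ c.2 = Dir.W) ∧ 0 < c.1.2 ∧ c.1.2 < n)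

instance (n : ℤ) (c : Corner) : Decidable (allowed n c) := by unfold allowed; infer_instance

section
variable (m n : ℤ) (u : Finset (ℤ × ℤ))

def chi (f : ℤ × ℤ) : ZMod 2 := if f ∈ u then 1 else 0

variable {u} in
lemma chi_mem {f : ℤ × ℤ} (h : f ∈ u) : chi u f = 1 := by unfold chi; rw [if_pos h]
variable {u} in
lemma chi_not {f : ℤ × ℤ} (h : f ∉ u) : chi u f = 0 := by unfold chi; rw [if_neg h]

/-- boundary indicator of the set `u` at the edge `head c` -/
def bd (c : Corner) : ZMod 2 :=
  if allowed n c then chi u (face c) + chi u (face (c.1, c.2.lft)) else 0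

lemma allowed_mate (c : Corner) : allowed n (mate c) ↔ allowed n c := by
  obtain ⟨⟨a, b⟩, d⟩ := c
  cases d
  all_goals simp [allowed, mate, Dir.vec, Dir.opp] <;> omega

lemma bd_mate (c : Corner) : bd n u (mate c) = bd n u c := by
  unfold bd
  by_cases h : allowed n c
  · rw [if_pos h, if_pos ((allowed_mate n c).mpr h), add_comm]
    obtain ⟨⟨a, b⟩, d⟩ := c
    cases d <;> simp [mate, Dir.vec, Dir.opp, Dir.lft, face, sub_eq_add_neg]
  · rw [if_neg h, if_neg (fun h' => h ((allowed_mate n c).mp h'))]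

/-- the graph of boundary edges of `u` in the rectangle -/
def bdG : SimpleGraph (ℤ × ℤ) where
  Adj v w := v ∈ rect 0 m 0 n ∧ w ∈ rect 0 m 0 n ∧ ∃ d : Dir, w = v + d.vec ∧ bd n u (v, d) = 1
  symm := ⟨fun v w ⟨h1, h2, d, h3, h4⟩ => by
    refine ⟨h2, h1, d.opp, ?_, ?_⟩
    · subst h3
      have : d.vec + d.opp.vec = 0 := by cases d <;> simp [Dir.vec, Dir.opp]
      rw [add_assoc, this, add_zero]
    · have := bd_mate n u (v, d)
      rw [h4] at this
      subst h3
      exact this⟩
  loopless := ⟨fun v ⟨_, _, d, h3, _⟩ => vec_ne v d h3⟩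

variable {m n u}

lemma zmod2_cases (x : ZMod 2) : x = 0 ∨ x = 1 := by
  revert x; decide

/-- separation lemma -/
theorem separation (hn : 0 < n) (hm : 0 ≤ m) (hl : ∀ j, 0 ≤ j → j < n → ((-1, j) : ℤ × ℤ) ∈ u)
    (hr : ∀ j, 0 ≤ j → j < n → ((m, j) : ℤ × ℤ) ∉ u) :
    ∃ b t : ℤ × ℤ, b ∈ rect 0 m 0 n ∧ b.2 = 0 ∧ t.2 = n ∧ (bdG m n u).Reachable b t := by
  classical
  by_contra hcon
  push Not at hcon
  set C : Finset (ℤ × ℤ) := (rect 0 m 0 n).filter
    (fun v => ∃ b, b ∈ rect 0 m 0 n ∧ b.2 = 0 ∧ (bdG m n u).Reachable b v) with hC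
  have hCtop : ∀ v ∈ C, v.2 < n := by
    intro v hv
    rw [hC, mem_filter] at hv
    obtain ⟨h1, b, hb, hb2, hr⟩ := hv
    rw [mem_rect] at h1
    by_contra h
    exact hcon b v hb hb2 (by omega) hr
  have hstay : ∀ v d, v ∈ rect 0 m 0 n → bd n u (v, d) ≠ 0 → v + d.vec ∈ rect 0 m 0 n := by
    intro v d hv hbd
    have hal : allowed n (v, d) := by
      by_contra h
      exact hbd (by unfold bd; rw [if_neg h])
    unfold bd at hbd
    rw [if_pos hal] at hbd
    rw [mem_rect] at hv ⊢
    obtain ⟨a, b⟩ := v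
    simp only [allowed] at hal
    cases d
    · -- E
      simp only [reduceCtorEq, false_and, true_or, true_and, false_or] at hal
      by_contra hh
      have ha : a = m := by simp only [Dir.vec, Prod.mk_add_mk] at hh hv; omega
      apply hbd
      subst ha
      rw [chi_not (f := face ((a, b), Dir.E)) (hr (b - 1) (by omega) (by omega)),
        chi_not (f := face (((a, b), Dir.E).1, ((a, b), Dir.E).2.lft)) (hr b (by omega) (by omega)),
        add_zero]
    · simp only [Dir.vec, Prod.mk_add_mk] at hv ⊢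
      simp at hal
      omega
    · simp only [reduceCtorEq, false_and, or_true, true_and, false_or] at hal
      by_contra hh
      have ha : a = 0 := by simp only [Dir.vec, Prod.mk_add_mk] at hh hv; omega
      apply hbd
      subst ha
      rw [chi_mem (f := face ((0, b), Dir.W)) (hl b (by omega) (by omega)),
        chi_mem (f := face (((0, b), Dir.W).1, ((0, b), Dir.W).2.lft)) (hl (b - 1) (by omega) (by omega))]
      decide
    · simp only [Dir.vec, Prod.mk_add_mk] at hv ⊢
      simp at hal
      omega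
  -- total sum is zero by the involution
  have tot0 : ∑ c ∈ cornersOf C, bd n u c = 0 := by
    rw [← sum_filter_add_sum_filter_not (cornersOf C) (fun c => bd n u c ≠ 0)]
    have z1 : ∑ c ∈ (cornersOf C).filter (fun c => ¬ bd n u c ≠ 0), bd n u c = 0 := by
      apply sum_eq_zero
      intro c hc
      rw [mem_filter] at hc
      exact not_not.mp hc.2
    rw [z1, add_zero]
    apply sum_involution (fun c _ => mate c)
    · intro c _
      rw [bd_mate]; exact CharTwo.add_self_eq_zero _
    · intro c _ _; exact mate_ne c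
    · intro c hc
      rw [mem_filter, mem_cornersOf] at hc ⊢
      refine ⟨?_, by rw [bd_mate]; exact hc.2⟩
      obtain ⟨v, d⟩ := c
      have hv := hc.1
      rw [hC, mem_filter] at hv ⊢
      obtain ⟨h1, b, hb, hb2, hreach⟩ := hv
      have h2 := hstay v d h1 hc.2
      refine ⟨h2, b, hb, hb2, hreach.trans (SimpleGraph.Adj.reachable ?_)⟩
      refine ⟨h1, h2, d, rfl, ?_⟩
      exact (zmod2_cases _).resolve_left hc.2
    · intro c _; exact mate_mate c
  -- and equals one by rows
  rw [show ∑ c ∈ cornersOf C, bd n u c = ∑ v ∈ C, (bd n u (v, Dir.E) + bd n u (v, Dir.N)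
      + bd n u (v, Dir.W) + bd n u (v, Dir.S)) by
    unfold cornersOf
    rw [sum_product]
    apply sum_congr rfl
    intro v _
    rw [sum_insert (by simp), sum_insert (by simp), sum_insert (by simp), sum_singleton]
    ring] at tot0
  have hrow : ∀ v ∈ C, (bd n u (v, Dir.E) + bd n u (v, Dir.N) + bd n u (v, Dir.W)
      + bd n u (v, Dir.S)) = if v.2 = 0 then chi u (v.1, 0) + chi u (v.1 - 1, 0) else 0 := by
    intro v hv
    have h1 := hCtop v hv
    rw [hC, mem_filter, mem_rect] at hv
    obtain ⟨a, b⟩ := v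
    simp only at h1 hv
    by_cases hb : b = 0
    · subst hb
      rw [if_pos rfl]
      have e1 : bd n u ((a, 0), Dir.E) = 0 := by
        unfold bd; rw [if_neg]; simp [allowed]
      have e2 : bd n u ((a, 0), Dir.W) = 0 := by
        unfold bd; rw [if_neg]; simp [allowed]
      have e3 : bd n u ((a, 0), Dir.S) = 0 := by
        unfold bd; rw [if_neg]; simp [allowed]
      have e4 : bd n u ((a, 0), Dir.N) = chi u (a, 0) + chi u (a - 1, 0) := by
        unfold bd; rw [if_pos]
        · rfl
        · simp [allowed]; omega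
      rw [e1, e2, e3, e4]; ring
    · rw [if_neg hb]
      have e1 : bd n u ((a, b), Dir.E) = chi u (a, b - 1) + chi u (a, b) := by
        unfold bd; rw [if_pos]
        · rfl
        · simp [allowed]; omega
      have e2 : bd n u ((a, b), Dir.W) = chi u (a - 1, b) + chi u (a - 1, b - 1) := by
        unfold bd; rw [if_pos]
        · rfl
        · simp [allowed]; omega
      have e3 : bd n u ((a, b), Dir.S) = chi u (a - 1, b - 1) + chi u (a, b - 1) := by
        unfold bd; rw [if_pos]
        · rfl
        · simp [allowed]; omega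
      have e4 : bd n u ((a, b), Dir.N) = chi u (a, b) + chi u (a - 1, b) := by
        unfold bd; rw [if_pos]
        · rfl
        · simp [allowed]; omega
      rw [e1, e2, e3, e4]
      have h2 : ∀ x : ZMod 2, x + x = 0 := CharTwo.add_self_eq_zero
      linear_combination h2 (chi u (a, b - 1)) + h2 (chi u (a, b)) + h2 (chi u (a - 1, b))
        + h2 (chi u (a - 1, b - 1))
  rw [sum_congr rfl hrow, ← sum_filter] at tot0
  have hbot : C.filter (fun v => v.2 = 0) = (Icc 0 m).image (fun a => (a, (0 : ℤ))) := by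
    ext ⟨a, b⟩
    simp only [hC, mem_filter, mem_rect, mem_image, mem_Icc, Prod.mk.injEq]
    constructor
    · rintro ⟨⟨h1, _⟩, h2⟩
      exact ⟨a, by omega, rfl, h2.symm⟩
    · rintro ⟨a', h1, rfl, rfl⟩
      exact ⟨⟨by omega, (a', 0), by simp only; omega, rfl, SimpleGraph.Reachable.refl _⟩, rfl⟩
  rw [hbot, sum_image (by intro x _ y _ h; exact congrArg Prod.fst h)] at tot0
  simp only at tot0
  have tele : ∀ k : ℕ, ∑ a ∈ Icc (0 : ℤ) k, (chi u (a, 0) + chi u (a - 1, 0))
      = chi u (k, 0) + chi u (-1, 0) := by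
    intro k
    induction k with
    | zero => simp
    | succ k ih =>
      have : Icc (0 : ℤ) ((k + 1 : ℕ) : ℤ) = insert ((k + 1 : ℕ) : ℤ) (Icc (0 : ℤ) k) := by
        ext x; simp only [mem_Icc, mem_insert]; push_cast; omega
      rw [this, sum_insert (by simp), ih]
      push_cast
      rw [show (k : ℤ) + 1 - 1 = k by ring]
      linear_combination CharTwo.add_self_eq_zero (chi u (k, 0))
  obtain ⟨k, rfl⟩ : ∃ k : ℕ, m = k := ⟨m.toNat, by omega⟩
  rw [tele k] at tot0
  have c1 : chi u ((k : ℤ), 0) = 0 := by unfold chi; rw [if_neg (hr 0 le_rfl hn)]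
  have c2 : chi u (-1, 0) = 1 := by unfold chi; rw [if_pos (hl 0 le_rfl hn)]
  rw [c1, c2, zero_add] at tot0
  exact one_ne_zero tot0

end

end Pool.Agent.H95.Perc
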