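import Mathlib
import Pool.Agent.H95.Perc.Sep

/-!
Dual exploration from the left side of a rectangle, and planar duality.
-/

namespace Pool.Agent.H95.Perc

open Finset Pool.Agent.H95.SumRule

set_option linter.unusedSectionVars false

/-- the lattice edge separating two adjacent faces -/
def sepE (f g : ℤ × ℤ) : Sym2 (ℤ × ℤ) :=
  if f.1 = g.1 then s((f.1, max f.2 g.2), (f.1 + 1, max f.2 g.2))
  else s((max f.1 g.1, f.2), (max f.1 g.1, f.2 + 1))

lemma sepE_h {a b : ℤ} : sepE (a, b - 1) (a, b) = s((a, b), (a + 1, b)) := by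
  unfold sepE
  simp only [if_true]
  rw [max_eq_right (by omega)]

lemma sepE_h' {a b : ℤ} : sepE (a, b) (a, b - 1) = s((a, b), (a + 1, b)) := by
  unfold sepE
  simp only [if_true]
  rw [max_eq_left (by omega)]

lemma sepE_v {a b : ℤ} : sepE (a, b) (a - 1, b) = s((a, b), (a, b + 1)) := by
  unfold sepE
  simp only
  rw [if_neg (by omega), max_eq_left (by omega)]

lemma sepE_v' {a b : ℤ} : sepE (a - 1, b) (a, b) = s((a, b), (a, b + 1)) := by
  unfold sepE
  simp only
  rw [if_neg (by omega), max_eq_right (by omega)]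

lemma sepE_corner (c : Corner) : sepE (face c) (face (c.1, c.2.lft)) = head c := by
  obtain ⟨⟨a, b⟩, d⟩ := c
  cases d
  · have h1 : face ((a, b), Dir.E) = (a, b - 1) := rfl
    have h2 : face ((a, b), Dir.N) = (a, b) := rfl
    simp only [Dir.lft, h1, h2, sepE_h, head, Dir.vec, Prod.mk_add_mk, add_zero]
  · have h1 : face ((a, b), Dir.N) = (a, b) := rfl
    have h2 : face ((a, b), Dir.W) = (a - 1, b) := rfl
    simp only [Dir.lft, h1, h2, sepE_v, head, Dir.vec, Prod.mk_add_mk, add_zero]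
  · have h1 : face ((a, b), Dir.W) = (a - 1, b) := rfl
    have h2 : face ((a, b), Dir.S) = (a - 1, b - 1) := rfl
    simp only [Dir.lft, h1, h2, sepE_h', head, Dir.vec, Prod.mk_add_mk, add_zero]
    rw [Sym2.eq_swap, show a - 1 + 1 = a by ring, show a - 1 = a + -1 by ring]
  · have h1 : face ((a, b), Dir.S) = (a - 1, b - 1) := rfl
    have h2 : face ((a, b), Dir.E) = (a, b - 1) := rfl
    simp only [Dir.lft, h1, h2, sepE_v', head, Dir.vec, Prod.mk_add_mk, add_zero]
    rw [Sym2.eq_swap, show b - 1 + 1 = b by ring, show b - 1 = b + -1 by ring]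

lemma sepE_comm {f g : ℤ × ℤ} (h : Z2.Adj f g) : sepE f g = sepE g f := by
  obtain ⟨a, b⟩ := f
  obtain ⟨c, d⟩ := g
  simp only [Z2, IsUnit2, Prod.fst_sub, Prod.snd_sub] at h
  unfold sepE
  simp only
  by_cases h1 : a = c
  · subst h1; rw [if_pos rfl, if_pos rfl, max_comm]
  · rw [if_neg h1, if_neg (Ne.symm h1), max_comm]
    have : b = d := by omega
    rw [this]

variable (m n : ℤ) (ω : Finset (Sym2 (ℤ × ℤ)))

/-- dual graph on the faces of the strip -/
def dualG : SimpleGraph (ℤ × ℤ) where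
  Adj f g := f ∈ rect (-1) m 0 (n - 1) ∧ g ∈ rect (-1) m 0 (n - 1) ∧ Z2.Adj f g ∧
    sepE f g ∉ ω ∩ edgesIn (rect 0 m 0 n)
  symm := ⟨fun f g ⟨h1, h2, h3, h4⟩ => ⟨h2, h1, h3.symm, by rwa [sepE_comm h3.symm]⟩⟩
  loopless := ⟨fun f ⟨_, _, h, _⟩ => h.ne rfl⟩

open Classical in
/-- faces explored from the left side -/
noncomputable def U : Finset (ℤ × ℤ) :=
  (rect (-1) m 0 (n - 1)).filter (fun f => (dualG m n ω).Reachable (-1, 0) f)

/-- no dual crossing from left to right -/
def nodual : Prop := ∀ j, 0 ≤ j → j < n → ((m, j) : ℤ × ℤ) ∉ U m n ω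

variable {m n ω}

lemma mem_U {f : ℤ × ℤ} : f ∈ U m n ω ↔ f ∈ rect (-1) m 0 (n - 1) ∧
    (dualG m n ω).Reachable (-1, 0) f := by
  classical
  unfold U; rw [mem_filter]

lemma U_left (hm : 0 ≤ m) (j : ℤ) (h1 : 0 ≤ j) (h2 : j < n) : ((-1, j) : ℤ × ℤ) ∈ U m n ω := by
  rw [mem_U]
  refine ⟨by rw [mem_rect]; simp only; omega, ?_⟩
  obtain ⟨k, rfl⟩ : ∃ k : ℕ, j = k := ⟨j.toNat, by omega⟩
  induction k with
  | zero => simp
  | succ k ih =>
    refine (ih (by omega) (by push_cast at h2; omega)).trans (SimpleGraph.Adj.reachable ?_)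
    push_cast at h2 ⊢
    refine ⟨by rw [mem_rect]; simp only; omega, by rw [mem_rect]; simp only; omega,
      by simp [Z2, IsUnit2], ?_⟩
    intro h
    rw [mem_inter] at h
    have h3 := h.2
    unfold sepE at h3
    rw [if_pos rfl, mem_edgesIn'] at h3
    have := h3.1
    rw [mem_rect] at this
    simp only at this
    omega

lemma U_boundary {f g : ℤ × ℤ} (hf : f ∈ U m n ω) (hg : g ∈ rect (-1) m 0 (n - 1))
    (hadj : Z2.Adj f g) (hg2 : g ∉ U m n ω) : sepE f g ∈ ω ∩ edgesIn (rect 0 m 0 n) := by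
  by_contra h
  apply hg2
  rw [mem_U] at hf ⊢
  exact ⟨hg, hf.2.trans (SimpleGraph.Adj.reachable ⟨hf.1, hg, hadj, h⟩)⟩

/-- faces around a corner are adjacent -/
lemma face_adj (c : Corner) : Z2.Adj (face c) (face (c.1, c.2.lft)) := by
  obtain ⟨⟨a, b⟩, d⟩ := c
  cases d <;> simp [Z2, IsUnit2, face, Dir.lft]

lemma face_rect {c : Corner} (hc : c.1 ∈ rect 0 m 0 n) (ha : allowed n c) :
    face c ∈ rect (-1) m 0 (n - 1) ∧ face (c.1, c.2.lft) ∈ rect (-1) m 0 (n - 1) := by
  obtain ⟨⟨a, b⟩, d⟩ := c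
  rw [mem_rect] at hc
  simp only [allowed] at ha
  cases d <;> simp at ha <;> simp only [face, Dir.lft, mem_rect] at hc ⊢ <;> omega

lemma face_inci (c : Corner) : Inci (face c) c.1 ∧ Inci (face c) (c.1 + c.2.vec) := by
  obtain ⟨⟨a, b⟩, d⟩ := c
  cases d <;> simp [face, Inci, Dir.vec]

lemma face_inci' (c : Corner) : Inci (face (c.1, c.2.lft)) c.1 ∧
    Inci (face (c.1, c.2.lft)) (c.1 + c.2.vec) := by
  obtain ⟨⟨a, b⟩, d⟩ := c
  cases d <;> simp [face, Inci, Dir.vec, Dir.lft]

/-- boundary edges of the explored set are open, and their ends touch the explored set -/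
lemma bdG_open {v w : ℤ × ℤ} (h : (bdG m n (U m n ω)).Adj v w) :
    s(v, w) ∈ ω ∩ edgesIn (rect 0 m 0 n) ∧ (∃ f ∈ U m n ω, Inci f v) ∧ (∃ f ∈ U m n ω, Inci f w) := by
  obtain ⟨h1, h2, d, rfl, h3⟩ := h
  have hal : allowed n (v, d) := by
    by_contra hh
    unfold bd at h3
    rw [if_neg hh] at h3
    exact zero_ne_one h3
  unfold bd at h3
  rw [if_pos hal] at h3
  have hfr := face_rect (c := (v, d)) h1 hal
  have hadj := face_adj (v, d)
  have hi := face_inci (v, d)
  have hi' := face_inci' (v, d)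
  have hs := sepE_corner (v, d)
  simp only at hfr hadj hi hi' hs h3
  by_cases hA : face (v, d) ∈ U m n ω
  · have hB : face (v, d.lft) ∉ U m n ω := by
      intro hB
      rw [chi_mem hA, chi_mem hB] at h3
      exact absurd h3 (by decide)
    have := U_boundary hA hfr.2 hadj hB
    rw [hs] at this
    exact ⟨this, ⟨_, hA, hi.1⟩, ⟨_, hA, hi.2⟩⟩
  · have hB : face (v, d.lft) ∈ U m n ω := by
      by_contra hB
      rw [chi_not hA, chi_not hB] at h3
      exact absurd h3 (by decide)
    have := U_boundary hB hfr.1 hadj.symm hA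
    rw [← sepE_comm hadj, hs] at this
    exact ⟨this, ⟨_, hB, hi'.1⟩, ⟨_, hB, hi'.2⟩⟩

/-- no dual crossing: there is an open path from bottom to top all of whose vertices touch `U` -/
theorem exists_path (hn : 0 < n) (hm : 0 ≤ m) (h : nodual m n ω) :
    ∃ (b t : ℤ × ℤ) (P : Z2.Walk b t), b.2 = 0 ∧ t.2 = n ∧ (∀ z ∈ P.support, z ∈ rect 0 m 0 n) ∧
      (∀ z ∈ P.support, ∃ f ∈ U m n ω, Inci f z) ∧ (∀ e ∈ P.edges, e ∈ ω ∩ edgesIn (rect 0 m 0 n)) := by
  obtain ⟨b, t, hb, hb2, ht2, ⟨p⟩⟩ := separation (u := U m n ω) hn hm (fun j h1 h2 => U_left hm j h1 h2) h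
  have key : ∀ {b t : ℤ × ℤ} (p : (bdG m n (U m n ω)).Walk b t), b ∈ rect 0 m 0 n → b ≠ t →
      ∃ P : Z2.Walk b t, (∀ z ∈ P.support, z ∈ rect 0 m 0 n) ∧
      (∀ z ∈ P.support, ∃ f ∈ U m n ω, Inci f z) ∧
      (∀ e ∈ P.edges, e ∈ ω ∩ edgesIn (rect 0 m 0 n)) := by
    intro b t p
    induction p with
    | nil => intro _ h; exact absurd rfl h
    | cons hadj p ih =>
      rename_i a c d
      intro ha _
      obtain ⟨o1, o2, o3⟩ := bdG_open hadj
      have hadj2 : Z2.Adj a c := (mem_edgesIn'.mp (mem_inter.mp o1).2).2.2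
      by_cases hcd : c = d
      · subst hcd
        refine ⟨SimpleGraph.Walk.cons hadj2 SimpleGraph.Walk.nil, ?_, ?_, ?_⟩
        · intro z hz
          simp at hz
          rcases hz with rfl | rfl
          · exact ha
          · exact hadj.2.1
        · intro z hz
          simp at hz
          rcases hz with rfl | rfl
          · exact o2
          · exact o3
        · intro e he
          simp at he
          rw [he]; exact o1
      · obtain ⟨P, p1, p2, p3⟩ := ih hadj.2.1 hcd
        refine ⟨SimpleGraph.Walk.cons hadj2 P, ?_, ?_, ?_⟩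
        · intro z hz
          simp at hz
          rcases hz with rfl | hz
          · exact ha
          · exact p1 z hz
        · intro z hz
          simp at hz
          rcases hz with rfl | hz
          · exact o2
          · exact p2 z hz
        · intro e he
          simp at he
          rcases he with rfl | he
          · exact o1
          · exact p3 e he
  have hbt : b ≠ t := by
    rintro rfl; omega
  obtain ⟨P, p1, p2, p3⟩ := key p hb hbt
  exact ⟨b, t, P, hb2, ht2, p1, p2, p3⟩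

lemma wsum_Xe_edges {s t : ℤ × ℤ} (P : Z2.Walk s t) {e : Sym2 (ℤ × ℤ)} (he : e ∉ P.edges) :
    wsum (Xe e) P = 0 := by
  induction P with
  | nil => exact wsum_nil _ _
  | cons hadj p ih =>
    rw [SimpleGraph.Walk.edges_cons, List.mem_cons, not_or] at he
    rw [wsum_cons, ih he.2, add_zero, Xe, if_neg (fun h => he.1 h.symm)]

/-- across one face step, the height of a walk not using the separating edge is constant -/
lemma height_step {s t : ℤ × ℤ} (P : Z2.Walk s t) {y0 y1 : ℤ} (hs : s.2 = y0) (ht : t.2 = y1)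
    {f g : ℤ × ℤ} (hadj : Z2.Adj f g) (hf : y0 ≤ f.2 ∧ f.2 < y1) (hg : y0 ≤ g.2 ∧ g.2 < y1)
    (he : wsum (Xe (sepE f g)) P = 0) : wsum (Hf f.1 f.2) P = wsum (Hf g.1 g.2) P := by
  obtain ⟨a, b⟩ := f
  obtain ⟨c, d⟩ := g
  simp only [Z2, IsUnit2, Prod.fst_sub, Prod.snd_sub] at hadj
  simp only at hf hg ⊢
  unfold sepE at he
  simp only at he
  by_cases h1 : a = c
  · subst h1
    rw [if_pos rfl] at he
    rcases (show d = b + 1 ∨ d = b - 1 by omega) with rfl | rfl
    · rw [max_eq_right (by omega)] at he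
      have := horiz_rel_open a (b + 1) P (by omega) (by omega)
      rw [he, show b + 1 - 1 = b by ring] at this
      exact (CharTwo.add_eq_zero.mp this).symm
    · rw [max_eq_left (by omega)] at he
      have := horiz_rel_open a b P (by omega) (by omega)
      rw [he] at this
      exact CharTwo.add_eq_zero.mp this
  · rw [if_neg h1] at he
    have hbd : b = d := by omega
    subst hbd
    rcases (show c = a + 1 ∨ c = a - 1 by omega) with rfl | rfl
    · rw [max_eq_right (by omega)] at he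
      have := vert_rel (a + 1) b P
      rw [he, show a + 1 - 1 = a by ring] at this
      exact (CharTwo.add_eq_zero.mp this).symm
    · rw [max_eq_left (by omega)] at he
      have := vert_rel a b P
      rw [he] at this
      exact CharTwo.add_eq_zero.mp this

/-- the height function of a bottom-top walk `Q` avoiding the dual edges is zero on `U` -/
lemma height_U {s t : ℤ × ℤ} (Q : Z2.Walk s t) {y1 : ℤ} (hs : s.2 = 0) (ht : t.2 = y1) (hy : n ≤ y1)
    (hx : ∀ z ∈ Q.support, 0 ≤ z.1)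
    (hQ : ∀ f g, (dualG m n ω).Adj f g → wsum (Xe (sepE f g)) Q = 0) {f : ℤ × ℤ}
    (hf : f ∈ U m n ω) : wsum (Hf f.1 f.2) Q = 0 := by
  rw [mem_U] at hf
  obtain ⟨_, ⟨p⟩⟩ := hf
  have key : ∀ {f g : ℤ × ℤ} (p : (dualG m n ω).Walk f g), wsum (Hf f.1 f.2) Q = wsum (Hf g.1 g.2) Q := by
    intro f g p
    induction p with
    | nil => rfl
    | cons hadj p ih =>
      rw [← ih]
      have h1 := hadj.1
      have h2 := hadj.2.1
      rw [mem_rect] at h1 h2
      exact height_step Q hs ht hadj.2.2.1 (by omega) (by omega) (hQ _ _ hadj)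
  rw [← key p]
  exact height_left Q (fun z hz => by have := hx z hz; simp only; omega)

/-- a primal crossing excludes a dual crossing -/
theorem nodual_of_link (h : link (rect 0 m 0 n) (fun v => v.2 = 0) (fun v => v.2 = n) ω) :
    nodual m n ω := by
  obtain ⟨b, t, hb, ht, hb2, ht2, hc⟩ := h
  obtain ⟨P, p1, p2, p3⟩ := hc.walk hb
  intro j h1 h2 hU
  have z := height_U P hb2 ht2 le_rfl (fun z hz => by have := p1 z hz; rw [mem_rect] at this; omega)
    (fun f g hadj => wsum_Xe_edges P (fun he => hadj.2.2.2 (p3 _ he))) hU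
  rw [height_total P (fun z hz => by have := p1 z hz; rw [mem_rect] at this; simp only; omega)] at z
  simp only at z
  rw [if_pos (by omega), if_neg (by omega), add_zero] at z
  exact one_ne_zero z

theorem link_of_nodual (hn : 0 < n) (hm : 0 ≤ m) (h : nodual m n ω) :
    link (rect 0 m 0 n) (fun v => v.2 = 0) (fun v => v.2 = n) ω := by
  obtain ⟨b, t, P, hb, ht, p1, p2, p3⟩ := exists_path hn hm h
  refine ⟨b, t, p1 _ (SimpleGraph.Walk.start_mem_support P), p1 _ (SimpleGraph.Walk.end_mem_support P),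
    hb, ht, ?_⟩
  clear p1 p2 hb ht
  induction P with
  | nil => exact conn_refl _ _ _
  | cons hadj p ih =>
    rename_i a c d
    have h1 : s(a, c) ∈ ω ∩ edgesIn (rect 0 m 0 n) := p3 _ (by simp)
    have h2 := mem_edgesIn'.mp (mem_inter.mp h1).2
    exact (conn_step h2.1 h2.2.1 h2.2.2 (mem_inter.mp h1).1).trans
      (ih (fun e he => p3 e (by simp [he])))

end Pool.Agent.H95.Perc
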