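import Mathlib
import Pool.Agent.H95.Perc.Dual

/-!
Probability of crossings: symmetry, monotonicity and self-duality.
-/

namespace Pool.Agent.H95.Perc

open Finset Pool.Agent.H95.SumRule

set_option linter.unusedSectionVars false

section
variable {α : Type*} [DecidableEq α]

lemma pr_image_on {β : Type*} [DecidableEq β] {g : α → β} (E : Finset α) (hg : Set.InjOn g E)
    (A : Finset β → Prop) : pr (E.image g) A = pr E (fun ω => A (ω.image g)) := by
  classical
  induction E using Finset.induction_on generalizing A with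
  | empty =>
    rw [image_empty, pr_empty, pr_empty]
    by_cases h : A ∅
    · rw [if_pos h, if_pos (by simpa using h)]
    · rw [if_neg h, if_neg (by simpa using h)]
  | insert e E he ih =>
    have hg' : Set.InjOn g E := hg.mono (by simp)
    have he' : g e ∉ E.image g := by
      intro h; rw [mem_image] at h
      obtain ⟨x, hx, hxe⟩ := h
      have : x = e := hg (by simp [hx]) (by simp) hxe
      exact he (this ▸ hx)
    rw [image_insert, pr_insert he', pr_insert he, ih hg', ih hg']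
    congr 2
    apply pr_congr
    intro ω _
    rw [image_insert]

lemma pr_le_of_subset {S E : Finset α} (h : S ⊆ E) {A : Finset α → Prop} (hA : Inc A) :
    pr S A ≤ pr E A := by
  have h1 : pr S A = pr S (fun ω => A (ω ∩ S)) := pr_congr (fun ω hω => by
    rw [inter_eq_left.mpr hω])
  have h2 : pr E (fun ω => A (ω ∩ S)) = pr S (fun ω => A (ω ∩ S)) :=
    pr_restrict h (fun ω => by rw [inter_assoc, inter_self])
  rw [h1, ← h2]
  exact pr_mono (fun ω _ hh => hA _ _ inter_subset_left hh)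

end

/-- horizontal edge -/
def eh (x y : ℤ) : Sym2 (ℤ × ℤ) := s((x, y), (x + 1, y))
/-- vertical edge -/
def ev (x y : ℤ) : Sym2 (ℤ × ℤ) := s((x, y), (x, y + 1))

/-- sum of the endpoints -/
def sumE : Sym2 (ℤ × ℤ) → ℤ × ℤ := Sym2.lift ⟨fun a b => a + b, fun a b => add_comm a b⟩

lemma sumE_eh (x y : ℤ) : sumE (eh x y) = (2 * x + 1, 2 * y) := by
  simp only [sumE, eh, Sym2.lift_mk, Prod.mk_add_mk]; ext <;> simp only <;> ring

lemma sumE_ev (x y : ℤ) : sumE (ev x y) = (2 * x, 2 * y + 1) := by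
  simp only [sumE, ev, Sym2.lift_mk, Prod.mk_add_mk]; ext <;> simp only <;> ring

/-- shifted dual edge -/
def dmap (e : Sym2 (ℤ × ℤ)) : Sym2 (ℤ × ℤ) :=
  if (sumE e).1 % 2 = 1 then ev ((sumE e).1 / 2 + 1) ((sumE e).2 / 2 - 1)
  else eh ((sumE e).1 / 2) ((sumE e).2 / 2)

lemma dmap_eh (x y : ℤ) : dmap (eh x y) = ev (x + 1) (y - 1) := by
  unfold dmap
  rw [sumE_eh]
  simp only
  rw [if_pos (by omega)]
  congr 1 <;> omega

lemma dmap_ev (x y : ℤ) : dmap (ev x y) = eh x y := by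
  unfold dmap
  rw [sumE_ev]
  simp only
  rw [if_neg (by omega)]
  congr 1 <;> omega

lemma edge_cases {V : Finset (ℤ × ℤ)} {e : Sym2 (ℤ × ℤ)} (he : e ∈ edgesIn V) :
    ∃ x y, e = eh x y ∨ e = ev x y := by
  unfold edgesIn at he
  rw [mem_union, mem_image, mem_image] at he
  rcases he with ⟨v, _, rfl⟩ | ⟨v, _, rfl⟩
  · refine ⟨v.1, v.2, Or.inl ?_⟩
    simp [eh]; ext <;> simp
  · refine ⟨v.1, v.2, Or.inr ?_⟩
    simp [ev]; ext <;> simp

lemma dmap_injOn (V : Finset (ℤ × ℤ)) : Set.InjOn dmap (edgesIn V : Set (Sym2 (ℤ × ℤ))) := by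
  intro e he e' he' h
  obtain ⟨x, y, hxy⟩ := edge_cases (mem_coe.mp he)
  obtain ⟨x', y', hxy'⟩ := edge_cases (mem_coe.mp he')
  have hs := congrArg sumE h
  rcases hxy with rfl | rfl <;> rcases hxy' with rfl | rfl
  · rw [dmap_eh, dmap_eh, sumE_ev, sumE_ev, Prod.mk.injEq] at hs
    rw [show x = x' by omega, show y = y' by omega]
  · rw [dmap_eh, dmap_ev, sumE_ev, sumE_eh, Prod.mk.injEq] at hs
    omega
  · rw [dmap_ev, dmap_eh, sumE_ev, sumE_eh, Prod.mk.injEq] at hs
    omega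
  · rw [dmap_ev, dmap_ev, sumE_eh, sumE_eh, Prod.mk.injEq] at hs
    rw [show x = x' by omega, show y = y' by omega]

/-- left-right crossing of a rectangle -/
def hor (x0 x1 y0 y1 : ℤ) : Finset (Sym2 (ℤ × ℤ)) → Prop :=
  link (rect x0 x1 y0 y1) (fun v => v.1 = x0) (fun v => v.1 = x1)

/-- bottom-top crossing of a rectangle -/
def ver (x0 x1 y0 y1 : ℤ) : Finset (Sym2 (ℤ × ℤ)) → Prop :=
  link (rect x0 x1 y0 y1) (fun v => v.2 = y0) (fun v => v.2 = y1)

/-- crossing probability -/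
noncomputable def hp (a b : ℤ) : ℝ := pr (edgesIn (rect 0 a 0 b)) (hor 0 a 0 b)

lemma pr_link_restrict {V V' : Finset (ℤ × ℤ)} (h : V ⊆ V') (A B : ℤ × ℤ → Prop) :
    pr (edgesIn V') (link V A B) = pr (edgesIn V) (link V A B) :=
  pr_restrict (edgesIn_mono h) (dep_link V A B)

lemma pr_link_act {σ : (ℤ × ℤ) ≃ (ℤ × ℤ)} (hσ : IsAut σ) (V : Finset (ℤ × ℤ))
    (A B : ℤ × ℤ → Prop) : pr (edgesIn (V.image σ)) (link (V.image σ) A B) =
      pr (edgesIn V) (link V (fun v => A (σ v)) (fun v => B (σ v))) := by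
  rw [pr_act hσ]
  exact pr_congr (fun ω _ => link_act hσ)

lemma pr_hor {V : Finset (ℤ × ℤ)} {x0 x1 y0 y1 : ℤ} (h : rect x0 x1 y0 y1 ⊆ V) :
    pr (edgesIn V) (hor x0 x1 y0 y1) = hp (x1 - x0) (y1 - y0) := by
  unfold hor hp
  rw [pr_link_restrict h]
  have h1 : rect x0 x1 y0 y1 = (rect 0 (x1 - x0) 0 (y1 - y0)).image (trans x0 y0) := by
    rw [rect_trans]; congr 1 <;> ring
  rw [h1, pr_link_act (isAut_trans _ _)]
  apply pr_congr
  intro ω _
  constructor
  · intro hh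
    refine hh.mono (Subset.refl _) (fun a _ h2 => ?_) (fun a _ h2 => ?_)
    · simp only [trans, Equiv.coe_fn_mk] at h2; omega
    · simp only [trans, Equiv.coe_fn_mk] at h2; omega
  · intro hh
    refine hh.mono (Subset.refl _) (fun a _ h2 => ?_) (fun a _ h2 => ?_)
    · simp only [trans, Equiv.coe_fn_mk]; omega
    · simp only [trans, Equiv.coe_fn_mk]; omega

lemma pr_ver {V : Finset (ℤ × ℤ)} {x0 x1 y0 y1 : ℤ} (h : rect x0 x1 y0 y1 ⊆ V) :
    pr (edgesIn V) (ver x0 x1 y0 y1) = hp (y1 - y0) (x1 - x0) := by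
  unfold ver
  rw [pr_link_restrict h, ← pr_hor (Subset.refl (rect y0 y1 x0 x1))]
  unfold hor
  rw [← rect_diag, pr_link_act isAut_diag]
  rfl

lemma link.symm' {V : Finset (ℤ × ℤ)} {A B : ℤ × ℤ → Prop} {ω : Finset (Sym2 (ℤ × ℤ))}
    (h : link V A B ω) : link V B A ω := by
  obtain ⟨a, b, ha, hb, hA, hB, hc⟩ := h
  exact ⟨b, a, hb, ha, hB, hA, hc.symm⟩

/-- exit lemma: an open connection inside `V` from a vertex of `V'` to a vertex outside `V'`
gives a vertex of `V'` connected inside `V'` to the start, with a neighbour outside `V'` -/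
lemma conn.exit {V V' : Finset (ℤ × ℤ)} {ω : Finset (Sym2 (ℤ × ℤ))} {x y : ℤ × ℤ}
    (h : conn V ω x y) (hx : x ∈ V) (hx' : x ∈ V') (hy' : y ∉ V') :
    ∃ z w, z ∈ V ∧ z ∈ V' ∧ w ∈ V ∧ w ∉ V' ∧ Z2.Adj z w ∧ s(z, w) ∈ ω ∧
      conn (V ∩ V') ω x z := by
  obtain ⟨p, p1, p2, p3⟩ := h.walk hx
  clear h p2
  induction p with
  | nil => exact absurd hx' hy'
  | cons hadj p ih =>
    rename_i a b c
    by_cases hb : b ∈ V'
    · have hbV : b ∈ V := p1 b (by simp)
      obtain ⟨z, w, h1, h2, h3, h4, h5, h6, h7⟩ := ih hbV hb hy' (fun z hz => p1 z (by simp [hz]))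
        (fun e he => p3 e (by simp [he]))
      refine ⟨z, w, h1, h2, h3, h4, h5, h6, conn.trans ?_ h7⟩
      exact conn_step (mem_inter.mpr ⟨hx, hx'⟩) (mem_inter.mpr ⟨hbV, hb⟩) hadj
        (mem_inter.mp (p3 s(a, b) (by simp))).1
    · exact ⟨a, b, hx, hx', p1 b (by simp), hb, hadj,
        (mem_inter.mp (p3 s(a, b) (by simp))).1, conn_refl _ _ _⟩

/-- dual crossings map to primal crossings -/
lemma cross_of_dual {m n : ℤ} (hm : 0 ≤ m) {ω : Finset (Sym2 (ℤ × ℤ))}
    {ω' : Finset (Sym2 (ℤ × ℤ))}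
    (hω' : ∀ e ∈ ω, dmap e ∈ edgesIn (rect 0 (m + 1) 0 (n - 1)) → dmap e ∈ ω')
    (h : ¬ nodual m n (edgesIn (rect 0 m 0 n) \ ω)) : hor 0 (m + 1) 0 (n - 1) ω' := by
  unfold nodual at h
  push Not at h
  obtain ⟨j, hj1, hj2, hU⟩ := h
  rw [mem_U] at hU
  obtain ⟨hr, ⟨p⟩⟩ := hU
  set V' := rect 0 (m + 1) 0 (n - 1) with hV'
  have key : ∀ {f h : ℤ × ℤ} (p : (dualG m n (edgesIn (rect 0 m 0 n) \ ω)).Walk f h),
      f ∈ rect (-1) m 0 (n - 1) → (∃ l, l ∈ V' ∧ l.1 = 0 ∧ conn V' ω' l (f.1 + 1, f.2)) → h.1 = m →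
      hor 0 (m + 1) 0 (n - 1) ω' := by
    intro f h p
    induction p with
    | nil =>
      rename_i f
      rintro hf ⟨l, hl, hl1, hc⟩ hm
      refine ⟨l, (f.1 + 1, f.2), hl, hc.mem hl, hl1, by simp only; omega, hc⟩
    | cons hadj p ih =>
      rename_i f g h
      rintro hf ⟨l, hl, hl1, hc⟩ hm2
      obtain ⟨h1, h2, h3, h4⟩ := hadj
      by_cases hE : sepE f g ∈ edgesIn (rect 0 m 0 n)
      · apply ih h2 _ hm2
        refine ⟨l, hl, hl1, hc.trans ?_⟩
        have hω2 : sepE f g ∈ ω := by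
          by_contra hh
          exact h4 (mem_inter.mpr ⟨mem_sdiff.mpr ⟨hE, hh⟩, hE⟩)
        have hd : dmap (sepE f g) = s((f.1 + 1, f.2), (g.1 + 1, g.2)) := by
          obtain ⟨a, b⟩ := f
          obtain ⟨c, d⟩ := g
          simp only [Z2, IsUnit2, Prod.fst_sub, Prod.snd_sub] at h3
          rcases h3 with h3 | h3 | h3 | h3
          · obtain ⟨rfl, rfl⟩ : a = c - 1 ∧ d = b := by omega
            rw [sepE_v']
            exact (dmap_ev c d).trans (by unfold eh; rw [show c - 1 + 1 = c by ring])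
          · obtain ⟨rfl, rfl⟩ : b = d - 1 ∧ c = a := by omega
            rw [sepE_h]
            exact (dmap_eh c d).trans (by unfold ev; rw [show d - 1 + 1 = d by ring])
          · obtain ⟨rfl, rfl⟩ : c = a - 1 ∧ d = b := by omega
            rw [sepE_v]
            exact (dmap_ev a d).trans (by unfold eh; rw [show a - 1 + 1 = a by ring, Sym2.eq_swap])
          · obtain ⟨rfl, rfl⟩ : d = b - 1 ∧ c = a := by omega
            rw [sepE_h']
            exact (dmap_eh c b).trans (by unfold ev; rw [show b - 1 + 1 = b by ring, Sym2.eq_swap])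
        have ha : Z2.Adj (f.1 + 1, f.2) (g.1 + 1, g.2) := by
          obtain ⟨a, b⟩ := f
          obtain ⟨c, d⟩ := g
          simp only [Z2, IsUnit2, Prod.fst_sub, Prod.snd_sub] at h3 ⊢
          omega
        have r1 : (f.1 + 1, f.2) ∈ V' := by
          rw [hV', mem_rect]; rw [mem_rect] at h1; simp only; omega
        have r2 : (g.1 + 1, g.2) ∈ V' := by
          rw [hV', mem_rect]; rw [mem_rect] at h2; simp only; omega
        refine conn_step r1 r2 ha ?_
        rw [← hd]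
        apply hω' _ hω2
        rw [hd]
        exact mem_edgesIn'.mpr ⟨r1, r2, ha⟩
      · -- side columns
        have hside : (f.1 = -1 ∧ g.1 = -1) ∨ f.1 = m := by
          obtain ⟨a, b⟩ := f
          obtain ⟨c, d⟩ := g
          simp only [Z2, IsUnit2, Prod.fst_sub, Prod.snd_sub] at h3
          rw [mem_rect] at h1 h2
          simp only at h1 h2 ⊢
          by_contra hcon
          apply hE
          rcases h3 with h3 | h3 | h3 | h3
          · obtain ⟨rfl, rfl⟩ : a = c - 1 ∧ d = b := by omega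
            rw [sepE_v', mem_edgesIn', mem_rect, mem_rect]
            refine ⟨by simp only; omega, by simp only; omega, by simp [Z2, IsUnit2]⟩
          · obtain ⟨rfl, rfl⟩ : b = d - 1 ∧ c = a := by omega
            rw [sepE_h, mem_edgesIn', mem_rect, mem_rect]
            refine ⟨by simp only; omega, by simp only; omega, by simp [Z2, IsUnit2]⟩
          · obtain ⟨rfl, rfl⟩ : c = a - 1 ∧ d = b := by omega
            rw [sepE_v, mem_edgesIn', mem_rect, mem_rect]
            refine ⟨by simp only; omega, by simp only; omega, by simp [Z2, IsUnit2]⟩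
          · obtain ⟨rfl, rfl⟩ : d = b - 1 ∧ c = a := by omega
            rw [sepE_h', mem_edgesIn', mem_rect, mem_rect]
            refine ⟨by simp only; omega, by simp only; omega, by simp [Z2, IsUnit2]⟩
        rcases hside with hs | hs
        · apply ih h2 _ hm2
          refine ⟨(g.1 + 1, g.2), ?_, by simp only; omega, conn_refl _ _ _⟩
          rw [hV', mem_rect]; rw [mem_rect] at h2; simp only; omega
        · exact ⟨l, (f.1 + 1, f.2), hl, hc.mem hl, hl1, by simp only; omega, hc⟩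
  refine key p ?_ ⟨(0, 0), ?_, rfl, ?_⟩ rfl
  · rw [mem_rect]; simp only; omega
  · rw [hV', mem_rect]; simp only; omega
  · exact conn_refl _ _ _

/-- self-duality inequality -/
theorem dual_bound {m n : ℤ} (hm : 0 ≤ m) (hn : 0 < n) : 1 ≤ hp n m + hp (m + 1) (n - 1) := by
  classical
  set E := edgesIn (rect 0 m 0 n) with hE
  set F := edgesIn (rect 0 (m + 1) 0 (n - 1)) with hF
  set S := E.filter (fun e => dmap e ∈ F) with hS
  have h1 : hp n m = pr E (ver 0 m 0 n) := by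
    rw [hE, pr_ver (Subset.refl _)]; congr 1 <;> ring
  have h2 : 1 - hp n m = pr E (fun ω => ¬ ver 0 m 0 n (E \ ω)) := by
    rw [h1, ← pr_compl, pr_flip]
  have h3 : pr E (fun ω => ¬ ver 0 m 0 n (E \ ω))
      ≤ pr E (fun ω => hor 0 (m + 1) 0 (n - 1) ((ω ∩ S).image dmap)) := by
    apply pr_mono
    intro ω hω hh
    apply cross_of_dual hm
    · intro e he hF'
      rw [mem_image]
      exact ⟨e, mem_inter.mpr ⟨he, mem_filter.mpr ⟨hω he, hF'⟩⟩, rfl⟩
    · intro hnd
      exact hh (link_of_nodual hn hm hnd)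
  have h4 : pr E (fun ω => hor 0 (m + 1) 0 (n - 1) ((ω ∩ S).image dmap))
      = pr S (fun ω => hor 0 (m + 1) 0 (n - 1) ((ω ∩ S).image dmap)) :=
    pr_restrict (filter_subset _ _) (fun ω => by rw [inter_assoc, inter_self])
  have h5 : pr S (fun ω => hor 0 (m + 1) 0 (n - 1) ((ω ∩ S).image dmap))
      = pr S (fun ω => hor 0 (m + 1) 0 (n - 1) (ω.image dmap)) :=
    pr_congr (fun ω hω => by rw [inter_eq_left.mpr hω])
  have hinj : Set.InjOn dmap (S : Set (Sym2 (ℤ × ℤ))) :=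
    (dmap_injOn (rect 0 m 0 n)).mono (by
      intro e he
      exact mem_coe.mpr (mem_filter.mp (mem_coe.mp he)).1)
  have h6 : pr S (fun ω => hor 0 (m + 1) 0 (n - 1) (ω.image dmap))
      = pr (S.image dmap) (hor 0 (m + 1) 0 (n - 1)) := (pr_image_on S hinj _).symm
  have h7 : pr (S.image dmap) (hor 0 (m + 1) 0 (n - 1)) ≤ pr F (hor 0 (m + 1) 0 (n - 1)) := by
    apply pr_le_of_subset _ (inc_link _ _ _)
    intro e he
    rw [mem_image] at he
    obtain ⟨e', he', rfl⟩ := he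
    exact (mem_filter.mp he').2
  have h8 : pr F (hor 0 (m + 1) 0 (n - 1)) = hp (m + 1) (n - 1) := rfl
  linarith

/-- crossing a longer rectangle is harder -/
lemma hor_shrink {x0 x1 y0 y1 x0' x1' : ℤ} (h0 : x0 ≤ x0') (h01 : x0' ≤ x1') (h1 : x1' ≤ x1)
    {ω : Finset (Sym2 (ℤ × ℤ))} (h : hor x0 x1 y0 y1 ω) : hor x0' x1' y0 y1 ω := by
  -- first cut the right side
  have step : ∀ {x0 x1 x1' : ℤ}, x0 ≤ x1' → x1' ≤ x1 → hor x0 x1 y0 y1 ω → hor x0 x1' y0 y1 ω := by
    rintro x0 x1 x1' h01 h1 ⟨a, b, ha, hb, ha0, hb1, hc⟩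
    have ha' : a ∈ rect x0 x1' y0 y1 := by rw [mem_rect] at ha ⊢; omega
    by_cases hb' : b ∈ rect x0 x1' y0 y1
    · have hx : x1 = x1' := by rw [mem_rect] at hb'; omega
      subst hx
      exact ⟨a, b, ha, hb, ha0, hb1, hc⟩
    · obtain ⟨z, w, z1, z2, w1, w2, hadj, _, hc'⟩ := hc.exit ha ha' hb'
      refine ⟨a, z, ha', z2, ha0, ?_, hc'.mono inter_subset_right (Subset.refl _)⟩
      have hadj' : IsUnit2 (w - z) := hadj
      simp only [IsUnit2, Prod.fst_sub, Prod.snd_sub] at hadj'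
      rw [mem_rect] at z1 z2 w1 w2
      omega
  have step2 : ∀ {x0 x1 x0' : ℤ}, x0 ≤ x0' → x0' ≤ x1 → hor x0 x1 y0 y1 ω → hor x0' x1 y0 y1 ω := by
    rintro x0 x1 x0' h01 h1 ⟨b, a, hb, ha, hb1, ha0, hc⟩
    have ha' : a ∈ rect x0' x1 y0 y1 := by rw [mem_rect] at ha ⊢; omega
    by_cases hb' : b ∈ rect x0' x1 y0 y1
    · have hx : x0 = x0' := by rw [mem_rect] at hb'; omega
      subst hx
      exact ⟨b, a, hb, ha, hb1, ha0, hc⟩
    · obtain ⟨z, w, z1, z2, w1, w2, hadj, _, hc'⟩ := hc.symm.exit ha ha' hb'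
      refine ⟨z, a, z2, ha', ?_, ha0, (hc'.mono inter_subset_right (Subset.refl _)).symm⟩
      have hadj' : IsUnit2 (w - z) := hadj
      simp only [IsUnit2, Prod.fst_sub, Prod.snd_sub] at hadj'
      rw [mem_rect] at z1 z2 w1 w2
      omega
  exact step2 h0 h01 (step (by omega) h1 h)

lemma hor_mono {x0 x1 y0 y1 y0' y1' : ℤ} (h0 : y0' ≤ y0) (h1 : y1 ≤ y1')
    {ω : Finset (Sym2 (ℤ × ℤ))} (h : hor x0 x1 y0 y1 ω) : hor x0 x1 y0' y1' ω :=
  h.mono (rect_mono le_rfl le_rfl h0 h1) (fun _ _ h => h) (fun _ _ h => h)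

lemma inc_hor (x0 x1 y0 y1 : ℤ) : Inc (hor x0 x1 y0 y1) := inc_link _ _ _
lemma inc_ver (x0 x1 y0 y1 : ℤ) : Inc (ver x0 x1 y0 y1) := inc_link _ _ _

/-- monotonicity of the crossing probability -/
lemma hp_mono {a b a' b' : ℤ} (ha' : 0 ≤ a') (ha : a' ≤ a) (hb : b ≤ b') : hp a b ≤ hp a' b' := by
  have h1 : hp a b = pr (edgesIn (rect 0 (max a a') 0 (max b b'))) (hor 0 a 0 b) := by
    rw [pr_hor (rect_mono le_rfl (le_max_left _ _) le_rfl (le_max_left _ _))]
    congr 1 <;> ring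
  have h2 : hp a' b' = pr (edgesIn (rect 0 (max a a') 0 (max b b'))) (hor 0 a' 0 b') := by
    rw [pr_hor (rect_mono le_rfl (le_max_right _ _) le_rfl (le_max_right _ _))]
    congr 1 <;> ring
  rw [h1, h2]
  apply pr_mono
  intro ω _ h
  exact hor_mono le_rfl hb (hor_shrink le_rfl ha' ha h)

theorem hp_half {n : ℤ} (hn : 0 ≤ n) : 1 / 2 ≤ hp n n := by
  have h1 := dual_bound (m := n) (n := n + 1) hn (by omega)
  rw [show n + 1 - 1 = n by ring] at h1
  have h2 : hp (n + 1) n ≤ hp n n := hp_mono hn (by omega) le_rfl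
  linarith

end Pool.Agent.H95.Perc
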