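import Mathlib
import Pool.Agent.H95.Perc.Duality

/-!
Russo–Seymour–Welsh bounds for critical bond percolation on the square lattice.
-/

namespace Pool.Agent.H95.Perc

open Finset Pool.Agent.H95.SumRule

set_option linter.unusedSectionVars false

/-! ### dependence of the explored set on the configuration -/

lemma sepE_inci {f g v : ℤ × ℤ} (hadj : Z2.Adj f g) (hv : v ∈ sepE f g) : Inci f v := by
  obtain ⟨a, b⟩ := f
  obtain ⟨c, d⟩ := g
  simp only [Z2, IsUnit2, Prod.fst_sub, Prod.snd_sub] at hadj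
  unfold sepE at hv
  simp only at hv
  by_cases h1 : a = c
  · subst h1
    rw [if_pos rfl, Sym2.mem_iff] at hv
    rcases hv with rfl | rfl <;> simp only [Inci] <;> omega
  · rw [if_neg h1, Sym2.mem_iff] at hv
    rcases hv with rfl | rfl <;> simp only [Inci] <;> omega

lemma U_eq_of {m n : ℤ} {ω ω' : Finset (Sym2 (ℤ × ℤ))} {e : Sym2 (ℤ × ℤ)}
    (hagree : ∀ e', e' ≠ e → (e' ∈ ω ↔ e' ∈ ω'))
    (he : ∀ f ∈ U m n ω, ∃ v ∈ e, ¬ Inci f v) : U m n ω = U m n ω' := by
  have hne : ∀ f g, f ∈ U m n ω → Z2.Adj f g → sepE f g ≠ e := by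
    intro f g hf hadj h
    obtain ⟨v, hv, hn⟩ := he f hf
    exact hn (sepE_inci hadj (h ▸ hv))
  have hst : ∀ f g, f ∈ U m n ω → ((dualG m n ω).Adj f g ↔ (dualG m n ω').Adj f g) := by
    intro f g hf
    constructor
    · rintro ⟨h1, h2, h3, h4⟩
      refine ⟨h1, h2, h3, fun h => h4 ?_⟩
      rw [mem_inter] at h ⊢
      exact ⟨(hagree _ (hne f g hf h3)).mpr h.1, h.2⟩
    · rintro ⟨h1, h2, h3, h4⟩
      refine ⟨h1, h2, h3, fun h => h4 ?_⟩
      rw [mem_inter] at h ⊢
      exact ⟨(hagree _ (hne f g hf h3)).mp h.1, h.2⟩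
  ext f
  constructor
  · intro hf
    have hf' := hf
    rw [mem_U] at hf' ⊢
    refine ⟨hf'.1, ?_⟩
    obtain ⟨_, ⟨p⟩⟩ := hf'
    have key : ∀ {a b : ℤ × ℤ} (p : (dualG m n ω).Walk a b), (dualG m n ω).Reachable (-1, 0) a →
        (dualG m n ω').Reachable a b := by
      intro a b p
      induction p with
      | nil => intro _; exact SimpleGraph.Reachable.refl _
      | cons hadj p ih =>
        rename_i a c b
        intro ha
        have hc := ha.trans (SimpleGraph.Adj.reachable hadj)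
        have haU : a ∈ U m n ω := by rw [mem_U]; exact ⟨hadj.1, ha⟩
        exact (SimpleGraph.Adj.reachable ((hst a c haU).mp hadj)).trans (ih hc)
    exact key p (SimpleGraph.Reachable.refl _)
  · intro hf
    rw [mem_U] at hf ⊢
    refine ⟨hf.1, ?_⟩
    obtain ⟨_, ⟨p⟩⟩ := hf
    have key : ∀ {a b : ℤ × ℤ} (p : (dualG m n ω').Walk a b), (dualG m n ω).Reachable (-1, 0) a →
        (dualG m n ω).Reachable (-1, 0) b := by
      intro a b p
      induction p with
      | nil => intro h; exact h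
      | cons hadj p ih =>
        rename_i a c b
        intro ha
        have haU : a ∈ U m n ω := by rw [mem_U]; exact ⟨hadj.1, ha⟩
        exact ih (ha.trans (SimpleGraph.Adj.reachable ((hst a c haU).mpr hadj)))
    exact key p (SimpleGraph.Reachable.refl _)

/-- the event `U = u` does not depend on edges not touching `u` -/
lemma ins_U {m n : ℤ} {u : Finset (ℤ × ℤ)} {e : Sym2 (ℤ × ℤ)}
    (he : ∀ f ∈ u, ∃ v ∈ e, ¬ Inci f v) : Ins (fun ω => U m n ω = u) e := by
  intro ω
  have hag : ∀ e', e' ≠ e → (e' ∈ insert e ω ↔ e' ∈ ω) := by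
    intro e' h
    rw [mem_insert]
    exact ⟨fun h' => h'.resolve_left h, Or.inr⟩
  show U m n (insert e ω) = u ↔ U m n ω = u
  constructor
  · intro h
    rw [← U_eq_of hag (by rw [h]; exact he)]
    exact h
  · intro h
    rw [← U_eq_of (fun e' h' => (hag e' h').symm) (by rw [h]; exact he)]
    exact h

/-! ### the reflected exploration -/

/-- a vertex is touched by `u` or by its reflection in the line `y = n` -/
def touched (n : ℤ) (u : Finset (ℤ × ℤ)) (v : ℤ × ℤ) : Prop :=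
  (∃ f ∈ u, Inci f v) ∨ (∃ f ∈ u, Inci f (v.1, 2 * n - v.2))

lemma touched_refl {n : ℤ} {u : Finset (ℤ × ℤ)} {v : ℤ × ℤ} :
    touched n u (reflY (2 * n) v) ↔ touched n u v := by
  unfold touched
  simp only [reflY, Equiv.coe_fn_mk]
  rw [show 2 * n - (2 * n - v.2) = v.2 by ring, or_comm]

open Classical in
/-- untouched vertices of the square `[0, 2n]²` -/
noncomputable def Rt (n : ℤ) (u : Finset (ℤ × ℤ)) : Finset (ℤ × ℤ) :=
  (rect 0 (2 * n) 0 (2 * n)).filter (fun v => ¬ touched n u v)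

lemma mem_Rt {n : ℤ} {u : Finset (ℤ × ℤ)} {v : ℤ × ℤ} :
    v ∈ Rt n u ↔ v ∈ rect 0 (2 * n) 0 (2 * n) ∧ ¬ touched n u v := by
  classical
  unfold Rt; rw [mem_filter]

lemma Rt_sub {n : ℤ} {u : Finset (ℤ × ℤ)} : Rt n u ⊆ rect 0 (2 * n) 0 (2 * n) :=
  fun _ h => (mem_Rt.mp h).1

/-- some touched vertex satisfying `A` is connected to the right side through untouched vertices -/
def reachR (n : ℤ) (u : Finset (ℤ × ℤ)) (A : ℤ × ℤ → Prop) (ω : Finset (Sym2 (ℤ × ℤ))) : Prop :=
  ∃ z w r, z ∈ rect 0 (2 * n) 0 (2 * n) ∧ touched n u z ∧ A z ∧ w ∈ Rt n u ∧ r ∈ Rt n u ∧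
    r.1 = 2 * n ∧ Z2.Adj z w ∧ s(z, w) ∈ ω ∧ conn (Rt n u) ω w r

lemma Rt_image {n : ℤ} {u : Finset (ℤ × ℤ)} : (Rt n u).image (reflY (2 * n)) = Rt n u := by
  ext v
  rw [mem_image_equiv, mem_Rt, mem_Rt]
  have h : (reflY (2 * n)).symm v = reflY (2 * n) v := rfl
  rw [h, touched_refl]
  have h2 : reflY (2 * n) v ∈ rect 0 (2 * n) 0 (2 * n) ↔ v ∈ rect 0 (2 * n) 0 (2 * n) := by
    rw [mem_rect, mem_rect]; simp only [reflY, Equiv.coe_fn_mk]; omega
  rw [h2]

lemma reachR_high_low {n : ℤ} {u : Finset (ℤ × ℤ)} :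
    pr (edgesIn (rect 0 (2 * n) 0 (2 * n))) (reachR n u (fun z => n ≤ z.2))
      ≤ pr (edgesIn (rect 0 (2 * n) 0 (2 * n))) (reachR n u (fun z => z.2 ≤ n)) := by
  have h1 : (rect 0 (2 * n) 0 (2 * n)).image (reflY (2 * n)) = rect 0 (2 * n) 0 (2 * n) := by
    rw [rect_reflY]; congr 1 <;> ring
  have h2 := pr_act (isAut_reflY (2 * n)) (rect 0 (2 * n) 0 (2 * n)) (reachR n u (fun z => n ≤ z.2))
  rw [h1] at h2
  rw [h2]
  apply pr_mono
  rintro ω _ ⟨z, w, r, h1, h2, h3, h4, h5, h6, h7, h8, h9⟩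
  obtain ⟨z, rfl⟩ := (reflY (2 * n)).surjective z
  obtain ⟨w, rfl⟩ := (reflY (2 * n)).surjective w
  obtain ⟨r, rfl⟩ := (reflY (2 * n)).surjective r
  rw [mem_act] at h8
  rw [touched_refl] at h2
  rw [isAut_reflY] at h7
  rw [← Rt_image, mem_image_equiv, Equiv.symm_apply_apply] at h4 h5
  rw [← Rt_image, conn_act (isAut_reflY _)] at h9
  simp only [reflY, Equiv.coe_fn_mk] at h1 h3 h6
  refine ⟨z, w, r, ?_, h2, by omega, h4, h5, h6, h7, h8, h9⟩
  rw [mem_rect] at h1 ⊢
  simp only at h1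
  omega

lemma ins_reachR {n : ℤ} {u : Finset (ℤ × ℤ)} {A : ℤ × ℤ → Prop} {e : Sym2 (ℤ × ℤ)}
    (he : ∀ v ∈ e, touched n u v) : Ins (reachR n u A) e := by
  intro ω
  have hc : ∀ w r, conn (Rt n u) (insert e ω) w r ↔ conn (Rt n u) ω w r := by
    intro w r
    unfold conn
    rw [insert_inter_of_notMem]
    intro h
    induction e with
    | _ x y =>
      have := (mem_edgesIn'.mp h).1
      rw [mem_Rt] at this
      exact this.2 (he x (by simp))
  constructor
  · rintro ⟨z, w, r, h1, h2, h3, h4, h5, h6, h7, h8, h9⟩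
    refine ⟨z, w, r, h1, h2, h3, h4, h5, h6, h7, ?_, (hc _ _).mp h9⟩
    rw [mem_insert] at h8
    refine h8.resolve_left ?_
    rintro rfl
    exact (mem_Rt.mp h4).2 (he w (by simp))
  · rintro ⟨z, w, r, h1, h2, h3, h4, h5, h6, h7, h8, h9⟩
    exact ⟨z, w, r, h1, h2, h3, h4, h5, h6, h7, mem_insert_of_mem h8, (hc _ _).mpr h9⟩

lemma reachR_of_hor {n : ℤ} {u : Finset (ℤ × ℤ)}
    (hl : ∀ j, 0 ≤ j → j < n → ((-1, j) : ℤ × ℤ) ∈ u)
    (hr : ∀ f ∈ u, f.1 + 1 < 2 * n) (hn : 0 < n) {ω : Finset (Sym2 (ℤ × ℤ))}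
    (h : hor 0 (2 * n) 0 (2 * n) ω) :
    reachR n u (fun z => z.2 ≤ n) ω ∨ reachR n u (fun z => n ≤ z.2) ω := by
  obtain ⟨a, b, ha, hb, ha1, hb1, hc⟩ := h
  have ha2 : touched n u a := by
    rw [mem_rect] at ha
    by_cases h : a.2 < n
    · exact Or.inl ⟨(-1, a.2), hl a.2 (by omega) h, by simp only [Inci]; omega⟩
    · by_cases h' : a.2 = 2 * n
      · exact Or.inr ⟨(-1, 0), hl 0 le_rfl hn, by simp only [Inci]; omega⟩
      · exact Or.inr ⟨(-1, 2 * n - a.2 - 1), hl _ (by omega) (by omega), by simp only [Inci]; omega⟩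
  have hb2 : ¬ touched n u b := by
    rintro (⟨f, hf, hi⟩ | ⟨f, hf, hi⟩)
    · have := hr f hf
      simp only [Inci] at hi
      omega
    · have := hr f hf
      simp only [Inci] at hi
      omega
  obtain ⟨w, z, h1, h2, h3, h4, h5, h6, h7⟩ := hc.symm.exit hb (mem_Rt.mpr ⟨hb, hb2⟩)
    (fun h => (mem_Rt.mp h).2 ha2)
  have hz : touched n u z := by
    by_contra h
    exact h4 (mem_Rt.mpr ⟨h3, h⟩)
  have hc' : conn (Rt n u) ω w b := (h7.mono inter_subset_right (Subset.refl _)).symm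
  rcases le_total z.2 n with h | h
  · exact Or.inl ⟨z, w, b, h3, hz, h, h2, mem_Rt.mpr ⟨hb, hb2⟩, hb1, h5.symm,
      by rwa [Sym2.eq_swap], hc'⟩
  · exact Or.inr ⟨z, w, b, h3, hz, h, h2, mem_Rt.mpr ⟨hb, hb2⟩, hb1, h5.symm,
      by rwa [Sym2.eq_swap], hc'⟩

lemma pr_reachR {n : ℤ} {u : Finset (ℤ × ℤ)}
    (hl : ∀ j, 0 ≤ j → j < n → ((-1, j) : ℤ × ℤ) ∈ u)
    (hr : ∀ f ∈ u, f.1 + 1 < 2 * n) (hn : 0 < n) :
    hp (2 * n) (2 * n) / 2 ≤ pr (edgesIn (rect 0 (2 * n) 0 (2 * n))) (reachR n u (fun z => z.2 ≤ n)) := by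
  have h1 : hp (2 * n) (2 * n) ≤ pr (edgesIn (rect 0 (2 * n) 0 (2 * n)))
      (fun ω => reachR n u (fun z => z.2 ≤ n) ω ∨ reachR n u (fun z => n ≤ z.2) ω) :=
    pr_mono (fun ω _ h => reachR_of_hor hl hr hn h)
  have h2 := pr_or_le (edgesIn (rect 0 (2 * n) 0 (2 * n))) (reachR n u (fun z => z.2 ≤ n))
    (reachR n u (fun z => n ≤ z.2))
  have h3 := reachR_high_low (n := n) (u := u)
  linarith

/-! ### the event X -/

/-- some vertex is connected in `S` to `A` and to `B`, and in `R` to `C` -/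
def evX (S R : Finset (ℤ × ℤ)) (A B C : ℤ × ℤ → Prop) (ω : Finset (Sym2 (ℤ × ℤ))) : Prop :=
  ∃ v b t r, v ∈ S ∧ b ∈ S ∧ t ∈ S ∧ r ∈ R ∧ A b ∧ B t ∧ C r ∧ conn S ω v b ∧ conn S ω v t ∧
    conn R ω v r

lemma inc_evX (S R : Finset (ℤ × ℤ)) (A B C : ℤ × ℤ → Prop) : Inc (evX S R A B C) := by
  rintro ω ω' hs ⟨v, b, t, r, h1, h2, h3, h4, h5, h6, h7, h8, h9, h10⟩
  exact ⟨v, b, t, r, h1, h2, h3, h4, h5, h6, h7, h8.mono (Subset.refl _) hs,
    h9.mono (Subset.refl _) hs, h10.mono (Subset.refl _) hs⟩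

lemma dep_evX {S R : Finset (ℤ × ℤ)} (hSR : S ⊆ R) (A B C : ℤ × ℤ → Prop) :
    Dep (edgesIn R) (evX S R A B C) := by
  intro ω
  have h1 : ∀ x y, conn S ω x y ↔ conn S (ω ∩ edgesIn R) x y :=
    fun x y => ((dep_conn S x y).mono (edgesIn_mono hSR)) ω
  have h2 : ∀ x y, conn R ω x y ↔ conn R (ω ∩ edgesIn R) x y := fun x y => dep_conn R x y ω
  unfold evX
  simp only [← h1, ← h2]

lemma conn_of_walk {V : Finset (ℤ × ℤ)} {ω : Finset (Sym2 (ℤ × ℤ))} {s t : ℤ × ℤ}
    (P : Z2.Walk s t) (he : ∀ e ∈ P.edges, e ∈ ω ∩ edgesIn V) : ∀ z ∈ P.support, conn V ω s z := by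
  induction P with
  | nil => intro z hz; simp at hz; rw [hz]; exact conn_refl _ _ _
  | cons hadj p ih =>
    rename_i a b c
    intro z hz
    rw [SimpleGraph.Walk.support_cons, List.mem_cons] at hz
    rcases hz with rfl | hz
    · exact conn_refl _ _ _
    · have h1 : s(a, b) ∈ ω ∩ edgesIn V := he _ (by simp)
      have h2 := mem_edgesIn'.mp (mem_inter.mp h1).2
      exact (conn_step h2.1 h2.2.1 h2.2.2 (mem_inter.mp h1).1).trans
        (ih (fun e h => he e (by simp [h])) z hz)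

/-- the reflection as a graph homomorphism -/
def reflHom (c : ℤ) : Z2 →g Z2 where
  toFun := reflY c
  map_rel' := fun h => (isAut_reflY c _ _).mpr h

/-- the key geometric claim -/
theorem evX_of {n : ℤ} (hn : 0 < n) {ω : Finset (Sym2 (ℤ × ℤ))} (hnd : nodual n n ω)
    (hr : reachR n (U n n ω) (fun z => z.2 ≤ n) ω) :
    evX (rect 0 n 0 n) (rect 0 (2 * n) 0 (2 * n)) (fun v => v.2 = 0) (fun v => v.2 = n)
      (fun v => v.1 = 2 * n) ω := by
  obtain ⟨b, t, P, hb, ht, p1, p2, p3⟩ := exists_path hn hn.le hnd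
  obtain ⟨z, w, r, hz, hzt, hzn, hw, hr1, hr2, hadj, ho, hc⟩ := hr
  have hUc : ∀ f ∈ U n n ω, f.1 < n ∧ f.2 ≤ n - 1 ∧ 0 ≤ f.2 := by
    intro f hf
    have hf' := hf
    rw [mem_U, mem_rect] at hf'
    refine ⟨?_, by omega, by omega⟩
    by_contra h
    have : f = (n, f.2) := by ext <;> simp only; omega
    exact hnd f.2 (by omega) (by omega) (this ▸ hf)
  -- a face of U incident to z
  obtain ⟨f, hf, hfz⟩ : ∃ f ∈ U n n ω, Inci f z := by
    rcases hzt with h | ⟨f, hf, hi⟩
    · exact h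
    · refine ⟨f, hf, ?_⟩
      have := hUc f hf
      simp only [Inci] at hi ⊢
      omega
  have hst : reflHom (2 * n) t = t := by
    show reflY (2 * n) t = t
    simp only [reflY, Equiv.coe_fn_mk]
    ext <;> simp only; omega
  set P' : Z2.Walk t (reflHom (2 * n) b) := (P.map (reflHom (2 * n))).reverse.copy hst rfl with hP'
  set Q := P.append P' with hQ
  have supP' : ∀ v, v ∈ P'.support → ∃ v' ∈ P.support, v = (v'.1, 2 * n - v'.2) := by
    intro v hv
    rw [hP', SimpleGraph.Walk.support_copy, SimpleGraph.Walk.support_reverse, List.mem_reverse,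
      SimpleGraph.Walk.support_map, List.mem_map] at hv
    obtain ⟨v', h1, h2⟩ := hv
    exact ⟨v', h1, h2.symm⟩
  have supQ : ∀ v, v ∈ Q.support → v ∈ P.support ∨ v ∈ P'.support := by
    intro v hv
    exact (SimpleGraph.Walk.mem_support_append_iff _ _).mp hv
  have touchQ : ∀ v ∈ Q.support, touched n (U n n ω) v := by
    intro v hv
    rcases supQ v hv with h | h
    · exact Or.inl (p2 v h)
    · obtain ⟨v', h1, rfl⟩ := supP' v h
      right
      simp only
      rw [show 2 * n - (2 * n - v'.2) = v'.2 by ring]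
      exact p2 v' h1
  have rectQ : ∀ v ∈ Q.support, 0 ≤ v.1 ∧ v.1 ≤ n := by
    intro v hv
    rcases supQ v hv with h | h
    · have := p1 v h; rw [mem_rect] at this; omega
    · obtain ⟨v', h1, rfl⟩ := supP' v h
      have := p1 v' h1; rw [mem_rect] at this; simp only; omega
  have hzP : z ∈ P.support := by
    by_contra hcon
    have hzQ : z ∉ Q.support := by
      intro h
      rcases supQ z h with h | h
      · exact hcon h
      · obtain ⟨v', h1, h2⟩ := supP' z h
        have h3 := p1 v' h1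
        rw [mem_rect] at h3
        have h4 : z = v' := by
          have h5 := congrArg Prod.fst h2
          have h6 := congrArg Prod.snd h2
          simp only at h5 h6 hzn
          ext <;> omega
        exact hcon (h4 ▸ h1)
    have end2 : (reflHom (2 * n) b).2 = 2 * n := by
      show (reflY (2 * n) b).2 = 2 * n
      simp only [reflY, Equiv.coe_fn_mk]; omega
    have hQU : wsum (Hf f.1 f.2) Q = 0 := by
      apply height_U Q hb end2 (by omega) (fun v hv => (rectQ v hv).1) _ hf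
      intro f g hfg
      apply wsum_Xe_edges
      intro he
      rw [hQ, SimpleGraph.Walk.edges_append, List.mem_append] at he
      rcases he with he | he
      · exact hfg.2.2.2 (p3 _ he)
      · have hlow : ∃ v ∈ sepE f g, v.2 ≤ n - 1 := by
          have h1 := hfg.1
          have h2 := hfg.2.1
          rw [mem_rect] at h1 h2
          unfold sepE
          split_ifs
          · exact ⟨_, Sym2.mem_mk_left _ _, by simp only; omega⟩
          · exact ⟨_, Sym2.mem_mk_left _ _, by simp only; omega⟩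
        obtain ⟨v, hv, hv2⟩ := hlow
        have hv3 : v ∈ P'.support := SimpleGraph.Walk.mem_support_of_mem_edges he hv
        obtain ⟨v', h1, rfl⟩ := supP' v hv3
        have := p1 v' h1
        rw [mem_rect] at this
        simp only at hv2
        omega
    obtain ⟨Q0, q1, _, _⟩ := hc.walk hw
    have hr1' := mem_Rt.mp hr1
    have hw' := mem_Rt.mp hw
    rw [mem_rect] at hr1' hw' hz
    obtain ⟨j, hj⟩ : ∃ j, r.2 - 1 ≤ j ∧ j ≤ r.2 ∧ 0 ≤ j ∧ j < 2 * n := by
      by_cases h : r.2 < 2 * n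
      · exact ⟨r.2, by omega⟩
      · exact ⟨r.2 - 1, by omega⟩
    have hfU := hUc f hf
    have := cross_const Q hb end2 (by omega) (SimpleGraph.Walk.cons hadj Q0)
      (fun v hv => by
        rw [SimpleGraph.Walk.support_cons, List.mem_cons] at hv
        rcases hv with rfl | hv
        · omega
        · have := (mem_Rt.mp (q1 v hv)).1
          rw [mem_rect] at this; omega)
      (fun v hv h => by
        rw [SimpleGraph.Walk.support_cons, List.mem_cons] at hv
        rcases hv with rfl | hv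
        · exact hzQ h
        · exact (mem_Rt.mp (q1 v hv)).2 (touchQ v h)) (f := f) (g := (2 * n, j)) hfz
      (by simp only [Inci]; omega) (by omega) (by omega) (by simp only; omega) (by simp only; omega)
    simp only at this
    rw [hQU, height_total Q (fun v hv => by have := rectQ v hv; omega), if_pos (by omega),
      if_neg (by omega), add_zero] at this
    exact zero_ne_one this
  have hcz : conn (rect 0 n 0 n) ω b z := conn_of_walk P p3 z hzP
  have hct : conn (rect 0 n 0 n) ω b t := conn_of_walk P p3 t (SimpleGraph.Walk.end_mem_support P)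
  have hwR := (mem_Rt.mp hw).1
  refine ⟨z, b, t, r, p1 z hzP, p1 b (SimpleGraph.Walk.start_mem_support P),
    p1 t (SimpleGraph.Walk.end_mem_support P), (mem_Rt.mp hr1).1, hb, ht, hr2, hcz.symm,
    hcz.symm.trans hct, ?_⟩
  exact (conn_step hz hwR hadj ho).trans (hc.mono Rt_sub (Subset.refl _))

theorem pr_evX {n : ℤ} (hn : 0 < n) :
    1 / 8 ≤ pr (edgesIn (rect 0 (2 * n) 0 (2 * n)))
      (evX (rect 0 n 0 n) (rect 0 (2 * n) 0 (2 * n)) (fun v => v.2 = 0) (fun v => v.2 = n)
      (fun v => v.1 = 2 * n)) := by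
  classical
  set E := edgesIn (rect 0 (2 * n) 0 (2 * n)) with hE
  set X := evX (rect 0 n 0 n) (rect 0 (2 * n) 0 (2 * n)) (fun v => v.2 = 0) (fun v => v.2 = n)
      (fun v => v.1 = 2 * n) with hX
  set B := (rect (-1) n 0 (n - 1)).powerset with hB
  have hUB : ∀ ω, U n n ω ∈ B := by
    intro ω
    rw [hB, mem_powerset]
    intro f hf
    exact (mem_U.mp hf).1
  have hdep : ∀ ω, ver 0 n 0 n ω ↔ nodual n n ω := fun ω =>
    ⟨nodual_of_link, link_of_nodual hn hn.le⟩
  have h1 : pr E (ver 0 n 0 n) = hp n n := by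
    rw [hE, pr_ver (rect_mono le_rfl (by omega) le_rfl (by omega))]; congr 1 <;> ring
  have h2 : pr E (ver 0 n 0 n) = pr E (nodual n n) := pr_congr (fun ω _ => hdep ω)
  have h3 : pr E (nodual n n) = ∑ u ∈ B, pr E (fun ω => nodual n n ω ∧ U n n ω = u) :=
    pr_partition E _ (fun ω => U n n ω) B (fun ω _ _ => hUB ω)
  have h4 : pr E X = ∑ u ∈ B, pr E (fun ω => X ω ∧ U n n ω = u) :=
    pr_partition E _ (fun ω => U n n ω) B (fun ω _ _ => hUB ω)
  have key : ∀ u ∈ B, pr E (fun ω => nodual n n ω ∧ U n n ω = u) * (hp (2 * n) (2 * n) / 2)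
      ≤ pr E (fun ω => X ω ∧ U n n ω = u) := by
    intro u hu
    by_cases hgood : (∀ j, 0 ≤ j → j < n → ((-1, j) : ℤ × ℤ) ∈ u) ∧
        (∀ j, 0 ≤ j → j < n → ((n, j) : ℤ × ℤ) ∉ u)
    · obtain ⟨hl, hr⟩ := hgood
      have hr' : ∀ f ∈ u, f.1 + 1 < 2 * n := by
        intro f hf
        have hf' : f ∈ rect (-1) n 0 (n - 1) := (mem_powerset.mp hu) hf
        rw [mem_rect] at hf'
        by_contra h
        have : f = (n, f.2) := by ext <;> simp only; omega
        exact hr f.2 (by omega) (by omega) (this ▸ hf)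
      have e1 : pr E (fun ω => nodual n n ω ∧ U n n ω = u) = pr E (fun ω => U n n ω = u) := by
        apply pr_congr
        intro ω _
        constructor
        · exact fun h => h.2
        · intro h
          refine ⟨?_, h⟩
          intro j h1 h2
          rw [h]; exact hr j h1 h2
      have e2 : pr E (fun ω => U n n ω = u ∧ reachR n u (fun z => z.2 ≤ n) ω)
          = pr E (fun ω => U n n ω = u) * pr E (reachR n u (fun z => z.2 ≤ n)) := by
        apply indep
        intro e _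
        by_cases he : ∀ v ∈ e, touched n u v
        · exact Or.inr (ins_reachR he)
        · left
          apply ins_U
          intro f hf
          push Not at he
          obtain ⟨v, hv, hnv⟩ := he
          exact ⟨v, hv, fun hi => hnv (Or.inl ⟨f, hf, hi⟩)⟩
      have e3 := pr_reachR hl hr' hn
      rw [e1]
      calc pr E (fun ω => U n n ω = u) * (hp (2 * n) (2 * n) / 2)
          ≤ pr E (fun ω => U n n ω = u) * pr E (reachR n u (fun z => z.2 ≤ n)) :=
            mul_le_mul_of_nonneg_left e3 (pr_nonneg _ _)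
        _ = _ := e2.symm
        _ ≤ _ := by
            apply pr_mono
            rintro ω _ ⟨h1, h2⟩
            refine ⟨evX_of hn ?_ (by rw [h1]; exact h2), h1⟩
            intro j h3 h4
            rw [h1]; exact hr j h3 h4
    · have e1 : pr E (fun ω => nodual n n ω ∧ U n n ω = u) = 0 := by
        rw [← pr_false E]
        apply pr_congr
        intro ω _
        constructor
        · rintro ⟨h1, h2⟩
          apply hgood
          subst h2
          exact ⟨fun j h3 h4 => U_left hn.le j h3 h4, h1⟩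
        · exact fun h => h.elim
      rw [e1, zero_mul]
      exact pr_nonneg _ _
  have h5 := sum_le_sum key
  rw [← sum_mul, ← h3, ← h4, ← h2, h1] at h5
  have h6 := hp_half hn.le
  have h7 := hp_half (n := 2 * n) (by omega)
  nlinarith [mul_nonneg (sub_nonneg.mpr h6) (sub_nonneg.mpr h7)]

end Pool.Agent.H95.Perc
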