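import Mathlib
import Pool.Agent.H95.Perc.RSW

/-!
Crossings of long rectangles.
-/

namespace Pool.Agent.H95.Perc

open Finset Pool.Agent.H95.SumRule

set_option linter.unusedSectionVars false

/-- crossing connections of a rectangle are connected to each other -/
lemma conn_cross {x0 x1 y0 y1 : ℤ} (hy : y0 < y1) {ω : Finset (Sym2 (ℤ × ℤ))} {b t l r : ℤ × ℤ}
    (hb : b ∈ rect x0 x1 y0 y1) (hl : l ∈ rect x0 x1 y0 y1) (hb2 : b.2 = y0) (ht2 : t.2 = y1)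
    (hl1 : l.1 = x0) (hr1 : r.1 = x1) (h1 : conn (rect x0 x1 y0 y1) ω b t)
    (h2 : conn (rect x0 x1 y0 y1) ω l r) : conn (rect x0 x1 y0 y1) ω b l := by
  obtain ⟨P, p1, p2, _⟩ := h1.walk hb
  obtain ⟨Q, q1, q2, _⟩ := h2.walk hl
  obtain ⟨z, hz1, hz2⟩ := cross_BT_LR hy P Q p1 q1 hb2 ht2 hl1 hr1
  exact (p2 z hz1).trans (q2 z hz2).symm

/-- gluing two horizontal crossings by a vertical one -/
lemma hor_glue {x0 x1 x2 x3 y0 y1 : ℤ} (h01 : x0 ≤ x1) (h12 : x1 ≤ x2) (h23 : x2 ≤ x3)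
    (hy : y0 < y1) {ω : Finset (Sym2 (ℤ × ℤ))} (h1 : hor x0 x2 y0 y1 ω) (h2 : hor x1 x3 y0 y1 ω)
    (h3 : ver x1 x2 y0 y1 ω) : hor x0 x3 y0 y1 ω := by
  obtain ⟨a, b, ha, hb, ha1, hb1, hab⟩ := h1
  obtain ⟨c, d, hc, hd, hc1, hd1, hcd⟩ := h2
  obtain ⟨s, t, hs, ht, hs2, ht2, hst⟩ := h3
  -- b is connected to the left side of the middle rectangle
  have hb' : b ∈ rect x1 x2 y0 y1 := by rw [mem_rect] at hb ⊢; omega
  have hc' : c ∈ rect x1 x2 y0 y1 := by rw [mem_rect] at hc ⊢; omega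
  have k1 : conn (rect x1 x2 y0 y1) ω s b := by
    obtain ⟨z, hz, hz1, hbz⟩ : ∃ z, z ∈ rect x1 x2 y0 y1 ∧ z.1 = x1 ∧
        conn (rect x1 x2 y0 y1) ω b z := by
      by_cases ha' : a ∈ rect x1 x2 y0 y1
      · have hx : x0 = x1 := by rw [mem_rect] at ha'; omega
        subst hx
        exact ⟨a, ha', ha1, hab.symm⟩
      · obtain ⟨z, w, z1, z2, w1, w2, hadj, _, hc'⟩ := hab.symm.exit hb hb' ha'
        refine ⟨z, z2, ?_, hc'.mono inter_subset_right (Subset.refl _)⟩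
        have hadj' : IsUnit2 (w - z) := hadj
        simp only [IsUnit2, Prod.fst_sub, Prod.snd_sub] at hadj'
        rw [mem_rect] at z1 z2 w1 w2
        omega
    exact (conn_cross hy hs hz hs2 ht2 hz1 hb1 hst hbz.symm).trans hbz.symm
  have k2 : conn (rect x1 x2 y0 y1) ω s c := by
    obtain ⟨z, hz, hz1, hcz⟩ : ∃ z, z ∈ rect x1 x2 y0 y1 ∧ z.1 = x2 ∧
        conn (rect x1 x2 y0 y1) ω c z := by
      by_cases hd' : d ∈ rect x1 x2 y0 y1
      · have hx : x3 = x2 := by rw [mem_rect] at hd'; omega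
        subst hx
        exact ⟨d, hd', hd1, hcd⟩
      · obtain ⟨z, w, z1, z2, w1, w2, hadj, _, hc2⟩ := hcd.exit hc hc' hd'
        refine ⟨z, z2, ?_, hc2.mono inter_subset_right (Subset.refl _)⟩
        have hadj' : IsUnit2 (w - z) := hadj
        simp only [IsUnit2, Prod.fst_sub, Prod.snd_sub] at hadj'
        rw [mem_rect] at z1 z2 w1 w2
        omega
    exact conn_cross hy hs hc' hs2 ht2 hc1 hz1 hst hcz
  refine ⟨a, d, ?_, ?_, ha1, hd1, ?_⟩
  · rw [mem_rect] at ha ⊢; omega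
  · rw [mem_rect] at hd ⊢; omega
  · exact (hab.mono (rect_mono le_rfl h23 le_rfl le_rfl) (Subset.refl _)).trans
      ((((k1.symm).trans k2).mono (rect_mono h01 h23 le_rfl le_rfl) (Subset.refl _)).trans
      (hcd.mono (rect_mono h01 le_rfl le_rfl le_rfl) (Subset.refl _)))

lemma pr_hor_glue {a b c y : ℤ} (ha : 0 ≤ a) (hb : 0 ≤ b) (hc : 0 ≤ c) (hy : 0 < y) :
    hp (a + b) y * hp (b + c) y * hp y b ≤ hp (a + b + c) y := by
  set E := edgesIn (rect 0 (a + b + c) 0 y) with hE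
  have e1 : pr E (hor 0 (a + b) 0 y) = hp (a + b) y := by
    rw [hE, pr_hor (rect_mono le_rfl (by omega) le_rfl le_rfl)]; congr 1 <;> ring
  have e2 : pr E (hor a (a + b + c) 0 y) = hp (b + c) y := by
    rw [hE, pr_hor (rect_mono ha (by omega) le_rfl le_rfl)]; congr 1 <;> ring
  have e3 : pr E (ver a (a + b) 0 y) = hp y b := by
    rw [hE, pr_ver (rect_mono ha (by omega) le_rfl le_rfl)]; congr 1 <;> ring
  have e4 : pr E (hor 0 (a + b + c) 0 y) = hp (a + b + c) y := rfl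
  have h1 := harris (inc_hor 0 (a + b) 0 y) (inc_hor a (a + b + c) 0 y) E
  have h2 := harris ((inc_hor 0 (a + b) 0 y).and (inc_hor a (a + b + c) 0 y))
    (inc_ver a (a + b) 0 y) E
  have h3 : pr E (fun ω => (hor 0 (a + b) 0 y ω ∧ hor a (a + b + c) 0 y ω) ∧ ver a (a + b) 0 y ω)
      ≤ pr E (hor 0 (a + b + c) 0 y) :=
    pr_mono (fun ω _ h => hor_glue ha (by omega) (by omega) hy h.1.1 h.1.2 h.2)
  rw [e1, e2] at h1
  rw [e3] at h2
  rw [e4] at h3
  have h4 : 0 ≤ hp y b := pr_nonneg _ _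
  calc hp (a + b) y * hp (b + c) y * hp y b
      ≤ pr E (fun ω => hor 0 (a + b) 0 y ω ∧ hor a (a + b + c) 0 y ω) * hp y b :=
        mul_le_mul_of_nonneg_right h1 h4
    _ ≤ _ := h2
    _ ≤ _ := h3

lemma evX_act {σ : (ℤ × ℤ) ≃ (ℤ × ℤ)} (hσ : IsAut σ) {S R : Finset (ℤ × ℤ)}
    {A B C : ℤ × ℤ → Prop} {ω : Finset (Sym2 (ℤ × ℤ))}
    (h : evX S R (fun v => A (σ v)) (fun v => B (σ v)) (fun v => C (σ v)) ω) :
    evX (S.image σ) (R.image σ) A B C (act σ ω) := by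
  obtain ⟨v, b, t, r, h1, h2, h3, h4, h5, h6, h7, h8, h9, h10⟩ := h
  exact ⟨σ v, σ b, σ t, σ r, mem_image_of_mem _ h1, mem_image_of_mem _ h2, mem_image_of_mem _ h3,
    mem_image_of_mem _ h4, h5, h6, h7, (conn_act hσ).mpr h8, (conn_act hσ).mpr h9,
    (conn_act hσ).mpr h10⟩

theorem hp_three {n : ℤ} (hn : 0 < n) : 1 / 2 ^ 7 ≤ hp (3 * n) (2 * n) := by
  set V := rect (-n) (2 * n) 0 (2 * n) with hV
  set E := edgesIn V with hE
  set X1 := evX (rect 0 n 0 n) (rect 0 (2 * n) 0 (2 * n)) (fun v => v.2 = 0) (fun v => v.2 = n)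
      (fun v => v.1 = 2 * n) with hX1
  set X2 := evX (rect 0 n 0 n) (rect (-n) n 0 (2 * n)) (fun v => v.2 = 0) (fun v => v.2 = n)
      (fun v => v.1 = -n) with hX2
  have sub1 : rect 0 (2 * n) 0 (2 * n) ⊆ V := rect_mono (by omega) le_rfl le_rfl le_rfl
  have sub2 : rect 0 n 0 n ⊆ V := rect_mono (by omega) (by omega) le_rfl (by omega)
  have sub3 : rect (-n) n 0 (2 * n) ⊆ V := rect_mono le_rfl (by omega) le_rfl le_rfl
  have p1 : 1 / 8 ≤ pr E X1 := by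
    have h1 : pr E X1 = pr (edgesIn (rect 0 (2 * n) 0 (2 * n))) X1 :=
      pr_restrict (edgesIn_mono sub1) (dep_evX (rect_mono le_rfl (by omega) le_rfl (by omega)) _ _ _)
    rw [h1]
    exact pr_evX hn
  have p2 : 1 / 8 ≤ pr E X2 := by
    have hVs : V.image (reflX n) = V := by
      rw [hV, rect_reflX]; congr 1 <;> ring
    have h1 : pr E X2 = pr E (fun ω => X2 (act (reflX n) ω)) := by
      have := pr_act (isAut_reflX n) V X2
      rwa [hVs] at this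
    rw [h1]
    refine p1.trans (pr_mono ?_)
    intro ω _ h
    have e1 : (rect 0 n 0 n).image (reflX n) = rect 0 n 0 n := by
      rw [rect_reflX]; congr 1 <;> ring
    have e2 : (rect 0 (2 * n) 0 (2 * n)).image (reflX n) = rect (-n) n 0 (2 * n) := by
      rw [rect_reflX]; congr 1 <;> ring
    rw [hX2]
    conv => arg 1; rw [← e1]
    conv => arg 2; rw [← e2]
    apply evX_act (isAut_reflX n)
    obtain ⟨v, b, t, r, h1, h2, h3, h4, h5, h6, h7, h8, h9, h10⟩ := h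
    refine ⟨v, b, t, r, h1, h2, h3, h4, h5, h6, ?_, h8, h9, h10⟩
    simp only [reflX, Equiv.coe_fn_mk]; omega
  have p3 : 1 / 2 ≤ pr E (hor 0 n 0 n) := by
    rw [hE, pr_hor sub2, show n - 0 = n by ring]
    exact hp_half hn.le
  have p4 : pr E (hor (-n) (2 * n) 0 (2 * n)) = hp (3 * n) (2 * n) := by
    rw [hE, pr_hor (Subset.refl _)]; congr 1 <;> ring
  have i1 := harris (inc_evX (rect 0 n 0 n) (rect 0 (2 * n) 0 (2 * n)) (fun v => v.2 = 0)
    (fun v => v.2 = n) (fun v => v.1 = 2 * n)) (inc_evX (rect 0 n 0 n) (rect (-n) n 0 (2 * n))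
    (fun v => v.2 = 0) (fun v => v.2 = n) (fun v => v.1 = -n)) E
  have i2 := harris ((inc_evX (rect 0 n 0 n) (rect 0 (2 * n) 0 (2 * n)) (fun v => v.2 = 0)
    (fun v => v.2 = n) (fun v => v.1 = 2 * n)).and (inc_evX (rect 0 n 0 n) (rect (-n) n 0 (2 * n))
    (fun v => v.2 = 0) (fun v => v.2 = n) (fun v => v.1 = -n))) (inc_hor 0 n 0 n) E
  have i3 : pr E (fun ω => (X1 ω ∧ X2 ω) ∧ hor 0 n 0 n ω) ≤ pr E (hor (-n) (2 * n) 0 (2 * n)) := by
    apply pr_mono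
    rintro ω _ ⟨⟨h1, h2⟩, h3⟩
    obtain ⟨v, b, t, r, a1, a2, a3, a4, a5, a6, a7, a8, a9, a10⟩ := h1
    obtain ⟨v', b', t', r', c1, c2, c3, c4, c5, c6, c7, c8, c9, c10⟩ := h2
    obtain ⟨l, k, hl, hk, hl1, hk1, hlk⟩ := h3
    have k1 := conn_cross hn a2 hl a5 a6 hl1 hk1 (a8.symm.trans a9) hlk
    have k2 := conn_cross hn c2 hl c5 c6 hl1 hk1 (c8.symm.trans c9) hlk
    have k3 : conn V ω v v' := ((a8.trans k1).trans (c8.trans k2).symm).mono sub2 (Subset.refl _)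
    refine ⟨r', r, sub3 c4, sub1 a4, c7, a7, ?_⟩
    exact ((c10.symm.mono sub3 (Subset.refl _)).trans k3.symm).trans
      (a10.mono sub1 (Subset.refl _))
  change pr E X1 * pr E X2 ≤ pr E (fun ω => X1 ω ∧ X2 ω) at i1
  change pr E (fun ω => X1 ω ∧ X2 ω) * pr E (hor 0 n 0 n)
    ≤ pr E (fun ω => (X1 ω ∧ X2 ω) ∧ hor 0 n 0 n ω) at i2
  rw [p4] at i3
  have j1 : (1 / 8 : ℝ) * (1 / 8) ≤ pr E (fun ω => X1 ω ∧ X2 ω) :=
    (mul_le_mul p1 p2 (by norm_num) (by linarith)).trans i1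
  have j2 : (1 / 8 : ℝ) * (1 / 8) * (1 / 2) ≤ pr E (fun ω => (X1 ω ∧ X2 ω) ∧ hor 0 n 0 n ω) :=
    (mul_le_mul j1 p3 (by norm_num) (by linarith)).trans i2
  have j3 := j2.trans i3
  norm_num at j3 ⊢
  linarith

/-- the constant of the RSW bounds -/
noncomputable def cr : ℝ := 1 / 2 ^ 31

theorem hp_six {n : ℤ} (hn : 0 < n) : cr ≤ hp (6 * n) (2 * n) := by
  have h3 := hp_three hn
  have h2 := hp_half (n := 2 * n) (by omega)
  have g1 := pr_hor_glue (a := n) (b := 2 * n) (c := n) (y := 2 * n) (by omega) (by omega)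
    (by omega) (by omega)
  rw [show n + 2 * n = 3 * n by ring, show 2 * n + n = 3 * n by ring,
    show 3 * n + n = 4 * n by ring] at g1
  have g2 := pr_hor_glue (a := 2 * n) (b := 2 * n) (c := 2 * n) (y := 2 * n) (by omega) (by omega)
    (by omega) (by omega)
  rw [show 2 * n + 2 * n = 4 * n by ring, show 4 * n + 2 * n = 6 * n by ring] at g2
  have n3 : 0 ≤ hp (3 * n) (2 * n) := pr_nonneg _ _
  have n2 : 0 ≤ hp (2 * n) (2 * n) := pr_nonneg _ _
  have n4 : 0 ≤ hp (4 * n) (2 * n) := pr_nonneg _ _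
  have k1 : (1 / 2 ^ 7 : ℝ) * (1 / 2 ^ 7) * (1 / 2) ≤ hp (4 * n) (2 * n) := by
    refine le_trans ?_ g1
    gcongr
  have k1' : (1 / 2 ^ 15 : ℝ) ≤ hp (4 * n) (2 * n) := by
    refine le_trans ?_ k1
    norm_num
  have k2 : (1 / 2 ^ 15 : ℝ) * (1 / 2 ^ 15) * (1 / 2) ≤ hp (6 * n) (2 * n) := by
    generalize hp (6 * n) (2 * n) = z at *
    generalize hp (4 * n) (2 * n) = x at *
    generalize hp (2 * n) (2 * n) = y at *
    refine le_trans ?_ g2
    exact mul_le_mul (mul_le_mul k1' k1' (by positivity) n4) h2 (by positivity) (by positivity)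
  unfold cr
  refine le_trans ?_ k2
  norm_num

lemma cr_pos : 0 < cr := by unfold cr; positivity

end Pool.Agent.H95.Perc
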