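import Mathlib
import Pool.Agent.H95.SumRule.Defs

/-!
Critical bond percolation (the FK model with `q = 1` at its self-dual point `p = 1 / 2`) in finite
boxes of the quarter-plane and of the half-plane.
-/

namespace Pool.Agent.H95.Perc

open Pool.Agent.H95.SumRule

/-- Probability that the corner `(0, 0)` is connected to `(k, 0)` inside the square
`{0, …, N}²`, for the FK model with `q = 1` at its self-dual point and free boundary conditions. -/
noncomputable def cornerTwoPoint (N k : ℕ) : ℝ :=
  fkProb (selfDual 1) 1 (domain N fun _ => N) ∅ fun ω => (openGraph ω).Reachable (0, 0) ((k : ℤ), 0)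

/-- Corner one-arm probability: in the square `{0, …, n}²`, the corner `(0, 0)` is connected to
a vertex of the square with a coordinate equal to `n`. -/
noncomputable def cornerArm (n : ℕ) : ℝ :=
  fkProb (selfDual 1) 1 (domain n fun _ => n) ∅ fun ω =>
    ∃ v ∈ domain n fun _ => n, (v.1 = n ∨ v.2 = n) ∧ (openGraph ω).Reachable (0, 0) v

/-- Half-plane one-arm probability: in the rectangle `{0, …, 2 n} × {0, …, n}`, the middle
`(n, 0)` of the bottom side is connected to a vertex of the left, right or top side. -/
noncomputable def halfArm (n : ℕ) : ℝ :=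
  fkProb (selfDual 1) 1 (domain (2 * n) fun _ => n) ∅ fun ω =>
    ∃ v ∈ domain (2 * n) fun _ => n, (v.1 = 0 ∨ v.1 = 2 * n ∨ v.2 = n) ∧
      (openGraph ω).Reachable ((n : ℤ), 0) v

end Pool.Agent.H95.Perc
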