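import Mathlib
import Pool.Agent.H95.Perc.RSW2
import Pool.Agent.H95.SumRule.Final

/-!
One-arm events in the corner and in the half-plane, and the sum rule at `q = 1`.
-/

namespace Pool.Agent.H95.Perc

open Finset Pool.Agent.H95.SumRule

set_option linter.unusedSectionVars false

/-! ### the sum rule -/

lemma selfDual_one : selfDual 1 = 1 / 2 := by
  unfold selfDual; rw [Real.sqrt_one]; norm_num

lemma fkProb_one (V : Finset (ℤ × ℤ)) (A : Finset (Sym2 (ℤ × ℤ)) → Prop) :
    fkProb (selfDual 1) 1 V ∅ A = pr (edgesIn V) A := by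
  classical
  have hw : ∀ ω, fkWeight (selfDual 1) 1 V ω = 1 := by
    intro ω; unfold fkWeight; rw [selfDual_one]; norm_num
  have hc : configs V ∅ = (edgesIn V).powerset := by
    unfold configs; ext ω; simp
  unfold fkProb pr
  rw [hc]
  simp only [hw, sum_const, card_powerset, nsmul_eq_mul, mul_one]
  push_cast
  congr!

lemma domain_rect (m n : ℕ) : domain m (fun _ => n) = rect 0 m 0 n := by
  ext v
  rw [mem_domain, mem_rect]
  simp [InV]

/-- connection probability inside a rectangle -/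
noncomputable def pc (m n : ℤ) (x : ℤ × ℤ) : ℝ :=
  pr (edgesIn (rect 0 m 0 n)) (fun ω => conn (rect 0 m 0 n) ω (0, 0) x)

lemma touchProb_one (m n : ℕ) (x : ℤ × ℤ) : touchProb 1 m (fun _ => n) 0 0 x = pc m n x := by
  unfold touchProb
  have h : bottomArc 0 0 = ∅ := by unfold bottomArc; simp
  rw [h, fkProb_one, domain_rect]
  unfold pc
  apply pr_congr
  intro ω hω
  unfold conn
  rw [inter_eq_left.mpr hω]

theorem sum_rule_one (m n : ℕ) : ∑ i ∈ Icc (0 : ℤ) m, pc m n (i, n) + ∑ j ∈ Icc (0 : ℤ) n, pc m n (m, j) = 2 := by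
  have h := sum_rule_main 1 one_pos m (fun _ => n) 0 0 le_rfl le_rfl (by omega)
  simp only [touchProb_one, Real.sqrt_one, one_mul, sub_self, zero_mul, add_zero, Ico_self,
    sum_empty] at h
  have hs : (domain m (fun _ => n)).filter (fun v => v + (1, 0) ∉ domain m (fun _ => n))
      = (Icc (0 : ℤ) n).image (fun j => ((m : ℤ), j)) := by
    ext ⟨a, b⟩
    rw [mem_filter, domain_rect, mem_rect, mem_rect, mem_image]
    simp only [mem_Icc, Prod.mk_add_mk, Prod.mk.injEq]
    constructor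
    · rintro ⟨h1, h2⟩
      exact ⟨b, by omega, by omega, rfl⟩
    · rintro ⟨j, h1, h2, h3⟩
      omega
  rw [hs, sum_image (by intro x _ y _ h; exact congrArg Prod.snd h)] at h
  linarith

/-! ### arm events -/

/-- `x` is connected inside `V` to a vertex satisfying `A` -/
def arm (V : Finset (ℤ × ℤ)) (x : ℤ × ℤ) (A : ℤ × ℤ → Prop) : Finset (Sym2 (ℤ × ℤ)) → Prop :=
  link V (fun v => v = x) A

lemma arm_iff {V : Finset (ℤ × ℤ)} {x : ℤ × ℤ} {A : ℤ × ℤ → Prop} {ω : Finset (Sym2 (ℤ × ℤ))} :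
    arm V x A ω ↔ x ∈ V ∧ ∃ z ∈ V, A z ∧ conn V ω x z := by
  unfold arm link
  constructor
  · rintro ⟨a, b, ha, hb, rfl, hB, hc⟩
    exact ⟨ha, b, hb, hB, hc⟩
  · rintro ⟨hx, z, hz, hA, hc⟩
    exact ⟨x, z, hx, hz, rfl, hA, hc⟩

lemma inc_arm (V : Finset (ℤ × ℤ)) (x : ℤ × ℤ) (A : ℤ × ℤ → Prop) : Inc (arm V x A) :=
  inc_link _ _ _

lemma pr_arm_restrict {V V' : Finset (ℤ × ℤ)} (h : V ⊆ V') (x : ℤ × ℤ) (A : ℤ × ℤ → Prop) :
    pr (edgesIn V') (arm V x A) = pr (edgesIn V) (arm V x A) := pr_link_restrict h _ _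

lemma pr_arm_act {σ : (ℤ × ℤ) ≃ (ℤ × ℤ)} (hσ : IsAut σ) (V : Finset (ℤ × ℤ)) (x : ℤ × ℤ)
    (A : ℤ × ℤ → Prop) : pr (edgesIn (V.image σ)) (arm (V.image σ) (σ x) A) =
      pr (edgesIn V) (arm V x (fun v => A (σ v))) := by
  unfold arm
  rw [pr_link_act hσ]
  apply pr_congr
  intro ω _
  constructor
  · exact fun h => h.mono (Subset.refl _) (fun a _ h2 => σ.injective h2) (fun _ _ h => h)
  · exact fun h => h.mono (Subset.refl _) (fun a _ h2 => by rw [h2]) (fun _ _ h => h)

/-- a connection leaving `V'` gives an arm in `V'` -/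
lemma arm_exit {V V' : Finset (ℤ × ℤ)} {ω : Finset (Sym2 (ℤ × ℤ))} {x y : ℤ × ℤ}
    {A : ℤ × ℤ → Prop} (h : conn V ω x y) (hx : x ∈ V) (hx' : x ∈ V') (hy' : y ∉ V')
    (hA : ∀ z w, z ∈ V → z ∈ V' → w ∈ V → w ∉ V' → IsUnit2 (w - z) → A z) : arm V' x A ω := by
  obtain ⟨z, w, z1, z2, w1, w2, hadj, _, hc⟩ := h.exit hx hx' hy'
  exact arm_iff.mpr ⟨hx', z, z2, hA z w z1 z2 w1 w2 hadj, hc.mono inter_subset_right (Subset.refl _)⟩

/-- corner one-arm probability -/
noncomputable def pic (n : ℤ) : ℝ :=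
  pr (edgesIn (rect 0 n 0 n)) (arm (rect 0 n 0 n) (0, 0) (fun z => z.1 = n ∨ z.2 = n))

/-- half-plane one-arm probability -/
noncomputable def pih (n : ℤ) : ℝ :=
  pr (edgesIn (rect (-n) n 0 n)) (arm (rect (-n) n 0 n) (0, 0)
    (fun z => z.1 = -n ∨ z.1 = n ∨ z.2 = n))

lemma pic_nonneg (n : ℤ) : 0 ≤ pic n := pr_nonneg _ _
lemma pih_nonneg (n : ℤ) : 0 ≤ pih n := pr_nonneg _ _

lemma pic_mono {n n' : ℤ} (h0 : 0 ≤ n') (h : n' ≤ n) : pic n ≤ pic n' := by
  rcases h.lt_or_eq with hlt | rfl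
  · unfold pic
    rw [← pr_arm_restrict (rect_mono (x0' := 0) (y0' := 0) le_rfl h le_rfl h) (0, 0)
      (fun z => z.1 = n' ∨ z.2 = n')]
    apply pr_mono
    intro ω _ ha
    obtain ⟨hx, z, hz, hz2, hc⟩ := arm_iff.mp ha
    apply arm_exit hc hx
    · rw [mem_rect]; simp only; omega
    · rw [mem_rect] at hz ⊢; omega
    · intro z w h1 h2 h3 h4 h5
      simp only [IsUnit2, Prod.fst_sub, Prod.snd_sub] at h5
      rw [mem_rect] at h1 h2 h3 h4
      omega
  · exact le_rfl

lemma pih_mono {n n' : ℤ} (h0 : 0 ≤ n') (h : n' ≤ n) : pih n ≤ pih n' := by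
  rcases h.lt_or_eq with hlt | rfl
  · unfold pih
    rw [← pr_arm_restrict (rect_mono (x0' := -n) (y0' := 0) (by omega) h le_rfl h) (0, 0)
      (fun z => z.1 = -n' ∨ z.1 = n' ∨ z.2 = n')]
    apply pr_mono
    intro ω _ ha
    obtain ⟨hx, z, hz, hz2, hc⟩ := arm_iff.mp ha
    apply arm_exit hc hx
    · rw [mem_rect]; simp only; omega
    · rw [mem_rect] at hz ⊢; omega
    · intro z w h1 h2 h3 h4 h5
      simp only [IsUnit2, Prod.fst_sub, Prod.snd_sub] at h5
      rw [mem_rect] at h1 h2 h3 h4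
      omega
  · exact le_rfl

/-- decoupling of two arms -/
lemma two_arm {V V1 V2 : Finset (ℤ × ℤ)} {x y : ℤ × ℤ} {A1 A2 : ℤ × ℤ → Prop}
    (hd : Disjoint V1 V2) (h : ∀ ω, conn V ω x y → arm V1 x A1 ω ∧ arm V2 y A2 ω) :
    pr (edgesIn V) (fun ω => conn V ω x y)
      ≤ pr (edgesIn V1) (arm V1 x A1) * pr (edgesIn V2) (arm V2 y A2) := by
  set W := V ∪ (V1 ∪ V2) with hW
  have h1 : pr (edgesIn V) (fun ω => conn V ω x y) ≤ pr (edgesIn W) (fun ω => conn V ω x y) :=
    pr_le_of_subset (edgesIn_mono subset_union_left) (inc_conn _ _ _)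
  have h2 : pr (edgesIn W) (fun ω => conn V ω x y)
      ≤ pr (edgesIn W) (fun ω => arm V1 x A1 ω ∧ arm V2 y A2 ω) := pr_mono (fun ω _ => h ω)
  have h3 : pr (edgesIn W) (fun ω => arm V1 x A1 ω ∧ arm V2 y A2 ω)
      = pr (edgesIn W) (arm V1 x A1) * pr (edgesIn W) (arm V2 y A2) := by
    apply indep_dep (dep_link V1 _ _) (dep_link V2 _ _)
    rw [disjoint_left] at hd ⊢
    intro e
    induction e with
    | _ a b =>
      rw [mem_edgesIn', mem_edgesIn']
      intro g1 g2
      exact hd g1.1 g2.1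
  rw [pr_arm_restrict (subset_union_left.trans subset_union_right),
    pr_arm_restrict (subset_union_right.trans subset_union_right)] at h3
  linarith

/-- rotation: `(a, b) ↦ (M - b, j + a)` -/
def rot (M j : ℤ) : (ℤ × ℤ) ≃ (ℤ × ℤ) where
  toFun v := (M - v.2, j + v.1)
  invFun v := (v.2 - j, M - v.1)
  left_inv v := by simp
  right_inv v := by simp

lemma isAut_rot (M j : ℤ) : IsAut (rot M j) := by
  intro u v; simp only [Z2, IsUnit2, rot, Equiv.coe_fn_mk, Prod.fst_sub, Prod.snd_sub]; omega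

lemma rect_rot (M j x0 x1 y0 y1 : ℤ) :
    (rect x0 x1 y0 y1).image (rot M j) = rect (M - y1) (M - y0) (j + x0) (j + x1) := by
  ext v; rw [mem_image_equiv, mem_rect, mem_rect]; simp only [rot, Equiv.coe_fn_symm_mk]; omega

/-- arms from a vertex of the right side -/
lemma pr_arm_right (n M j : ℤ) :
    pr (edgesIn (rect (M - n) M (j - n) (j + n))) (arm (rect (M - n) M (j - n) (j + n)) (M, j)
      (fun z => z.1 = M - n ∨ z.2 = j - n ∨ z.2 = j + n)) = pih n := by
  have h1 : (rect (-n) n 0 n).image (rot M j) = rect (M - n) M (j - n) (j + n) := by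
    rw [rect_rot]; congr 1 <;> ring
  have h2 : rot M j (0, 0) = (M, j) := by simp [rot]
  rw [← h1, ← h2, pr_arm_act (isAut_rot M j)]
  unfold pih
  apply pr_congr
  intro ω _
  constructor
  · intro h
    refine h.mono (Subset.refl _) (fun _ _ h => h) (fun a _ h2 => ?_)
    simp only [rot, Equiv.coe_fn_mk] at h2
    omega
  · intro h
    refine h.mono (Subset.refl _) (fun _ _ h => h) (fun a _ h2 => ?_)
    simp only [rot, Equiv.coe_fn_mk]
    omega

/-- arms from a vertex of the bottom side -/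
lemma pr_arm_bottom (n k : ℤ) :
    pr (edgesIn (rect (k - n) (k + n) 0 n)) (arm (rect (k - n) (k + n) 0 n) (k, 0)
      (fun z => z.1 = k - n ∨ z.1 = k + n ∨ z.2 = n)) = pih n := by
  have h1 : (rect (-n) n 0 n).image (trans k 0) = rect (k - n) (k + n) 0 n := by
    rw [rect_trans]; congr 1 <;> ring
  have h2 : trans k 0 (0, 0) = (k, 0) := by simp [trans]
  rw [← h1, ← h2, pr_arm_act (isAut_trans k 0)]
  unfold pih
  apply pr_congr
  intro ω _
  constructor
  · intro h
    refine h.mono (Subset.refl _) (fun _ _ h => h) (fun a _ h2 => ?_)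
    simp only [trans, Equiv.coe_fn_mk] at h2
    omega
  · intro h
    refine h.mono (Subset.refl _) (fun _ _ h => h) (fun a _ h2 => ?_)
    simp only [trans, Equiv.coe_fn_mk]
    omega

/-- the product of the two one-arm probabilities is at least `1 / (2 k + 2)` -/
theorem arms_lower (k : ℕ) : 1 ≤ (2 * k + 2) * (pic k * pih k) := by
  have hs := sum_rule_one (2 * k + 1) (2 * k + 1)
  set M : ℕ := 2 * k + 1 with hM
  have hsym : ∀ i : ℤ, pc M M (i, M) = pc M M (M, i) := by
    intro i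
    unfold pc
    have h1 : (rect 0 M 0 M).image diag = rect 0 (M : ℤ) 0 M := rect_diag _ _ _ _
    have h2 := pr_act isAut_diag (rect 0 (M : ℤ) 0 M) (fun ω => conn (rect 0 M 0 M) ω (0, 0) (i, M))
    rw [h1] at h2
    rw [h2]
    apply pr_congr
    intro ω _
    have h3 : conn ((rect 0 (M : ℤ) 0 M).image diag) (act diag ω) (diag (0, 0)) (diag (M, i))
      ↔ conn (rect 0 M 0 M) ω (0, 0) (M, i) := conn_act isAut_diag
    rw [h1] at h3
    exact h3
  rw [sum_congr rfl (fun i _ => hsym i)] at hs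
  have hb : ∀ j ∈ Icc (0 : ℤ) M, pc M M (M, j) ≤ pic k * pih k := by
    intro j hj
    rw [mem_Icc] at hj
    unfold pc pic
    rw [← pr_arm_right k M j]
    apply two_arm
    · rw [disjoint_left]
      intro v h1 h2
      rw [mem_rect] at h1 h2
      push_cast [hM] at h1 h2
      omega
    · intro ω hc
      constructor
      · apply arm_exit hc
        · rw [mem_rect]; simp only; omega
        · rw [mem_rect]; simp only; omega
        · rw [mem_rect]; simp only; push_cast [hM]; omega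
        · intro z w h1 h2 h3 h4 h5
          simp only [IsUnit2, Prod.fst_sub, Prod.snd_sub] at h5
          rw [mem_rect] at h1 h2 h3 h4
          omega
      · apply arm_exit hc.symm
        · rw [mem_rect]; simp only; omega
        · rw [mem_rect]; simp only; omega
        · rw [mem_rect]; simp only; push_cast [hM]; omega
        · intro z w h1 h2 h3 h4 h5
          simp only [IsUnit2, Prod.fst_sub, Prod.snd_sub] at h5
          rw [mem_rect] at h1 h2 h3 h4
          omega
  have h2 := sum_le_sum hb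
  rw [sum_const, Int.card_Icc, nsmul_eq_mul] at h2
  have h3 : (((M : ℤ) + 1 - 0).toNat : ℝ) = 2 * k + 2 := by
    have : ((M : ℤ) + 1 - 0).toNat = M + 1 := by omega
    rw [this, hM]; push_cast; ring
  rw [h3] at h2
  linarith

/-- upper bound for the two-point function by arms -/
theorem two_point_upper (k N : ℤ) (hk : 1 ≤ k) (hN : k ≤ N) :
    pc N N (k, 0) ≤ pic ((k - 1) / 2) * pih ((k - 1) / 2) := by
  unfold pc pic
  rw [← pr_arm_bottom ((k - 1) / 2) k]
  apply two_arm
  · rw [disjoint_left]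
    intro v h1 h2
    rw [mem_rect] at h1 h2
    omega
  · intro ω hc
    constructor
    · apply arm_exit hc
      · rw [mem_rect]; simp only; omega
      · rw [mem_rect]; simp only; omega
      · rw [mem_rect]; simp only; omega
      · intro z w h1 h2 h3 h4 h5
        simp only [IsUnit2, Prod.fst_sub, Prod.snd_sub] at h5
        rw [mem_rect] at h1 h2 h3 h4
        omega
    · apply arm_exit hc.symm
      · rw [mem_rect]; simp only; omega
      · rw [mem_rect]; simp only; omega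
      · rw [mem_rect]; simp only; omega
      · intro z w h1 h2 h3 h4 h5
        simp only [IsUnit2, Prod.fst_sub, Prod.snd_sub] at h5
        rw [mem_rect] at h1 h2 h3 h4
        omega

/-- half of a symmetric arm event -/
lemma half_arm {σ : (ℤ × ℤ) ≃ (ℤ × ℤ)} (hσ : IsAut σ) {V : Finset (ℤ × ℤ)} {x : ℤ × ℤ}
    (hV : V.image σ = V) (hx : σ x = x) {A B C : ℤ × ℤ → Prop} (hABC : ∀ v ∈ V, A v → B v ∨ C v)
    (hBC : ∀ v, C (σ v) → B v) :
    pr (edgesIn V) (arm V x A) / 2 ≤ pr (edgesIn V) (arm V x B) := by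
  have h1 : pr (edgesIn V) (arm V x A) ≤ pr (edgesIn V) (fun ω => arm V x B ω ∨ arm V x C ω) := by
    apply pr_mono
    intro ω _ h
    obtain ⟨h1, z, hz, hA, hc⟩ := arm_iff.mp h
    rcases hABC z hz hA with h2 | h2
    · exact Or.inl (arm_iff.mpr ⟨h1, z, hz, h2, hc⟩)
    · exact Or.inr (arm_iff.mpr ⟨h1, z, hz, h2, hc⟩)
  have h2 := pr_or_le (edgesIn V) (arm V x B) (arm V x C)
  have h3 : pr (edgesIn V) (arm V x C) ≤ pr (edgesIn V) (arm V x B) := by
    have h4 := pr_arm_act hσ V x C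
    rw [hV, hx] at h4
    rw [h4]
    exact pr_mono (fun ω _ h => h.mono (Subset.refl _) (fun _ _ h => h) (fun a _ h2 => hBC a h2))
  linarith

lemma pic_half_top (n : ℤ) :
    pic n / 2 ≤ pr (edgesIn (rect 0 n 0 n)) (arm (rect 0 n 0 n) (0, 0) (fun z => z.2 = n)) := by
  apply half_arm isAut_diag (C := fun z => z.1 = n) (rect_diag _ _ _ _) rfl
  · intro v _ h; exact h.symm
  · intro v h; exact h

lemma pic_half_right (n : ℤ) :
    pic n / 2 ≤ pr (edgesIn (rect 0 n 0 n)) (arm (rect 0 n 0 n) (0, 0) (fun z => z.1 = n)) := by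
  apply half_arm isAut_diag (C := fun z => z.2 = n) (rect_diag _ _ _ _) rfl
  · intro v _ h; exact h
  · intro v h; exact h

lemma pih_half (n : ℤ) :
    pih n / 2 ≤ pr (edgesIn (rect 0 (2 * n) 0 n)) (arm (rect 0 (2 * n) 0 n) (n, 0)
      (fun z => z.1 = 0 ∨ z.2 = n)) := by
  have h0 := pr_arm_bottom n n
  rw [show n - n = 0 by ring, show n + n = 2 * n by ring] at h0
  rw [← h0]
  refine half_arm (isAut_reflX (2 * n)) (C := fun z => z.1 = 2 * n ∨ z.2 = n) ?_ ?_ ?_ ?_
  · rw [rect_reflX]; congr 1 <;> ring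
  · simp only [reflX, Equiv.coe_fn_mk]; ext <;> simp only; ring
  · intro v _ h; omega
  · intro v h; simp only [reflX, Equiv.coe_fn_mk] at h; omega

end Pool.Agent.H95.Perc
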