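import Mathlib
import Pool.Agent.H95.Perc.Arms

/-!
The corner two-point function and the product of the corner and half-plane one-arm probabilities.
-/

namespace Pool.Agent.H95.Perc

open Finset Pool.Agent.H95.SumRule

set_option linter.unusedSectionVars false

lemma harris3 {α : Type*} [DecidableEq α] {A B C : Finset α → Prop} (hA : Inc A) (hB : Inc B)
    (hC : Inc C) (E : Finset α) {a b c : ℝ} (ha : a ≤ pr E A) (hb : b ≤ pr E B) (hc : c ≤ pr E C)
    (hb0 : 0 ≤ b) (hc0 : 0 ≤ c) :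
    a * b * c ≤ pr E (fun ω => (A ω ∧ B ω) ∧ C ω) := by
  have h1 := harris hA hB E
  have h2 := harris (hA.and hB) hC E
  calc a * b * c ≤ (pr E A * pr E B) * pr E C :=
        mul_le_mul (mul_le_mul ha hb hb0 (pr_nonneg _ _)) hc hc0
          (mul_nonneg (pr_nonneg _ _) (pr_nonneg _ _))
    _ ≤ pr E (fun ω => A ω ∧ B ω) * pr E C := mul_le_mul_of_nonneg_right h1 (pr_nonneg _ _)
    _ ≤ _ := h2

/-- lower bound for the two-point function by arms -/
theorem two_point_lower (k N : ℤ) (hk : 1 ≤ k) (hN : 2 * k ≤ N) :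
    (pic k / 2) * hp (2 * k) k * (pih k / 2) ≤ pc N N (k, 0) := by
  set V := rect 0 N 0 N with hV
  set E := edgesIn V with hE
  have sub1 : rect 0 k 0 k ⊆ V := rect_mono le_rfl (by omega) le_rfl (by omega)
  have sub2 : rect 0 (2 * k) 0 k ⊆ V := rect_mono le_rfl (by omega) le_rfl (by omega)
  have sub3 : rect 0 k 0 k ⊆ rect 0 (2 * k) 0 k := rect_mono le_rfl (by omega) le_rfl le_rfl
  have e1 : pic k / 2 ≤ pr E (arm (rect 0 k 0 k) (0, 0) (fun z => z.2 = k)) := by
    rw [hE, pr_arm_restrict sub1]; exact pic_half_top k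
  have e2 : hp (2 * k) k ≤ pr E (hor 0 (2 * k) 0 k) := by
    rw [hE, pr_hor sub2]; apply le_of_eq; congr 1 <;> ring
  have e3 : pih k / 2 ≤ pr E (arm (rect 0 (2 * k) 0 k) (k, 0) (fun z => z.1 = 0 ∨ z.2 = k)) := by
    rw [hE, pr_arm_restrict sub2]; exact pih_half k
  refine (harris3 (inc_arm _ _ _) (inc_hor _ _ _ _) (inc_arm _ _ _) E e1 e2 e3
    (pr_nonneg _ _) (by have := pih_nonneg k; linarith)).trans ?_
  unfold pc
  apply pr_mono
  rintro ω _ ⟨⟨h1, h2⟩, h3⟩
  obtain ⟨a1, t, a2, a3, a4⟩ := arm_iff.mp h1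
  obtain ⟨l, r, hl, hr, hl1, hr1, hlr⟩ := h2
  obtain ⟨b1, z, b2, b3, b4⟩ := arm_iff.mp h3
  have k1 : conn (rect 0 (2 * k) 0 k) ω (0, 0) l :=
    conn_cross (by omega) (sub3 a1) hl rfl a3 hl1 hr1 (a4.mono sub3 (Subset.refl _)) hlr
  have k2 : conn (rect 0 (2 * k) 0 k) ω (0, 0) (k, 0) := by
    rcases b3 with b3 | b3
    · obtain ⟨P, p1, p2, _⟩ := (a4.mono sub3 (Subset.refl _)).walk (sub3 a1)
      obtain ⟨Q, q1, q2, _⟩ := b4.walk b1
      obtain ⟨w, hw1, hw2⟩ := cross_corner_bottom (by omega) P Q p1 q1 a3 rfl b3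
      exact (p2 w hw1).trans (q2 w hw2).symm
    · have k3 : conn (rect 0 (2 * k) 0 k) ω (k, 0) l :=
        conn_cross (by omega) b1 hl rfl b3 hl1 hr1 b4 hlr
      exact k1.trans k3.symm
  exact k2.mono sub2 (Subset.refl _)

/-- diagonal reflection as a homomorphism -/
def diagHom : Z2 →g Z2 where
  toFun := diag
  map_rel' := fun h => (isAut_diag _ _).mpr h

/-- a walk from the left side to the right side ending at height `e`, and a walk from the right
side at height at least `e` to the bottom side, share a vertex -/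
lemma cross_right_bottom {x0 x1 y0 y1 : ℤ} (hx : x0 ≤ x1) {s s2 t2 : ℤ × ℤ} {e : ℤ}
    (P : Z2.Walk s (x1, e)) (Q : Z2.Walk s2 t2) (hP : ∀ z ∈ P.support, z ∈ rect x0 x1 y0 y1)
    (hQ : ∀ z ∈ Q.support, z ∈ rect x0 x1 y0 y1)
    (hs : s.1 = x0) (hs2 : s2.1 = x1) (hs2' : e ≤ s2.2) (ht2 : t2.2 = y0) :
    ∃ z, z ∈ P.support ∧ z ∈ Q.support := by
  have sup : ∀ {a b : ℤ × ℤ} (P : Z2.Walk a b), ∀ z, z ∈ (P.map diagHom).support →
      ∃ z' ∈ P.support, z = diag z' := by
    intro a b P z hz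
    rw [SimpleGraph.Walk.support_map, List.mem_map] at hz
    obtain ⟨z', h1, h2⟩ := hz
    exact ⟨z', h1, h2.symm⟩
  have h := cross_top_left (x0 := y0) (x1 := y1) (y0 := x0) (y1 := x1) (e := e) hx
    (s := diagHom s) (s2 := diagHom s2) (t2 := diagHom t2) (P.map diagHom) (Q.map diagHom)
    (fun z hz => by
      obtain ⟨z', h1, rfl⟩ := sup P z hz
      have := hP z' h1
      rw [mem_rect] at this ⊢
      simp only [diag, Equiv.coe_fn_mk]
      omega)
    (fun z hz => by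
      obtain ⟨z', h1, rfl⟩ := sup Q z hz
      have := hQ z' h1
      rw [mem_rect] at this ⊢
      simp only [diag, Equiv.coe_fn_mk]
      omega) hs hs2 hs2' ht2
  obtain ⟨z, h1, h2⟩ := h
  obtain ⟨z1, h1, e1⟩ := sup P z h1
  obtain ⟨z2, h2, e2⟩ := sup Q z h2
  have : z1 = z2 := diag.injective (e1.symm.trans e2)
  exact ⟨z1, h1, this ▸ h2⟩

/-- one term of the sum rule in the rectangle `[0, 2n] × [0, 6n]` -/
theorem term_lower {n : ℤ} (hn : 1 ≤ n) {y : ℤ} (hy : 2 * n ≤ y) (hy' : y ≤ 3 * n) :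
    (pic (2 * n) / 2) * hp (6 * n) (2 * n) * (pih (3 * n) / 2) ≤ pc (2 * n) (6 * n) (2 * n, y) := by
  set V := rect 0 (2 * n) 0 (6 * n) with hV
  set E := edgesIn V with hE
  have sub1 : rect 0 (2 * n) 0 (2 * n) ⊆ V := rect_mono le_rfl (by omega) le_rfl (by omega)
  have sub2 : rect 0 (2 * n) 0 (2 * y) ⊆ V := rect_mono le_rfl (by omega) le_rfl (by omega)
  have e1 : pic (2 * n) / 2 ≤ pr E (arm (rect 0 (2 * n) 0 (2 * n)) (0, 0) (fun z => z.1 = 2 * n)) := by
    rw [hE, pr_arm_restrict sub1]; exact pic_half_right (2 * n)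
  have e2 : hp (6 * n) (2 * n) ≤ pr E (ver 0 (2 * n) 0 (6 * n)) := by
    rw [hE, pr_ver (Subset.refl _)]; apply le_of_eq; congr 1 <;> ring
  have e3 : pih (3 * n) / 2 ≤ pr E (arm (rect 0 (2 * n) 0 (2 * y)) (2 * n, y)
      (fun z => z.1 = 0 ∨ z.2 = 0)) := by
    rw [hE, pr_arm_restrict sub2]
    have h1 : pih (3 * n) ≤ pr (edgesIn (rect 0 (2 * n) 0 (2 * y)))
        (arm (rect 0 (2 * n) 0 (2 * y)) (2 * n, y) (fun z => z.1 = 0 ∨ z.2 = 0 ∨ z.2 = 2 * y)) := by
      rw [← pr_arm_right (3 * n) (2 * n) y, ← pr_arm_restrict (V := rect 0 (2 * n) 0 (2 * y))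
        (V' := rect (2 * n - 3 * n) (2 * n) (y - 3 * n) (y + 3 * n))
        (rect_mono (by omega) le_rfl (by omega) (by omega))]
      apply pr_mono
      intro ω _ h
      obtain ⟨h1, z, h2, h3, h4⟩ := arm_iff.mp h
      by_cases hz : z ∈ rect 0 (2 * n) 0 (2 * y)
      · -- then y = 3 n and the exploration box has full height
        have hy3 : y = 3 * n := by rw [mem_rect] at hz; omega
        subst hy3
        -- cut at height
        by_cases hh : conn (rect 0 (2 * n) 0 (2 * (3 * n))) ω (2 * n, 3 * n) z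
        · refine arm_iff.mpr ⟨?_, z, hz, ?_, hh⟩
          · rw [mem_rect]; simp only; omega
          · rw [mem_rect] at hz; omega
        · obtain ⟨P, p1, p2, p3⟩ := h4.walk h1
          -- some vertex of the walk leaves the box
          obtain ⟨w, hw, hw2⟩ : ∃ w ∈ P.support, w ∉ rect 0 (2 * n) 0 (2 * (3 * n)) := by
            by_contra hcon
            push Not at hcon
            apply hh
            have := conn_of_walk (V := rect 0 (2 * n) 0 (2 * (3 * n))) (ω := ω) P (fun e he => by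
              have h5 := p3 e he
              rw [mem_inter] at h5 ⊢
              refine ⟨h5.1, ?_⟩
              induction e with
              | _ a b =>
                rw [mem_edgesIn'] at h5 ⊢
                exact ⟨hcon a (SimpleGraph.Walk.mem_support_of_mem_edges he (Sym2.mem_mk_left _ _)),
                  hcon b (SimpleGraph.Walk.mem_support_of_mem_edges he (Sym2.mem_mk_right _ _)),
                  h5.2.2.2⟩)
            exact this z (SimpleGraph.Walk.end_mem_support P)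
          apply arm_exit (p2 w hw) h1 _ hw2
          · intro z w h1 h2 h3 h4 h5
            simp only [IsUnit2, Prod.fst_sub, Prod.snd_sub] at h5
            rw [mem_rect] at h1 h2 h3 h4
            omega
          · rw [mem_rect]; simp only; omega
      · apply arm_exit h4 h1 _ hz
        · intro z w h1 h2 h3 h4 h5
          simp only [IsUnit2, Prod.fst_sub, Prod.snd_sub] at h5
          rw [mem_rect] at h1 h2 h3 h4
          omega
        · rw [mem_rect]; simp only; omega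
    refine le_trans (by linarith) (half_arm (isAut_reflY (2 * y))
      (A := fun z => z.1 = 0 ∨ z.2 = 0 ∨ z.2 = 2 * y) (C := fun z => z.1 = 0 ∨ z.2 = 2 * y) ?_ ?_ ?_ ?_)
    · rw [rect_reflY]; congr 1 <;> ring
    · simp only [reflY, Equiv.coe_fn_mk]; ext <;> simp only; ring
    · intro v _ h; omega
    · intro v h; simp only [reflY, Equiv.coe_fn_mk] at h; omega
  refine (harris3 (inc_arm _ _ _) (inc_ver _ _ _ _) (inc_arm _ _ _) E e1 e2 e3
    (pr_nonneg _ _)
    (by have := pih_nonneg (3 * n); linarith)).trans ?_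
  unfold pc
  apply pr_mono
  rintro ω _ ⟨⟨h1, h2⟩, h3⟩
  obtain ⟨a1, e, a2, a3, a4⟩ := arm_iff.mp h1
  obtain ⟨b, t, hb, ht, hb2, ht2, hbt⟩ := h2
  obtain ⟨b1, z, b2, b3, b4⟩ := arm_iff.mp h3
  have a4' : conn V ω (0, 0) e := a4.mono sub1 (Subset.refl _)
  have b4' : conn V ω (2 * n, y) z := b4.mono sub2 (Subset.refl _)
  have k1 : conn V ω b (0, 0) := conn_cross (by omega) hb (sub1 a1) hb2 ht2 rfl a3 hbt a4'
  rcases b3 with b3 | b3
  · have k2 : conn V ω b z :=
      conn_cross (by omega) hb (sub2 b2) hb2 ht2 b3 rfl hbt b4'.symm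
    exact (k1.symm.trans k2).trans b4'.symm
  · obtain ⟨e1, e2⟩ := e
    simp only at a3
    subst a3
    obtain ⟨P, p1, p2, _⟩ := a4'.walk (sub1 a1)
    obtain ⟨Q, q1, q2, _⟩ := b4'.walk (sub2 b1)
    obtain ⟨w, hw1, hw2⟩ := cross_right_bottom (by omega) P Q p1 q1 rfl rfl
      (by rw [mem_rect] at a2; simp only at a2 ⊢; omega) b3
    exact (p2 w hw1).trans (q2 w hw2).symm

/-- the product of the two one-arm probabilities is at most `C / n` -/
theorem arms_upper (n : ℕ) (hn : 1 ≤ n) :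
    (n + 1) * (cr * (pic (2 * n) * pih (3 * n))) ≤ 8 := by
  have hs := sum_rule_one (2 * n) (6 * n)
  have h0 : 0 ≤ ∑ i ∈ Icc (0 : ℤ) ((2 * n : ℕ) : ℤ), pc ((2 * n : ℕ) : ℤ) ((6 * n : ℕ) : ℤ)
      (i, ((6 * n : ℕ) : ℤ)) := sum_nonneg (fun i _ => pr_nonneg _ _)
  have h1 : ∑ j ∈ Icc (2 * n : ℤ) (3 * n), pc ((2 * n : ℕ) : ℤ) ((6 * n : ℕ) : ℤ)
      (((2 * n : ℕ) : ℤ), j) ≤ ∑ j ∈ Icc (0 : ℤ) ((6 * n : ℕ) : ℤ),
      pc ((2 * n : ℕ) : ℤ) ((6 * n : ℕ) : ℤ) (((2 * n : ℕ) : ℤ), j) := by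
    apply sum_le_sum_of_subset_of_nonneg
    · intro j hj
      rw [mem_Icc] at hj ⊢
      push_cast
      omega
    · intro i _ _
      exact pr_nonneg _ _
  have h2 : ∀ j ∈ Icc (2 * n : ℤ) (3 * n), (pic (2 * n) / 2) * cr * (pih (3 * n) / 2)
      ≤ pc ((2 * n : ℕ) : ℤ) ((6 * n : ℕ) : ℤ) (((2 * n : ℕ) : ℤ), j) := by
    intro j hj
    rw [mem_Icc] at hj
    push_cast
    refine le_trans ?_ (term_lower (n := n) (by exact_mod_cast hn) hj.1 hj.2)
    apply mul_le_mul_of_nonneg_right _ (by have := pih_nonneg (3 * n); linarith)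
    apply mul_le_mul_of_nonneg_left _ (by have := pic_nonneg (2 * n); linarith)
    exact hp_six (by exact_mod_cast hn)
  have h3 := sum_le_sum h2
  rw [sum_const, Int.card_Icc, nsmul_eq_mul] at h3
  have h4 : ((3 * (n : ℤ) + 1 - 2 * n).toNat : ℝ) = n + 1 := by
    have : (3 * (n : ℤ) + 1 - 2 * n).toNat = n + 1 := by omega
    rw [this]; push_cast; ring
  rw [h4] at h3
  nlinarith

/-- crossing probability of `[0, 2k] × [0, k]` -/
lemma hp_two {k : ℤ} (hk : 2 ≤ k) : cr ≤ hp (2 * k) k := by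
  have h1 := hp_six (n := k / 2) (by omega)
  refine h1.trans (hp_mono (by omega) (by omega) (by omega))

end Pool.Agent.H95.Perc
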