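import Mathlib
import Pool.Agent.H95.Perc.ArmDefs
import Pool.Agent.H95.Perc.TwoPoint

namespace Pool.Agent.H95.Perc

open Finset Pool.Agent.H95.SumRule

lemma pr_edge {α : Type*} [DecidableEq α] {E : Finset α} {e : α} (he : e ∈ E) :
    pr E (fun ω => e ∈ ω) = 1 / 2 := by
  have h1 : E = insert e (E.erase e) := (insert_erase he).symm
  rw [h1, pr_insert (notMem_erase e E)]
  have h2 : pr (E.erase e) (fun ω => e ∈ ω) = 0 := by
    rw [← pr_false (E.erase e)]
    apply pr_congr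
    intro ω hω
    simp only [iff_false]
    intro h
    exact notMem_erase e E (hω h)
  have h3 : pr (E.erase e) (fun ω => e ∈ insert e ω) = 1 := by
    rw [← pr_true (E.erase e)]
    apply pr_congr
    intro ω _
    simp
  rw [h2, h3]; norm_num

lemma cornerTwoPoint_eq (N k : ℕ) : cornerTwoPoint N k = pc N N (k, 0) := by
  unfold cornerTwoPoint pc
  rw [fkProb_one, domain_rect]
  apply pr_congr
  intro ω hω
  unfold conn
  rw [inter_eq_left.mpr hω]

lemma cornerArm_eq (n : ℕ) : cornerArm n = pic n := by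
  unfold cornerArm pic
  rw [fkProb_one, domain_rect]
  apply pr_congr
  intro ω hω
  rw [arm_iff]
  unfold conn
  rw [inter_eq_left.mpr hω]
  have h0 : ((0, 0) : ℤ × ℤ) ∈ rect 0 (n : ℤ) 0 n := by rw [mem_rect]; simp only; omega
  constructor
  · rintro ⟨v, h1, h2, h3⟩; exact ⟨h0, v, h1, h2, h3⟩
  · rintro ⟨_, v, h1, h2, h3⟩; exact ⟨v, h1, h2, h3⟩

lemma halfArm_eq (n : ℕ) : halfArm n = pih n := by
  unfold halfArm
  have h1 := pr_arm_bottom n n
  rw [← h1, fkProb_one, domain_rect]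
  have e1 : rect 0 ((2 * n : ℕ) : ℤ) 0 (n : ℤ) = rect ((n : ℤ) - n) (n + n) 0 n := by
    congr 1 <;> push_cast <;> ring
  rw [e1]
  apply pr_congr
  intro ω hω
  rw [arm_iff]
  unfold conn
  rw [inter_eq_left.mpr hω]
  have h0 : (((n : ℤ), 0) : ℤ × ℤ) ∈ rect ((n : ℤ) - n) (n + n) 0 n := by
    rw [mem_rect]; simp only; omega
  constructor
  · rintro ⟨v, h1, h2, h3⟩
    exact ⟨h0, v, h1, by omega, h3⟩
  · rintro ⟨_, v, h1, h2, h3⟩
    exact ⟨v, h1, by omega, h3⟩

/-- product of arms, lower bound -/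
lemma arm_product_lower (n : ℕ) (hn : 1 ≤ n) : (1 / 4 : ℝ) / n ≤ pic n * pih n := by
  have h := arms_lower n
  have hn' : (1 : ℝ) ≤ n := by exact_mod_cast hn
  rw [div_le_iff₀ (by linarith)]
  have h0 : 0 ≤ pic n * pih n := mul_nonneg (pic_nonneg _) (pih_nonneg _)
  nlinarith

/-- product of arms, upper bound -/
lemma arm_product_upper (r : ℕ) : (r + 1 : ℝ) * (cr * (pic r * pih r)) ≤ 24 := by
  have hcr : cr ≤ 1 := by unfold cr; norm_num
  by_cases hr : r < 3
  · have h1 : pic r ≤ 1 := pr_le_one _ _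
    have h2 : pih r ≤ 1 := pr_le_one _ _
    have h3 : pic r * pih r ≤ 1 := mul_le_one₀ h1 (pih_nonneg _) h2
    have h0 : 0 ≤ pic r * pih r := mul_nonneg (pic_nonneg _) (pih_nonneg _)
    have h4 : cr * (pic r * pih r) ≤ 1 := mul_le_one₀ hcr h0 h3
    have h5 : (r : ℝ) + 1 ≤ 3 := by
      have : r + 1 ≤ 3 := by omega
      exact_mod_cast this
    have h6 : 0 ≤ cr * (pic r * pih r) := mul_nonneg cr_pos.le h0
    nlinarith
  · set n := r / 3 with hn
    have hn1 : 1 ≤ n := by omega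
    have h := arms_upper n hn1
    have m1 : pic (r : ℤ) ≤ pic (2 * (n : ℤ)) := pic_mono (by omega) (by omega)
    have m2 : pih (r : ℤ) ≤ pih (3 * (n : ℤ)) := pih_mono (by omega) (by omega)
    have h3 : pic (r : ℤ) * pih (r : ℤ) ≤ pic (2 * (n : ℤ)) * pih (3 * (n : ℤ)) :=
      mul_le_mul m1 m2 (pih_nonneg _) (pic_nonneg _)
    have h4 : (r : ℝ) + 1 ≤ 3 * (n + 1) := by
      have : r + 1 ≤ 3 * (n + 1) := by omega
      exact_mod_cast this
    have h0 : 0 ≤ pic (r : ℤ) * pih (r : ℤ) := mul_nonneg (pic_nonneg _) (pih_nonneg _)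
    have h5 : cr * (pic (r : ℤ) * pih (r : ℤ)) ≤ cr * (pic (2 * (n : ℤ)) * pih (3 * (n : ℤ))) :=
      mul_le_mul_of_nonneg_left h3 cr_pos.le
    have h6 : 0 ≤ cr * (pic (r : ℤ) * pih (r : ℤ)) := mul_nonneg cr_pos.le h0
    calc (r + 1 : ℝ) * (cr * (pic r * pih r)) ≤ (3 * (n + 1)) * (cr * (pic r * pih r)) :=
          mul_le_mul_of_nonneg_right h4 h6
      _ ≤ (3 * (n + 1)) * (cr * (pic (2 * (n : ℤ)) * pih (3 * (n : ℤ)))) := by
          apply mul_le_mul_of_nonneg_left h5; positivity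
      _ ≤ 24 := by linarith

theorem arm_product_main : ∃ c C : ℝ, 0 < c ∧ 0 < C ∧ ∀ n : ℕ, 1 ≤ n →
    c / n ≤ cornerArm n * halfArm n ∧ cornerArm n * halfArm n ≤ C / n := by
  refine ⟨1 / 4, 24 / cr, by norm_num, div_pos (by norm_num) cr_pos, ?_⟩
  intro n hn
  rw [cornerArm_eq, halfArm_eq]
  refine ⟨arm_product_lower n hn, ?_⟩
  have hn' : (1 : ℝ) ≤ n := by exact_mod_cast hn
  have h := arm_product_upper n
  have h0 : 0 ≤ pic n * pih n := mul_nonneg (pic_nonneg _) (pih_nonneg _)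
  rw [le_div_iff₀ (by linarith), le_div_iff₀ cr_pos]
  have : 0 ≤ cr * (pic n * pih n) := mul_nonneg cr_pos.le h0
  nlinarith

theorem two_point_main : ∃ c C : ℝ, 0 < c ∧ 0 < C ∧ ∀ k N : ℕ, 1 ≤ k →
    (2 * k ≤ N → c / k ≤ cornerTwoPoint N k) ∧ (k ≤ N → cornerTwoPoint N k ≤ C / k) := by
  have hcr : cr ≤ 1 := by unfold cr; norm_num
  refine ⟨cr / 16, 48 / cr, div_pos cr_pos (by norm_num), div_pos (by norm_num) cr_pos, ?_⟩
  intro k N hk
  rw [cornerTwoPoint_eq]
  have hk' : (1 : ℝ) ≤ k := by exact_mod_cast hk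
  constructor
  · intro hN
    rcases hk.lt_or_eq with hk2 | rfl
    · have h1 := two_point_lower k N (by omega) (by omega)
      have h2 : cr ≤ hp (2 * (k : ℤ)) k := hp_two (by omega)
      have h3 := arm_product_lower k hk
      refine le_trans ?_ h1
      have h0 : 0 ≤ pic k * pih k := mul_nonneg (pic_nonneg _) (pih_nonneg _)
      have h4 : cr / 16 / k = cr * ((1 / 4) / k) / 4 := by ring
      rw [h4]
      have h5 : cr * ((1 / 4) / k) ≤ cr * (pic k * pih k) := mul_le_mul_of_nonneg_left h3 cr_pos.le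
      have h6 : cr * (pic k * pih k) ≤ hp (2 * (k : ℤ)) k * (pic k * pih k) :=
        mul_le_mul_of_nonneg_right h2 h0
      nlinarith
    · -- a single open edge
      have h1 : (1 / 2 : ℝ) ≤ pc N N (((1 : ℕ) : ℤ), 0) := by
        unfold pc
        have he : s(((0, 0) : ℤ × ℤ), (((1 : ℕ) : ℤ), 0)) ∈ edgesIn (rect 0 (N : ℤ) 0 N) := by
          rw [mem_edgesIn', mem_rect, mem_rect]
          refine ⟨by simp only; omega, by simp only; omega, by simp [Z2, IsUnit2]⟩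
        rw [← pr_edge he]
        apply pr_mono
        intro ω _ h
        have h2 := mem_edgesIn'.mp he
        exact conn_step h2.1 h2.2.1 h2.2.2 h
      have h2 : cr / 16 / ((1 : ℕ) : ℝ) ≤ 1 / 2 := by
        push_cast; linarith
      exact h2.trans h1
  · intro hN
    have h1 := two_point_upper k N (by omega) (by omega)
    have e1 : ((k : ℤ) - 1) / 2 = (((k - 1) / 2 : ℕ) : ℤ) := by omega
    rw [e1] at h1
    set r := (k - 1) / 2 with hr
    have h2 := arm_product_upper r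
    have h3 : (k : ℝ) ≤ 2 * (r + 1) := by
      have : k ≤ 2 * (r + 1) := by omega
      exact_mod_cast this
    have h0 : 0 ≤ pic r * pih r := mul_nonneg (pic_nonneg _) (pih_nonneg _)
    refine h1.trans ?_
    rw [le_div_iff₀ (by linarith), le_div_iff₀ cr_pos]
    have h6 : 0 ≤ cr * (pic (r : ℤ) * pih (r : ℤ)) := mul_nonneg cr_pos.le h0
    nlinarith

theorem corner_exponent_main : ∃ c C : ℝ, 0 < c ∧ 0 < C ∧ ∀ k N : ℕ, 1 ≤ k → 2 * k ≤ N →
    (c / k ≤ cornerTwoPoint N k ∧ cornerTwoPoint N k ≤ C / k) ∧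
    (c / k ≤ cornerArm k * halfArm k ∧ cornerArm k * halfArm k ≤ C / k) := by
  obtain ⟨c1, C1, hc1, hC1, h1⟩ := two_point_main
  obtain ⟨c2, C2, hc2, hC2, h2⟩ := arm_product_main
  refine ⟨min c1 c2, max C1 C2, lt_min hc1 hc2, lt_max_of_lt_left hC1, ?_⟩
  intro k N hk hN
  obtain ⟨a1, a2⟩ := h1 k N hk
  obtain ⟨b1, b2⟩ := h2 k hk
  have hk0 : (0 : ℝ) ≤ k := Nat.cast_nonneg k
  refine ⟨⟨le_trans ?_ (a1 hN), le_trans (a2 (by omega)) ?_⟩,
    ⟨le_trans ?_ b1, le_trans b2 ?_⟩⟩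
  · exact div_le_div_of_nonneg_right (min_le_left _ _) hk0
  · exact div_le_div_of_nonneg_right (le_max_left _ _) hk0
  · exact div_le_div_of_nonneg_right (min_le_right _ _) hk0
  · exact div_le_div_of_nonneg_right (le_max_right _ _) hk0

end Pool.Agent.H95.Perc
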